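import Pool.Agent.Lib.NV2.Blue
import Pool.Agent.Lib.ZL.B_LEV

/-! Project NV2, row DB: the derivative of the contraction. -/

open scoped Classical Topology ContDiff ComplexConjugate
open Set Complex Filter

noncomputable section

namespace Pool.Agent.Lib.NV2

open Pool.Agent.Lib.SV (E nsq)
open Pool.Agent.Lib.HS32 Pool.Agent.Lib.EX Pool.Agent.Lib.EXS Pool.Agent.Lib.ZL
open Pool.Agent.Lib.EXS.K32

namespace DB

variable {n r : ℕ} {T y : E n → Fin r → ℂ} {z : E n}

theorem ip_self (t : Fin r → ℂ) : ip t t = nsq t := by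
  simp only [ip, nsq, mul_conj, ofReal_sum]

theorem ip_conj (t u : Fin r → ℂ) : conj (ip t u) = ip u t := by
  simp only [ip, map_sum, map_mul, conj_conj, mul_comm]

theorem ip_prp (y t u : Fin r → ℂ) : ip y (prp t u) = ip y u - ip t u / nsq t * ip y t := by
  rw [← ip_conj u t, ← conj_ofReal (nsq t), ← map_div₀, prp]
  generalize ip u t / (nsq t : ℂ) = c
  simp only [ip, Pi.sub_apply, Pi.smul_apply, smul_eq_mul, map_sub, map_mul, Finset.mul_sum,
    ← Finset.sum_sub_distrib]
  exact Finset.sum_congr rfl fun i _ => by ring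

theorem nsq_prp {t : Fin r → ℂ} (h : t ≠ 0) (u : Fin r → ℂ) :
    nsq (prp t u) = nsq u - normSq (ip u t) / nsq t := by
  have h0 : (nsq t : ℂ) ≠ 0 := ofReal_ne_zero.2 (nsq_pos h).ne'
  have e : ip (prp t u) t = 0 := by
    rw [← ip_conj, ip_prp, ip_self, div_mul_cancel₀ _ h0, sub_self, map_zero]
  have e1 : ip (prp t u) u = ip u u - ip u t / nsq t * ip t u := by
    rw [← ip_conj, ip_prp, map_sub, map_mul, map_div₀, ip_conj, ip_conj, ip_conj, conj_ofReal]
  refine ofReal_injective ?_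
  rw [← ip_self, ip_prp, e, e1, ip_self, ofReal_sub, ofReal_div, ← mul_conj, ip_conj]
  ring

theorem cd_ip (hT : HolN T z) (hy : HolN y z) : ContDiffAt ℝ ∞ (fun w => ip (y w) (T w)) z :=
  ContDiffAt.sum fun i _ => (hol_cd (hol_apply hy i)).mul (cd_star (hol_cd (hol_apply hT i)))

theorem fd_ip (hT : HolN T z) (hy : HolN y z) (u : E n) :
    fderiv ℝ (fun w => ip (y w) (T w)) z u =
      ip (fderiv ℂ y z u) (T z) + ip (y z) (fderiv ℂ T z u) := by
  have a := fun i => (hasFDerivAt_pi'.1 hy.self_of_nhds.hasFDerivAt i).restrictScalars ℝ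
  have b := fun i => conjCLE.toContinuousLinearMap.hasFDerivAt.comp z
    ((hasFDerivAt_pi'.1 hT.self_of_nhds.hasFDerivAt i).restrictScalars ℝ)
  have e : fderiv ℝ (fun w => ip (y w) (T w)) z = _ :=
    (HasFDerivAt.fun_sum (u := Finset.univ) fun i _ => (a i).mul (b i)).fderiv
  rw [e]
  simp [ip, Finset.sum_add_distrib, add_comm, mul_comm]

theorem db_ip (hT : HolN T z) (hy : HolN y z) (v : E n) :
    db (fun w => ip (y w) (T w)) z v = ip (y z) (fderiv ℂ T z v) := by
  rw [LEV.db_eq36, fd_ip hT hy, fd_ip hT hy, (fderiv ℂ y z).map_smul, (fderiv ℂ T z).map_smul]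
  have e1 : ∀ a b : Fin r → ℂ, ip (I • a) b = I * ip a b ∧ ip a (I • b) = -I * ip a b :=
    fun a b => by
      simp only [ip, Pi.smul_apply, smul_eq_mul, map_mul, conj_I, Finset.mul_sum]
      exact ⟨Finset.sum_congr rfl fun i _ => by ring, Finset.sum_congr rfl fun i _ => by ring⟩
  rw [(e1 _ _).1, (e1 _ _).2]
  linear_combination (ip (fderiv ℂ y z v) (T z) - ip (y z) (fderiv ℂ T z v)) / 2 * I_mul_I

theorem db_div {f g : E n → ℂ} (hf : DifferentiableAt ℝ f z) (hg : DifferentiableAt ℝ g z)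
    (h0 : g z ≠ 0) (v : E n) :
    db (fun w => f w / g w) z v = (db f z v - db g z v / g z * f z) / g z := by
  simp only [db, div_eq_mul_inv, Finset.sum_mul, ← Finset.sum_sub_distrib]
  refine Finset.sum_congr rfl fun j _ => ?_
  rw [dzb_mul (g := fun w => (g w)⁻¹) hf (hg.inv h0), dzb_inv hg h0]
  field_simp
  ring

end DB

open DB

theorem bDB : St_DB := by
  intro n r T y z v hT hy h0
  have hp := nsq_pos h0
  have h1 : ip (T z) (T z) ≠ 0 := by
    rw [ip_self]
    exact ofReal_ne_zero.2 hp.ne'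
  have h2 := (lv_lg hT h0).1
  have h3 := (SV.stFS SV.stSMO n _ T z 0 le_rfl hT (by simpa using hp)).2 v
  simp only [add_zero] at h3
  refine ⟨?_, ?_, h2, ?_⟩
  · simp only [← ip_self, div_eq_mul_inv]
    exact (cd_ip hT hy).mul ((cd_ip hT hT).inv h1)
  · rw [ip_prp]
    simp only [← ip_self]
    rw [db_div (cd_diff (cd_ip hT hy)) (cd_diff (cd_ip hT hT)) h1, db_ip hT hy, db_ip hT hT]
  · rw [lv_eq h2, h3.1, nsq_prp h0, ip]
    field_simp

end Pool.Agent.Lib.NV2
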