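import Pool.Agent.Lib.NV2.Blue

/-! Project NV2: the passage to the limit. -/

open scoped Classical Topology ENNReal
open Set MeasureTheory Complex Metric Filter

noncomputable section

namespace Pool.Agent.Lib.NV2

open Pool.Agent.Lib.SV (nsq nsq_nonneg)

namespace LIM

theorem nsq_le {κ : Type} [Fintype κ] {m : ℕ} (a : Fin m → ℂ) (e : Fin m → κ → ℂ) :
    nsq (fun k => ∑ i, a i * e i k) ≤ ‖a‖ ^ 2 * m * ∑ i, nsq (e i) := by
  simp only [nsq]
  rw [Finset.sum_comm, Finset.mul_sum]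
  refine Finset.sum_le_sum fun k _ => ?_
  have h1 : ‖∑ i, a i * e i k‖ ≤ ‖a‖ * ∑ i, ‖e i k‖ := by
    rw [Finset.mul_sum]
    exact norm_sum_le_of_le _ fun i _ => (norm_mul_le _ _).trans
      (mul_le_mul_of_nonneg_right (norm_le_pi_norm a i) (norm_nonneg _))
  have h2 := sq_sum_le_card_mul_sum_sq (s := Finset.univ) (f := fun i => ‖e i k‖)
  rw [Finset.card_fin] at h2
  simp only [normSq_eq_norm_sq]
  refine (pow_le_pow_left₀ (norm_nonneg _) h1 2).trans ?_
  rw [mul_pow, mul_assoc]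
  exact mul_le_mul_of_nonneg_left h2 (sq_nonneg _)

theorem meas {Y κ : Type} [MeasurableSpace Y] [Fintype κ] {μ : Measure Y} {b : κ → Y → ℂ}
    {w : Y → ℝ} (hb : ∀ i, AEMeasurable (b i) μ) (hw : AEMeasurable w μ) :
    AEMeasurable (fun x => ENNReal.ofReal (nsq (b · x) * w x)) μ :=
  ((Finset.aemeasurable_fun_sum _ fun i _ =>
    continuous_normSq.measurable.comp_aemeasurable (hb i)).mul hw).ennreal_ofReal

end LIM

open LIM in
theorem bLIM : St_LIM := by
  intro Y κ _ _ μ V δ B w₀ w η ε _ hδ m₀ mw hV hη hε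
  set m := Module.finrank ℂ V
  let e := Module.finBasis ℂ V
  choose A hA using fun i => (hV _ (e i).2).2.2
  set K : ℝ := m * ∑ i, |A i|
  have K0 : 0 ≤ K := by positivity
  have bd : ∀ (v : V) ν, ∫⁻ x, ENNReal.ofReal (nsq (v.1 · x) * w ν x) ∂μ ≤
      ENNReal.ofReal (‖e.equivFun v‖ ^ 2 * K) := fun v ν => by
    have hv : ∀ x, (v.1 · x) = fun k => ∑ i, e.equivFun v i * (e i).1 k x := fun x => by
      funext k
      conv_lhs => rw [← e.sum_equivFun v]
      simp only [AddSubmonoidClass.coe_finsetSum, SetLike.val_smul, Finset.sum_apply,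
        Pi.smul_apply, smul_eq_mul]
    calc _ ≤ ∫⁻ x, ENNReal.ofReal (‖e.equivFun v‖ ^ 2 * m) *
          ∑ i, ENNReal.ofReal (nsq ((e i).1 · x) * w ν x) ∂μ := by
          refine lintegral_mono_ae (hδ.mono fun x hx => ?_)
          have p := hx.1.le.trans (hx.2.1 ν)
          rw [← ENNReal.ofReal_sum_of_nonneg fun i _ => mul_nonneg (nsq_nonneg _) p,
            ← ENNReal.ofReal_mul (by positivity), ← Finset.sum_mul, ← mul_assoc, hv]
          exact ENNReal.ofReal_le_ofReal (mul_le_mul_of_nonneg_right (nsq_le _ _) p)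
      _ ≤ ENNReal.ofReal (‖e.equivFun v‖ ^ 2 * m) * ∑ i, ENNReal.ofReal |A i| := by
          rw [lintegral_const_mul' _ _ ENNReal.ofReal_ne_top,
            lintegral_finsetSum' _ fun i _ => meas (hV _ (e i).2).1 (mw ν)]
          exact mul_le_mul_right (Finset.sum_le_sum fun i _ =>
            (hA i ν).trans (ENNReal.ofReal_le_ofReal (le_abs_self _))) _
      _ = _ := by
          rw [← ENNReal.ofReal_sum_of_nonneg fun i _ => abs_nonneg _,
            ← ENNReal.ofReal_mul (by positivity), mul_assoc]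
  let v : ℕ → V := fun ν => ⟨η ν, (hη ν).1⟩
  have v0 : ∀ ν, 0 < ‖e.equivFun (v ν)‖ := fun ν => norm_pos_iff.2 fun h =>
    (hη ν).2.1 (congrArg Subtype.val (e.equivFun.map_eq_zero_iff.1 h))
  let s : ℕ → ℝ := fun ν => ‖e.equivFun (v ν)‖⁻¹
  let u : ℕ → V := fun ν => (s ν : ℂ) • v ν
  have u1 : ∀ ν, e.equivFun (u ν) ∈ sphere (0 : Fin m → ℂ) 1 := fun ν => by
    rw [mem_sphere_zero_iff_norm, map_smul, norm_smul, norm_real, norm_inv, norm_norm,
      inv_mul_cancel₀ (v0 ν).ne']
  obtain ⟨a, ha, φ, hφ, ht⟩ := (isCompact_sphere _ _).tendsto_subseq u1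
  let b := e.equivFun.symm a
  have h1 : ∀ ν, ∫⁻ x, ENNReal.ofReal (δ x ((u ν).1 · x) * w ν x) ∂μ ≤
      ENNReal.ofReal (|ε ν| * K) := fun ν => by
    calc _ = ∫⁻ x, ENNReal.ofReal (s ν ^ 2) * ENNReal.ofReal (δ x (η ν · x) * w ν x) ∂μ := by
          refine lintegral_congr_ae (hδ.mono fun x hx => ?_)
          have := (hx.2.2 (η ν · x) 0 (s ν)).2.1
          rw [normSq_ofReal, ← sq] at this
          dsimp only
          rw [← ENNReal.ofReal_mul (sq_nonneg _), ← mul_assoc, ← this]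
          rfl
      _ ≤ ENNReal.ofReal (s ν ^ 2) * (ENNReal.ofReal |ε ν| *
          ENNReal.ofReal (‖e.equivFun (v ν)‖ ^ 2 * K)) := by
          rw [lintegral_const_mul' _ _ ENNReal.ofReal_ne_top]
          exact mul_le_mul_right ((hη ν).2.2.trans (mul_le_mul'
            (ENNReal.ofReal_le_ofReal (le_abs_self _)) (bd (v ν) ν))) _
      _ = _ := by
          rw [← ENNReal.ofReal_mul (abs_nonneg _), ← ENNReal.ofReal_mul (sq_nonneg _)]
          have := (v0 ν).ne'
          simp only [s]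
          congr 1
          field_simp
  have h2 : ∀ ν, ∫⁻ x, ENNReal.ofReal (δ x (b.1 · x) * w₀ x) ∂μ ≤
      ENNReal.ofReal (2 * (|ε ν| * K) + |B| * (‖a - e.equivFun (u ν)‖ ^ 2 * K)) := fun ν => by
    calc _ ≤ ∫⁻ x, ENNReal.ofReal 2 * ENNReal.ofReal (δ x ((u ν).1 · x) * w ν x) +
          ENNReal.ofReal |B| * ENNReal.ofReal (nsq ((b - u ν).1 · x) * w ν x) ∂μ := by
          refine lintegral_mono_ae (hδ.mono fun x hx => ?_)
          have p := hx.1.le.trans (hx.2.1 ν)
          obtain ⟨q0, -, q⟩ := hx.2.2 (b.1 · x) ((u ν).1 · x) 0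
          have q1 := (hx.2.2 ((u ν).1 · x) 0 0).1
          have q2 := nsq_nonneg ((b - u ν).1 · x)
          have q3 : B * nsq ((b.1 · x) - ((u ν).1 · x)) ≤ |B| * nsq ((b - u ν).1 · x) :=
            mul_le_mul_of_nonneg_right (le_abs_self B) q2
          rw [← ENNReal.ofReal_mul zero_le_two, ← ENNReal.ofReal_mul (abs_nonneg _),
            ← ENNReal.ofReal_add (by positivity) (by positivity)]
          refine ENNReal.ofReal_le_ofReal ((mul_le_mul_of_nonneg_left (hx.2.1 ν) q0).trans ?_)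
          nlinarith [mul_le_mul_of_nonneg_right (q.trans (add_le_add_right q3 _)) p]
      _ ≤ _ := by
          rw [lintegral_add_right' _ ((meas (hV _ (b - u ν).2).1 (mw ν)).const_mul _),
            lintegral_const_mul' _ _ ENNReal.ofReal_ne_top,
            lintegral_const_mul' _ _ ENNReal.ofReal_ne_top,
            ENNReal.ofReal_add (by positivity) (by positivity), ENNReal.ofReal_mul zero_le_two,
            ENNReal.ofReal_mul (abs_nonneg B)]
          have := bd (b - u ν) ν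
          rw [map_sub, e.equivFun.apply_symm_apply] at this
          exact add_le_add (mul_le_mul_right (h1 ν) _) (mul_le_mul_right this _)
  have h3 : Tendsto (fun ν => ENNReal.ofReal (2 * (|ε (φ ν)| * K) +
      |B| * (‖a - e.equivFun (u (φ ν))‖ ^ 2 * K))) atTop (𝓝 0) := by
    have t1 := (((hε.comp hφ.tendsto_atTop).abs.mul_const K).const_mul 2).add
      (((((tendsto_const_nhds (x := a)).sub ht).norm.pow 2).mul_const K).const_mul |B|)
    have t2 := ENNReal.tendsto_ofReal t1
    simpa using t2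
  have h4 := (lintegral_eq_zero_iff' ((hV _ b.2).2.1.mul m₀).ennreal_ofReal).1
    (le_antisymm (ge_of_tendsto' h3 fun ν => h2 (φ ν)) zero_le)
  refine ⟨b.1, b.2, fun h => ?_, ?_⟩
  · have : a = 0 := e.equivFun.symm.map_eq_zero_iff.1 (Subtype.ext h)
    simp [this] at ha
  · filter_upwards [h4, hδ] with x hx hy
    have := ENNReal.ofReal_eq_zero.1 hx
    exact le_antisymm (nonpos_of_mul_nonpos_left this hy.1) (hy.2.2 _ 0 0).1

end Pool.Agent.Lib.NV2
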