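import Pool.Agent.Lib.NV2.Blue2
import Pool.Agent.Lib.ZL.B_CX
import Pool.Agent.Lib.ZL.B_AMB
import Pool.Agent.Lib.EX.K1O
import Pool.Agent.Lib.SV1.Hor1

/-! Project NV2: the data on the manifold layer, and the target statement. -/

open scoped Classical Topology ContDiff ENNReal Manifold
open Set MeasureTheory Complex Metric Filter

noncomputable section

namespace Pool.Agent.Lib.NV2

open Pool.Agent.Lib.SV (E nsq)
open Pool.Agent.Lib.HS32 Pool.Agent.Lib.EX Pool.Agent.Lib.EXS Pool.Agent.Lib.ZL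
open Pool.Agent.Lib.HS.BBR (mf)

theorem bCTX (hSEC : St_SEC) (hKD : St_KD) (hZ : St_ZOX) (hN : St_NFB) (hC : St_CX)
    (hP : St_PEAK) (hU : EX.St_UNI) (hA : EX.St_ADA) : St_CTX := by
  intro n Y I _ _ _ _ _ _ _ _ G S c e l ν η hG hη ⟨h0, r, τ, h⟩ hc hn hz
  have : (mf n Y).Cpt := ⟨‹_›, ‹_›, ‹_›⟩
  obtain ⟨D, hF, -⟩ := hA n (mf n Y) I S (fun _ => univ) (fun _ => univ_mem) fun x : Y => by
    obtain ⟨h, -, hh, -⟩ := hη x
    exact ⟨_, K1.ch_mf x, mem_chart_source _ x, _,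
      K1.eqs_chart (K1.ch_mf x) (mem_chart_source _ x) hh⟩
  obtain ⟨w, w1, w2, w3⟩ := K1.ord_form hU hF hη
  have key := fun (d : D.A) z (hz : z ∈ B2 n) =>
    let ⟨_, _, hE, t0, ht, im⟩ := h ((D.e d).symm z)
    AMB.one (Y := Y) hU (D.mem d) (BLW.tgt D d hz) (BLW.fit hF d) hE t0 ht im
  let A : Am D := ⟨r, e, τ, fun d => BLW.num (D.c d) (fun i => -(e i : ℤ)) (τ ∘ (D.e d).symm), h0,
    fun d z hz => ⟨(key d z hz).1.1, (key d z hz).1.2.1, fun _ => (key d z hz).1.2.2⟩,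
    fun d z hz => (key d z hz).2⟩
  obtain ⟨X, x1, x2, x3, x4, x5, x6⟩ := hC n _ I D A l 1 w one_pos w1 w2 w3
  have x4 : X.e = e := x4
  obtain ⟨t, t1, t2, t3⟩ := hKD n _ I D A
  have nf := hN n Y I G S ν D X hG hF hn
  obtain ⟨c', X', -, -, -, -, -, y1, -, y2⟩ := hP n _ I D X ν x5 nf
  obtain ⟨-, -, s1, -⟩ := hSEC n Y I S D hF fun y => (hη y).imp fun h hh => hh.elim fun _ a => a.1
  have ho : ∀ d, ∀ z ∈ B2 n, (D.e d).symm z ∈ off D → Off (D.c d) z := fun d z hz h =>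
    GLU.rinv (D := D) d hz ▸ h d (GLU.mem_src d hz)
  have eo : ∀ i, X.o i = l i := fun i => by rw [Cx.o, x1, x2, Nat.cast_one, div_one]
  have c0 : (0 : ℝ) < c := Nat.cast_pos.2 hc
  have ek : ∀ i, (((c : ℤ) * l i : ℤ) : ℝ) / c = l i := fun i => by
    rw [Int.cast_mul, Int.cast_natCast, mul_div_cancel_left₀ _ c0.ne']
  refine ⟨D, X, r, c', t, hF, x1, x2, x4, x5, nf, x3.symm ▸ w3, ?_, t1, t2, fun x hx => ?_,
    fun a₀ => ?_, fun j => ?_⟩
  · have he := X.eta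
    rw [x1, x2, x3] at he
    exact ZQ.hqC (C := 1) SV.hor1 one_ne_zero ENNReal.one_ne_top one_pos w1 w2 w3
      (fun d z hz h => ⟨CX.hol A hz (ho d z hz h), CX.imm A hz (ho d z hz h)⟩) (CX.cpt A) he
  · rw [x6, lg, t3 x hx]
  · refine hZ n _ I D X ⟨fun i => c * l i, c, c0, fun i => by rw [eo, ek],
      fun i => by rw [eo, ek]; exact lt_add_one _⟩ ν _ (fun i => l i) (a₀ * c) x5 nf hz.1
      (fun k => ?_) (by positivity) fun i => ⟨(eo i).le, by rw [eo]; exact lt_add_one _, ?_⟩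
    · obtain ⟨a, ha⟩ := hz.2 k
      exact ⟨a, fun j U hU => (s1 _ _).1 (ha j U ((s1 _ _).2 (x4 ▸ hU)))⟩
    · push_cast
      field_simp
  · have := y2 j
    simp only [y1, x4, Nat.cast_mul] at this
    exact this

theorem bT (hC : St_CTX) (hSEC : St_SEC) (hMV : St_MV) (hN : St_NV2) : St_T := by
  intro n Y I _ _ _ _ _ _ _ G S c a₀ e l ν η P hG hη hA hc hn hz hP h0
  have : (mf n Y).Cpt := ⟨‹_›, ‹_›, ‹_›⟩
  obtain ⟨D, X, r, c', t, hF, -, -, x4, -, -, -, hq, t1, t2, t3, zo, hg⟩ :=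
    hC n Y I G S c e l ν η hG hη hA hc hn hz
  have hE : ∀ y, ∃ h, Eqs n S y h := fun y => (hη y).imp fun h hh => hh.elim fun _ a => a.1
  obtain ⟨-, -, -, s2⟩ := hSEC n Y I S D hF hE
  subst x4
  obtain ⟨q, hq⟩ := hN n _ I D X r c' _ ν t P hq t1 t2 t3 (zo a₀)
    (by simpa only [Nat.cast_one, one_mul] using hg 1) (by simpa only [s2] using hP) h0
  refine ⟨q, (hq.image (f := (a₀ + ·)) (add_right_injective a₀).injOn).mono ?_⟩
  rintro _ ⟨a, ⟨b, hb⟩, rfl⟩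
  obtain ⟨b', hb'⟩ := hMV n Y I S D q _ b hF hE hb
  refine ⟨b', ?_⟩
  simpa only [Nat.cast_add, add_mul, add_assoc] using hb'

end Pool.Agent.Lib.NV2
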