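import Pool.Agent.Lib.NV2.Blue2
import Pool.Agent.Lib.ZL.B_CX

/-! Project NV2, row KD: the sections that define the immersion. -/

open scoped Classical Topology ContDiff
open Set Complex Metric Filter

noncomputable section

namespace Pool.Agent.Lib.NV2

open Pool.Agent.Lib.SV (E nsq)
open Pool.Agent.Lib.HS32 Pool.Agent.Lib.EX Pool.Agent.Lib.EXS Pool.Agent.Lib.ZL
open Pool.Agent.Lib.EXS.K32 (hol_apply nsq_pos)

namespace KD

variable {n : ℕ} {M : Mf n} {ι : Type} [Fintype ι] [DecidableEq ι] {D : Ad M ι} (A : Am D)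
  {d : D.A} {z : E n}

/-- The sections. -/
def t36 (a : Fin A.r) : M.X → ℂ := (off D).indicator fun x => A.τ x a

theorem rep36 (a : Fin A.r) (hz : z ∈ B2 n) (ho : Off (D.c d) z) :
    D.rd (t36 A a) d z = xm (D.c d) (-fun i => (A.e i : ℤ)) z * A.t d z a := by
  have h : (D.e d).symm z ∈ off D :=
    (GLU.mem_off (GLU.mem_src d hz)).2 (by rwa [GLU.rinv d hz])
  rw [Ad.rd, t36, indicator_of_mem h]
  exact congrFun ((A.thol d z hz).2.2 ho) a

theorem vv36 (hz : z ∈ B2 n) : vv D (fun i => A.e i) (t36 A) d z = A.t d z := by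
  funext a
  have : (𝓝[{y | Off (D.c d) y}] z).NeBot :=
    mem_closure_iff_nhdsWithin_neBot.1 (MON.off_dense (D.c d) z)
  have hc := (hol_apply (A.thol d z hz).1 a).self_of_nhds.continuousAt.tendsto
  refine Tendsto.limUnder_eq ((hc.mono_left nhdsWithin_le_nhds).congr' ?_)
  filter_upwards [mem_nhdsWithin_of_mem_nhds (isOpen_ball.mem_nhds hz), self_mem_nhdsWithin]
    with y h1 h2
  rw [rep36 A a h1 h2, MON.xm_neg, mul_inv_cancel_left₀ (MON.xm_ne _ h2)]

theorem ne36 {x : M.X} (hx : x ∈ off D) : A.τ x ≠ 0 := by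
  obtain ⟨d, hd⟩ := GLU.ex_ch D x
  obtain ⟨-, h1, h2⟩ := A.thol d _ (D.tgt d ▸ (D.e d).map_source hd)
  rw [← GLU.rd_e A.τ hd, h2 (hx d hd)]
  exact smul_ne_zero (MON.xm_ne _ (hx d hd)) h1

end KD

open KD

theorem bKD (hPW : ZL.St_PW) : St_KD := by
  intro n M _ ι _ _ D A
  have e : ∀ x ∈ off D, (t36 A · x) = A.τ x := fun x hx => funext fun a => indicator_of_mem hx _
  obtain ⟨C, hC⟩ := CX.bdd A hPW
  refine ⟨t36 A, ⟨fun a => ⟨fun d z hz => ⟨fun y => A.t d y a, hol_apply (A.thol d z hz).1 a,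
    (isOpen_ball.eventually_mem hz).mono fun y hy ho => rep36 A a hy ho⟩,
    fun x hx => indicator_of_notMem hx _⟩, Real.exp C, fun x hx => ?_⟩, fun d z hz c v h => ?_, e⟩
  · rw [e x hx, ← Real.exp_log (nsq_pos (ne36 A hx)), ← Real.exp_add, Real.exp_le_exp]
    simp only [Int.cast_natCast]
    linarith [(abs_le.1 (hC x hx)).1]
  · have e1 : vv D (fun i => A.e i) (t36 A) d =ᶠ[𝓝 z] A.t d :=
      (isOpen_ball.eventually_mem hz).mono fun y hy => vv36 A hy
    rw [e1.fderiv_eq, vv36 A hz] at h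
    have h0 := A.imm d z hz v (-c) (by rw [neg_smul]; exact eq_neg_of_add_eq_zero_right h)
    rw [h0, map_zero, add_zero] at h
    exact ⟨(smul_eq_zero.1 h).resolve_right (A.thol d z hz).2.1, h0⟩

end Pool.Agent.Lib.NV2
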