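import Pool.Agent.Lib.NV2.Blue2
import Pool.Agent.Lib.EX.K1N
import Pool.Agent.Lib.EX.B_TRF
import Pool.Agent.Lib.SV.Hol85

/-! Project NV2, row `MV`: the multivector field of a tensor. -/

open scoped Classical Topology ContDiff Manifold Matrix
open Set Complex Metric Filter

noncomputable section

namespace Pool.Agent.Lib.NV2

open Pool.Agent.Lib.SV (E)
open Pool.Agent.Lib.KP (HolAt)
open Pool.Agent.Lib.HS32 Pool.Agent.Lib.EX Pool.Agent.Lib.EXS Pool.Agent.Lib.ZL
open Pool.Agent.Lib.HS.BBR (mf)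

namespace MV

variable {n q : ℕ}

/-- A tensor evaluated on covectors. -/
def ev (B : (Fin q → Fin n) → ℂ) (ζ : Fin q → E n →L[ℂ] ℂ) : ℂ :=
  ∑ I : Fin q → Fin n, (∏ p, ζ p (Pi.single (I p) 1)) * B I

theorem alt (B : (Fin q → Fin n) → ℂ)
    (hB : ∀ I (σ : Equiv.Perm (Fin q)), B (I ∘ σ) = (Equiv.Perm.sign σ : ℤ) * B I)
    (A : E n →L[ℂ] E n) : ∃ a : (E n →L[ℂ] ℂ) [⋀^Fin q]→ₗ[ℂ] ℂ,
      ∀ ξ, a ξ = ev B fun p => (ξ p).comp A := by
  let m : MultilinearMap ℂ (fun _ : Fin q => E n →L[ℂ] ℂ) ℂ := ∑ I : Fin q → Fin n,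
    B I • (MultilinearMap.mkPiAlgebra ℂ (Fin q) ℂ).compLinearMap fun p =>
      (ContinuousLinearMap.apply ℂ ℂ (A (Pi.single (I p) 1))).toLinearMap
  have hm : ∀ ξ, m ξ = ev B fun p => (ξ p).comp A := fun ξ => by
    simp only [m, ev, sum_apply]
    refine Finset.sum_congr rfl fun I _ => ?_
    rw [smul_apply, smul_eq_mul, mul_comm]
    rfl
  refine ⟨{ m with map_eq_zero_of_eq' := fun ξ i j h hij => ?_ }, hm⟩
  have e : m ξ = -m ξ := by
    rw [hm, ev]
    conv_lhs => rw [← Equiv.sum_comp (Equiv.arrowCongr (Equiv.swap i j) (Equiv.refl (Fin n)))]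
    rw [← Finset.sum_neg_distrib]
    refine Finset.sum_congr rfl fun I _ => ?_
    have e1 : Equiv.arrowCongr (Equiv.swap i j) (Equiv.refl (Fin n)) I = I ∘ Equiv.swap i j :=
      funext fun p => by simp
    rw [e1, hB, Equiv.Perm.sign_swap hij, ← Equiv.prod_comp (Equiv.swap i j)]
    simp only [Function.comp_apply, Equiv.swap_apply_self, Equiv.apply_swap_eq_self h]
    simp
  exact self_eq_neg.1 e

theorem law {B B' : (Fin q → Fin n) → ℂ} (A : E n →L[ℂ] E n)
    (h : ∀ I, B I = ∑ I' : Fin q → Fin n, (∏ p, A (Pi.single (I' p) 1) (I p)) * B' I')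
    (ζ : Fin q → E n →L[ℂ] ℂ) : ev B ζ = ev B' fun p => (ζ p).comp A := by
  simp only [ev, h, Finset.mul_sum]
  rw [Finset.sum_comm]
  refine Finset.sum_congr rfl fun I' _ => ?_
  have e : ∀ p, (ζ p).comp A (Pi.single (I' p) 1) =
      ∑ i, ζ p (Pi.single i 1) * A (Pi.single (I' p) 1) i := fun p => by
    rw [ContinuousLinearMap.comp_apply]
    conv_lhs => rw [pi_eq_sum_univ' (A (Pi.single (I' p) 1)), map_sum]
    refine Finset.sum_congr rfl fun i _ => ?_
    rw [map_smul, smul_eq_mul, mul_comm]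
  simp only [e]
  rw [Finset.prod_univ_sum, Fintype.piFinset_univ, Finset.sum_mul]
  refine Finset.sum_congr rfl fun I _ => ?_
  rw [Finset.prod_mul_distrib, mul_assoc]

theorem proj (B : (Fin q → Fin n) → ℂ) (I : Fin q → Fin n) :
    ev B (fun p => ContinuousLinearMap.proj (I p)) = B I := by
  rw [ev, Finset.sum_eq_single I]
  · simp
  · intro I' _ h
    obtain ⟨p, hp⟩ := Function.ne_iff.1 h
    rw [Finset.prod_eq_zero (Finset.mem_univ p), zero_mul]
    exact Pi.single_eq_of_ne' hp 1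
  · simp

theorem chart {M : Mf n} {ι : Type} (D : Ad M ι) (x : M.X) : ∃ d, x ∈ (D.e d).source := by
  obtain ⟨d, -, hd⟩ := Finset.exists_ne_zero_of_sum_ne_zero ((D.sum x).trans_ne one_ne_zero)
  exact ⟨d, (D.supp d x hd).1⟩

end MV

/-- Row `MV`. -/
theorem bMV (hS : St_SEC) (hMOD : EX.St_MOD) : St_MV := by
  intro n Y I _ _ _ _ _ S D q Q b hF hE hb
  obtain ⟨s1, s2, -⟩ := hS n Y I S D hF hE
  have k : ∀ x : Y, ∃ a : (E n →L[ℂ] ℂ) [⋀^Fin q]→ₗ[ℂ] ℂ, x ∈ off D → ∀ d, x ∈ (D.e d).source →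
      ∀ f : Fin q → Y → ℂ, (∀ p, HolAt n 0 (f p) x) → a (fun p => dAt n (f p) x) =
        MV.ev (b d · (D.e d x)) fun p => fderiv ℂ (D.rd (f p) d) (D.e d x) := fun x => by
    by_cases ho : x ∈ off D
    swap
    · exact ⟨0, fun h => (ho h).elim⟩
    obtain ⟨a, ha⟩ := MV.chart D x
    obtain ⟨A, hA⟩ := K1.dAt_eq (D.mem a) ha
    obtain ⟨m, hm⟩ := MV.alt (b a · (D.e a x)) (hb.alt a _ (TRF.mem_B D ha) (ho a ha)) A
    refine ⟨m, fun _ d hd f hf => ?_⟩
    have t := (TRF.holT D ha hd).self_of_nhds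
    rw [hm, MV.law (fderiv ℂ (D.e a ∘ (D.e d).symm) (D.e d x)) (hb.law a d x ha hd ho)]
    congr 1
    funext p
    have u : DifferentiableAt ℂ (D.rd (f p) a) (D.e a x) := (K1.hol_iff0 (D.mem a) ha).1 (hf p)
    have v : fderiv ℂ (D.rd (f p) a) (D.e a x) =
        (dAt n (f p) x).comp (A : E n →L[ℂ] E n) := hA ℂ (f p) u
    rw [← v]
    have e : (D.e a ∘ (D.e d).symm) (D.e d x) = D.e a x := by
      simp only [Function.comp_apply, (D.e d).left_inv hd]
    rw [← e] at u ⊢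
    rw [← fderiv_comp _ u t]
    exact EventuallyEq.fderiv_eq ((TRF.near D ha hd).mono fun w hw => by
      simp only [Function.comp_apply, Ad.rd, (D.e a).left_inv hw.1])
  choose a ha using k
  refine ⟨a, ?_, fun y f hf => ?_⟩
  · obtain ⟨d, J, z, hz, ho, h0⟩ := hb.ne
    have hx := TRF.mem_src D (a := d) hz
    have hr := TRF.rinv D (a := d) hz
    have ho' : (D.e d).symm z ∈ off D := (GLU.mem_off hx).2 (by rwa [hr])
    have e : ∀ p, D.rd (fun x => D.e d x (J p)) d =ᶠ[𝓝 z]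
        (ContinuousLinearMap.proj (J p) : E n →L[ℂ] ℂ) := fun p =>
      (isOpen_ball.eventually_mem hz).mono fun w hw => congrFun (TRF.rinv D hw) (J p)
    have h1 := ha _ ho' d hx (fun p x => D.e d x (J p)) fun p =>
      (K1.hol_iff0 (D.mem d) hx).2 (by
        have u : DifferentiableAt ℂ (D.rd (fun x => D.e d x (J p)) d)
            (D.e d ((D.e d).symm z)) := by
          rw [hr]
          exact (ContinuousLinearMap.differentiableAt _).congr_of_eventuallyEq (e p)
        exact u)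
    refine ⟨_, (s1 _).1 ho', fun h => h0 ?_⟩
    rw [h, hr] at h1
    rw [← MV.proj (b d · z) J]
    refine Eq.trans ?_ h1.symm
    congr 1
    funext p
    exact ((e p).fderiv_eq.trans (ContinuousLinearMap.fderiv _)).symm
  · obtain ⟨d, hd⟩ := MV.chart D y
    have hz := TRF.mem_B D hd
    have hl := (D.e d).left_inv hd
    obtain ⟨-, m, -⟩ := hMOD n I (D.c d) Q 0 ∅ 0
    rw [← hl] at hf ⊢
    have f1 := K1.ev_sym ((D.e d).map_source hd) hf
    refine (s2 Q _ d _ hz).2 (m.cong _ _ _ (m.sum _ Finset.univ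
      (fun J : Fin q → Fin n => (fun w => ∏ p, fderiv ℂ (D.rd (f p) d) w (Pi.single (J p) 1)) *
        b d J) _ fun J _ => m.mul _ _ _ ?_ (hb.pol d _ hz J)) ?_)
    · have g : ∀ p, HolN (fun w => fderiv ℂ (D.rd (f p) d) w (Pi.single (J p) 1)) (D.e d y) :=
        fun p => by
          obtain ⟨O, h1, hO, hy⟩ := _root_.eventually_nhds_iff.1
            (K1.holN_0 (D.mem d) ((D.e d).map_source hd) (hf.mono fun x h => h p))
          filter_upwards [hO.mem_nhds hy] with w hw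
          exact (SV.H85.differentiableOn_fderiv_apply hO
            (fun x hx => (h1 x hx).differentiableWithinAt) _ w hw).differentiableAt (hO.mem_nhds hw)
      filter_upwards [eventually_all.2 g] with w hw
      exact (HasFDerivAt.finsetProd fun p _ => (hw p).hasFDerivAt).differentiableAt
    · filter_upwards [f1] with w hw ho
      have hx := (D.e d).map_target hw.1
      have hr := (D.e d).right_inv hw.1
      have h1 := ha _ ((GLU.mem_off hx).2 (by rwa [hr])) d hx f hw.2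
      rw [hr] at h1
      rw [Finset.sum_apply]
      exact h1

end Pool.Agent.Lib.NV2
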