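import Pool.Agent.Lib.NV2.Blue2
import Pool.Agent.Lib.EX.B_BLW
import Pool.Agent.Lib.EX.K1N

/-! Project NV2, row `SEC`: poles in the two languages. -/

open scoped Classical Topology ContDiff Manifold
open Set Complex Metric Filter

noncomputable section

namespace Pool.Agent.Lib.NV2

open Pool.Agent.Lib.SV (E)
open Pool.Agent.Lib.KP (HolAt)
open Pool.Agent.Lib.HS32 Pool.Agent.Lib.EX Pool.Agent.Lib.EXS Pool.Agent.Lib.ZL
open Pool.Agent.Lib.HS.BBR (mf)

namespace SEC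

variable {n : ℕ} {I : Type} [Fintype I] [DecidableEq I] {Y : Type} [TopologicalSpace Y]
  [ChartedSpace (E n) Y] [IsManifold 𝓘(ℂ, E n) ω Y] {e : OpenPartialHomeomorph Y (E n)} {z : E n}
  {S : I → Set Y} {c : I → Option (Fin n)}

theorem one (hU : EX.St_UNI) (he : e ∈ (mf n Y).C) (hz : z ∈ e.target)
    (hF : ∀ w ∈ e.target, ∀ i, e.symm w ∈ S i ↔ xi c i w = 0) (hE : ∃ h, Eqs n S (e.symm z) h)
    (P : I → ℤ) (f : Y → ℂ) : PolAt n S P f (e.symm z) ↔ PolH c P (fun w => f (e.symm w)) z := by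
  have ho : ∀ w ∈ e.target, Off c w ↔ ∀ i, e.symm w ∉ S i := fun w hw =>
    forall_congr' fun i => (hF w hw i).not.symm
  constructor
  · rintro ⟨h, s, hE, hs⟩
    obtain ⟨u, hu, hg⟩ := BLW.unit hU he hz hF hE
    refine ⟨fun w => (∏ i, u i w ^ (-P) i) * s (e.symm w),
      (Eventually.and (BLW.hol_prod hu (-P)).1 (K1.holN_0 he hz (hs.mono fun _ h => h.1))).mono
        fun _ h => h.1.mul h.2, ?_⟩
    filter_upwards [BLW.ev hz hs, hg] with w a b k
    rw [a.2.2 ((ho w a.1).1 k)]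
    simp only [b, mul_zpow, Finset.prod_mul_distrib, xm, Pi.neg_apply]
    ring
  · rintro ⟨s, s1, s2⟩
    obtain ⟨h, hE⟩ := hE
    obtain ⟨u, hu, hg⟩ := BLW.unit hU he hz hF hE
    have u0 : ∀ᶠ w in 𝓝 z, ∀ i, u i w ≠ 0 := eventually_all.2 fun i =>
      (hu i).1.self_of_nhds.continuousAt.eventually_ne (hu i).2
    have t : Tendsto e (𝓝 (e.symm z)) (𝓝 z) := by
      simpa only [ContinuousAt, e.right_inv hz] using e.continuousAt (e.map_target hz)
    refine ⟨h, fun x => s (e x) * ∏ i, u i (e x) ^ P i, hE, ?_⟩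
    filter_upwards [t.eventually ((Eventually.and s1 (BLW.hol_prod hu P).1).and
      (s2.and (hg.and u0))), e.open_source.mem_nhds (e.map_target hz)] with x ⟨a, b, g, k⟩ hx
    refine ⟨(K1.hol_iff0 he hx).2 ((a.1.mul a.2).congr_of_eventuallyEq
      ((e.eventually_right_inverse (e.map_source hx)).mono fun w hw => by
        simp only [hw, Pi.mul_apply])), fun hS => ?_⟩
    rw [e.left_inv hx] at b g
    rw [b ((ho _ (e.map_source hx)).2 (by rwa [e.left_inv hx])), mul_assoc,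
      ← Finset.prod_mul_distrib, mul_comm, xm]
    refine congrArg _ (Finset.prod_congr rfl fun i _ => ?_)
    rw [g, mul_zpow, ← mul_assoc, ← zpow_add₀ (k i), add_neg_cancel, zpow_zero, one_mul,
      Pi.neg_apply]

end SEC

theorem bSEC (hU : EX.St_UNI) : St_SEC := by
  intro n Y I _ _ _ _ _ S D hF hE
  have h1 : ∀ x : Y, x ∈ off D ↔ ∀ i, x ∉ S i := fun x => by
    obtain ⟨d, hd⟩ := GLU.ex_ch D x
    refine (GLU.mem_off hd).trans (forall_congr' fun i => ?_)
    have := hF d _ (GLU.mem_B2 hd) i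
    rw [(D.e d).left_inv hd] at this
    exact this.not.symm
  have h2 : ∀ (P : I → ℤ) (f : Y → ℂ) (d : D.A), ∀ z ∈ B2 n,
      PolAt n S P f ((D.e d).symm z) ↔ PolH (D.c d) P (D.rd f d) z := fun P f d z hz =>
    SEC.one (Y := Y) hU (D.mem d) (BLW.tgt D d hz) (BLW.fit hF d) (hE _) P f
  have h3 : ∀ P f, Sec n S P f ↔ Sp D P f := fun P f =>
    ⟨fun h => ⟨fun d z hz => (h2 P f d z hz).1 (h.2 _), fun x hx => by
      obtain ⟨i, hi⟩ := not_forall.1 (mt (h1 x).2 hx)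
      exact h.1 i x (not_not.1 hi)⟩,
    fun h => ⟨fun i x hx => h.2 x fun k => (h1 x).1 k i hx, fun y => by
      obtain ⟨d, hd⟩ := GLU.ex_ch D y
      have := (h2 P f d _ (GLU.mem_B2 hd)).2 (h.1 d _ (GLU.mem_B2 hd))
      rwa [(D.e d).left_inv hd] at this⟩⟩
  refine ⟨h1, h2, h3, fun P => ?_⟩
  exact congrArg (fun T : Set (Y → ℂ) => Module.finrank ℂ (Submodule.span ℂ T))
    (Set.ext (h3 P) : {f | Sec n S P f} = {f | Sp D P f})

end Pool.Agent.Lib.NV2
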