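import Pool.Agent.Lib.NV2.Blue2

/-! Project NV2: row ZOX, weights on the nef part. -/

open scoped Classical Topology ContDiff ENNReal
open Set MeasureTheory Complex Metric Filter

noncomputable section

namespace Pool.Agent.Lib.NV2

open Pool.Agent.Lib.HS32 Pool.Agent.Lib.EX Pool.Agent.Lib.EXS Pool.Agent.Lib.ZL

namespace ZOX

variable {n : ℕ} {M : Mf n} {ι : Type} [Fintype ι] [DecidableEq ι] {D : Ad M ι}

theorem mer_ind {P : ι → ℤ} {U : M.X → ℂ} (h : Mer D P ((off D).indicator U)) : Mer D P U :=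
  fun d z hz => by
    obtain ⟨s, h1, h2⟩ := h d z hz
    refine ⟨s, h1, ?_⟩
    filter_upwards [h2, isOpen_ball.mem_nhds hz] with y hy hy' ho
    rw [← hy ho]
    exact (indicator_of_mem ((GLU.mem_off (GLU.mem_src d hy')).2 (by rwa [GLU.rinv d hy'])) U).symm

end ZOX

theorem bZOX (hPW : ZL.St_PW) (hMU : ZL.St_MU) (hUPB : ZL.St_UPB) (hWGT : ZL.St_WGT)
    (hPEAK : ZL.St_PEAK) (hZX : ZL.St_ZX) (hHLD : ZL.St_HLD) : St_ZOX := by
  intro n M _ ι _ _ D X K ν Q β s hB hN hν hZ hs hβ a₀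
  obtain ⟨-, -, hadd, -, hsm, hneg, hmono, -⟩ := hPW n M ι D
  obtain ⟨-, -, hI, hfin, -⟩ := hMU n M ι D X
  obtain ⟨L, -, -, hW⟩ := hWGT
  obtain ⟨-, hpa, hps, -, -, -, hcg, -⟩ := hW n M ι D
  have hc := K.c0
  set γ : ι → ℝ := fun i => ν i / K.c with hγ
  set S : ℝ := s + a₀ * K.c with hS
  have e1 : (fun i => ((Q i + a₀ * ν i : ℤ) : ℝ)) = β + S • γ := by
    funext i
    simp only [hγ, hS, Pi.add_apply, Pi.smul_apply, smul_eq_mul]
    push_cast
    rw [(hβ i).2.2]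
    field_simp
    ring
  have e2 : ∀ x, lw D (fun i => ((Q i + a₀ * ν i : ℤ) : ℝ) - X.o i) x ≤ S * lw D γ x := fun x => by
    rw [← hsm]
    refine hmono _ _ (fun i => ?_) x
    have h1 := congrFun e1 i
    have h2 := (hβ i).1
    simp only [Pi.add_apply] at h1
    linarith
  rcases (show 0 ≤ S by positivity).eq_or_lt with h0 | h0
  · have hJ := hfin (-β) fun i => by
      have := (hβ i).2.1
      simp only [Pi.neg_apply]
      linarith
    refine ⟨0, (X.I fun x => Real.exp (lw D (-β) x)).toReal, fun ε hε =>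
      ⟨fun _ => 0, fun _ _ _ _ => contDiffAt_const, hcg _ _ (hps ε _ hε.le X.αp)
        fun x _ => (zero_add _).symm, fun x _ => ?_, ?_⟩⟩
    · have := e2 x
      rw [← h0, zero_mul] at this
      linarith
    · rw [ENNReal.ofReal_toReal hJ]
      exact hI _ _ fun x _ => by rw [e1, ← h0, zero_smul, add_zero, sub_zero, hneg]
  · obtain ⟨c, X', hc0, hμ, hm, hl, -, he, hα, hG⟩ := hPEAK n M ι D X ν hB hN
    have ho : X'.o = X.o := funext fun i => by rw [Cx.o, Cx.o, hm, hl]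
    have hcr : (0 : ℝ) < c := Nat.cast_pos.2 hc0
    obtain ⟨a, ha⟩ := hZ c
    obtain ⟨C, ρ, hE, hA⟩ := hZX n M ι D X' ⟨K.π, K.c, hc, ho ▸ K.lo, ho ▸ K.hi⟩ ν
      (fun i => max (a i) (X'.e i)) hν (fun i => le_max_right _ _) hG fun j U hU => by
        have e3 : (fun i => j * K.π i + c * X.e i : ι → ℤ) = fun i => j * K.π i + X'.e i :=
          funext fun i => by rw [he, Nat.cast_mul]
        exact (hUPB n M ι D _).2.2.1 _ _ (fun i => add_le_add_right (le_max_left _ _) _)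
          (ZOX.mer_ind (ha j _ (e3 ▸ ((hUPB n M ι D _).1 U hU).2)).1)
    obtain ⟨A, ε₁, hε₁, hA'⟩ := hHLD n M ι D X' γ ρ hA β (fun i => ho ▸ (hβ i).2.1) S h0
    refine ⟨S * C, A, fun ε hε => ?_⟩
    have hp : 0 < min ε₁ (ε / (S * c)) := lt_min hε₁ (by positivity)
    obtain ⟨h1, h2, h3⟩ := hE _ hp
    have h4 : 0 ≤ ε - S * c * min ε₁ (ε / (S * c)) :=
      sub_nonneg.2 ((le_div_iff₀' (by positivity)).1 (min_le_right _ _))
    have h5 := hA' _ hp (min_le_left _ _)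
    rw [Cx.I, hμ] at h5
    refine ⟨fun x => S * ρ (min ε₁ (ε / (S * c))) x,
      fun d z hz hz' => contDiffAt_const.mul (h1 d z hz hz'),
      hcg _ _ (hpa _ _ (hps _ _ h0.le h2) (hps _ _ h4 X.αp)) fun x _ => by rw [hα]; ring,
      fun x hx => ?_, (hI _ _ fun x _ => le_of_eq ?_).trans h5⟩
    · have h6 := mul_le_mul_of_nonneg_left (h3 x hx) h0.le
      have h7 := e2 x
      rw [mul_sub] at h6
      linarith
    · rw [e1, hadd, hsm]
      congr 1
      ring

end Pool.Agent.Lib.NV2
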