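import Pool.Agent.Lib.NV2.Core
import Pool.Agent.Lib.NV2.B_CTX
import Pool.Agent.Lib.NV2.B_KD
import Pool.Agent.Lib.NV2.B_MV
import Pool.Agent.Lib.NV2.B_SEC
import Pool.Agent.Lib.NV2.B_ZOX
import Pool.Agent.Lib.ZL.All1
import Pool.Agent.Lib.ZL.B_HLD
import Pool.Agent.Lib.ZX.Core
import Pool.Agent.Lib.EX.B_MOD

/-! Project NV2: the outer layer without hypotheses. -/

namespace Pool.Agent.Lib.NV2

theorem st_SEC : St_SEC := bSEC EX.bUNI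

theorem st_KD : St_KD := bKD ZL.bPW

theorem st_MV : St_MV := bMV st_SEC EX.bMOD

theorem st_ZOX : St_ZOX := bZOX ZL.bPW ZL.st_MU ZL.st_UPB ZL.st_WGT ZL.st_PEAK ZX.st_ZX
  (ZL.bHLD ZL.bPW ZL.st_MU)

theorem st_CTX : St_CTX :=
  bCTX st_SEC st_KD st_ZOX ZL.bNFB ZL.st_CX ZL.st_PEAK EX.bUNI (EX.bADA EX.bUNI)

/-- Twisted multivector fields. -/
theorem st_T : St_T := bT st_CTX st_SEC st_MV st_NV2

end Pool.Agent.Lib.NV2
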