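import Pool.Agent.Lib.NV2.Ex

/-! Project NV2: row BES. -/

open scoped Classical ComplexConjugate
open Complex

noncomputable section

namespace Pool.Agent.Lib.NV2

open Pool.Agent.Lib.SV (nsq)

namespace BES

variable {r : ℕ}

theorem ip_self (y : Fin r → ℂ) : ip y y = (nsq y : ℝ) := by
  simp [ip, nsq, mul_conj]

theorem ip_sub (y z w : Fin r → ℂ) (c : ℂ) : ip (y - c • z) w = ip y w - c * ip z w := by
  simp [ip, sub_mul, Finset.sum_sub_distrib, Finset.mul_sum, mul_assoc]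

theorem ip_conj (y w : Fin r → ℂ) : ip y w = conj (ip w y) := by
  simp [ip, mul_comm]

theorem pos {t : Fin r → ℂ} (h : t ≠ 0) : 0 < nsq t := by
  obtain ⟨i, hi⟩ := Function.ne_iff.1 h
  exact Finset.sum_pos' (fun j _ => normSq_nonneg _) ⟨i, Finset.mem_univ _, normSq_pos.2 hi⟩

theorem ip_prp {t : Fin r → ℂ} (h : t ≠ 0) (u : Fin r → ℂ) : ip (prp t u) t = 0 := by
  have h1 : ((nsq t : ℝ) : ℂ) ≠ 0 := ofReal_ne_zero.2 (pos h).ne'
  rw [prp, ip_sub, ip_self, div_mul_cancel₀ _ h1, sub_self]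

theorem nsq_prp {t : Fin r → ℂ} (h : t ≠ 0) (y : Fin r → ℂ) :
    nsq (prp t y) = nsq y - normSq (ip y t) / nsq t := by
  have h1 : ((nsq t : ℝ) : ℂ) ≠ 0 := ofReal_ne_zero.2 (pos h).ne'
  have h2 : ip (prp t y) (prp t y) = ip y (prp t y) := by
    have h3 : ip t (prp t y) = 0 := by rw [ip_conj, ip_prp h, map_zero]
    conv_lhs => rw [prp, ip_sub, ← prp, h3, mul_zero, sub_zero]
  apply ofReal_injective
  rw [← ip_self, h2, ip_conj, prp, ip_sub, ip_self, ip_conj t y]
  push_cast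
  rw [← mul_conj]
  simp only [map_sub, map_mul, map_div₀, conj_ofReal, conj_conj]
  ring

end BES

open BES in
theorem bBES : St_BES := by
  intro r T t u y a ht hT ha
  refine ⟨?_, fun hu => ?_⟩
  · have := ha _ (T.smul_mem (ip y t / nsq t) hT)
    rw [← prp, nsq_prp ht] at this
    linarith
  · by_cases hw : prp t u = 0
    · simp [hw, ip, nsq]
    have h1 : ip (prp t y) (prp t u) = ip y (prp t u) := by
      have h3 : ip t (prp t u) = 0 := by rw [ip_conj, ip_prp ht, map_zero]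
      rw [prp, ip_sub, h3, mul_zero, sub_zero]
    have h2 : prp t u ∈ T := T.sub_mem hu (T.smul_mem _ hT)
    have h4 := ha _ (T.add_mem (T.smul_mem (ip y t / nsq t) hT)
      (T.smul_mem (ip (prp t y) (prp t u) / nsq (prp t u)) h2))
    rw [← sub_sub, ← prp, ← prp, nsq_prp hw, nsq_prp ht, h1] at h4
    rw [← div_le_iff₀ (pos hw)]
    linarith

end Pool.Agent.Lib.NV2
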