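import Pool.Agent.Lib.NV2.Ex

/-! Project NV2: the canonical anticommutation relations. -/

open scoped Classical ComplexConjugate
open Complex

noncomputable section

namespace Pool.Agent.Lib.NV2

open Pool.Agent.Lib.SV (nsq)

namespace CAR

variable {r : ℕ}

/-- The sign of a transposition of two insertions. -/
def ep (j i : Fin r) : ℂ := if j < i then -1 else 1

/-- Creation. -/
def cr (i : Fin r) (G : Ex r) : Ex r := fun I => if i ∈ I then sg i I * G (I.erase i) else 0

/-- Annihilation. -/
def an (i : Fin r) (G : Ex r) : Ex r := fun J => col G J i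

theorem ep_sq (j i : Fin r) : ep j i * ep j i = 1 := by
  unfold ep; split_ifs <;> norm_num

theorem ep_self (i : Fin r) : ep i i = 1 := by simp [ep]

theorem ep_anti {i j : Fin r} (h : i ≠ j) : ep i j = -ep j i := by
  unfold ep
  rcases lt_or_gt_of_ne h with h' | h'
  · simp [h', not_lt.mpr h'.le]
  · simp [h', not_lt.mpr h'.le]

theorem sg_sq (i : Fin r) (I : Finset (Fin r)) : sg i I * sg i I = 1 := by
  unfold sg; rw [← mul_pow]; norm_num

theorem sg_conj (i : Fin r) (I : Finset (Fin r)) : conj (sg i I) = sg i I := by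
  unfold sg; simp

theorem sg_nsq (i : Fin r) (I : Finset (Fin r)) : normSq (sg i I) = 1 := by
  unfold sg; simp

theorem sg_ins (i : Fin r) {j : Fin r} {J : Finset (Fin r)} (h : j ∉ J) :
    sg i (insert j J) = sg i J * ep j i := by
  unfold sg ep
  rw [Finset.filter_insert]
  split_ifs with h'
  · rw [Finset.card_insert_of_notMem fun h'' => h (Finset.mem_filter.mp h'').1, pow_succ]
  · rw [mul_one]

theorem sg_er (i : Fin r) {j : Fin r} {I : Finset (Fin r)} (h : j ∈ I) :
    sg i (I.erase j) = sg i I * ep j i := by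
  have := sg_ins i (Finset.notMem_erase j I)
  rw [Finset.insert_erase h] at this
  rw [this, mul_assoc, ep_sq, mul_one]

theorem wg_eq (t : Fin r → ℂ) (G : Ex r) : wg t G = ∑ i, t i • cr i G := by
  funext I
  simp only [wg, cr, Finset.sum_apply, Pi.smul_apply, smul_eq_mul, mul_ite, mul_zero]
  rw [← Finset.sum_filter, Finset.filter_mem_eq_inter, Finset.univ_inter]
  exact Finset.sum_congr rfl fun i _ => by ring

theorem cn_eq (ξ : Fin r → ℂ) (G : Ex r) : cn ξ G = ∑ i, ξ i • an i G := by
  funext I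
  simp only [cn, an, Finset.sum_apply, Pi.smul_apply, smul_eq_mul]

theorem cr_add (i : Fin r) (G G' : Ex r) : cr i (G + G') = cr i G + cr i G' := by
  funext I; simp only [cr, Pi.add_apply]; split_ifs <;> ring

theorem cr_smul (i : Fin r) (c : ℂ) (G : Ex r) : cr i (c • G) = c • cr i G := by
  funext I; simp only [cr, Pi.smul_apply, smul_eq_mul]; split_ifs <;> ring

theorem an_add (i : Fin r) (G G' : Ex r) : an i (G + G') = an i G + an i G' := by
  funext I; simp only [an, col, Pi.add_apply]; split_ifs <;> ring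

theorem an_smul (i : Fin r) (c : ℂ) (G : Ex r) : an i (c • G) = c • an i G := by
  funext I; simp only [an, col, Pi.smul_apply, smul_eq_mul]; split_ifs <;> ring

/-- Creation as a linear map. -/
def crL (i : Fin r) : Ex r →ₗ[ℂ] Ex r := ⟨⟨cr i, cr_add i⟩, cr_smul i⟩

/-- Annihilation as a linear map. -/
def anL (i : Fin r) : Ex r →ₗ[ℂ] Ex r := ⟨⟨an i, an_add i⟩, an_smul i⟩

theorem cr_sum (i : Fin r) (t : Fin r → ℂ) (F : Fin r → Ex r) :
    cr i (∑ j, t j • F j) = ∑ j, t j • cr i (F j) := by
  show crL i _ = _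
  rw [map_sum]
  exact Finset.sum_congr rfl fun j _ => cr_smul i _ _

theorem an_sum (i : Fin r) (t : Fin r → ℂ) (F : Fin r → Ex r) :
    an i (∑ j, t j • F j) = ∑ j, t j • an i (F j) := by
  show anL i _ = _
  rw [map_sum]
  exact Finset.sum_congr rfl fun j _ => an_smul i _ _

theorem cr_cr (i j : Fin r) (G : Ex r) : cr i (cr j G) = -cr j (cr i G) := by
  funext I
  by_cases h : i = j
  · subst h; simp [cr]
  · have h' := Ne.symm h
    by_cases hi : i ∈ I <;> by_cases hj : j ∈ I <;> simp [cr, hi, hj, h, h']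
    rw [sg_er j hi, sg_er i hj, Finset.erase_right_comm, ep_anti h]
    ring

theorem an_an (i j : Fin r) (G : Ex r) : an i (an j G) = -an j (an i G) := by
  funext I
  by_cases h : i = j
  · subst h; simp [an, col]
  · have h' := Ne.symm h
    by_cases hi : i ∈ I <;> by_cases hj : j ∈ I <;> simp [an, col, hi, hj, h, h']
    rw [sg_ins j hi, sg_ins i hj, Finset.insert_comm, ep_anti h]
    ring

theorem an_cr (i j : Fin r) (G : Ex r) :
    an i (cr j G) + cr j (an i G) = if i = j then G else 0 := by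
  funext I
  by_cases h : i = j
  · subst h
    by_cases hi : i ∈ I
    · simp [an, col, cr, hi, sg_er i hi, ep_self, ← mul_assoc, sg_sq]
    · simp [an, col, cr, hi, sg_ins i hi, ep_self, ← mul_assoc, sg_sq]
  · have h' := Ne.symm h
    by_cases hi : i ∈ I <;> by_cases hj : j ∈ I <;> simp [an, col, cr, hi, hj, h, h']
    rw [sg_ins j hi, sg_er i hj, Finset.erase_insert_of_ne h, ep_anti h]
    ring

/-- The exchange of a set and the set with `i` inserted or removed. -/
def tg (i : Fin r) (J : Finset (Fin r)) : Finset (Fin r) :=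
  if i ∈ J then J.erase i else insert i J

theorem tg_inv (i : Fin r) : Function.Involutive (tg i) := by
  intro J
  by_cases h : i ∈ J <;> simp [tg, h]

theorem sum_tg {A : Type} [AddCommMonoid A] (i : Fin r) (f : Finset (Fin r) → A) :
    ∑ J, f (tg i J) = ∑ J, f J := Equiv.sum_comp (tg_inv i).toPerm f

theorem ip_cr (i : Fin r) (G η : Ex r) : ip (cr i G) η = ip G (an i η) := by
  unfold ip
  rw [← sum_tg i]
  refine Finset.sum_congr rfl fun J _ => ?_
  by_cases h : i ∈ J
  · simp [cr, an, col, tg, h]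
  · simp [cr, an, col, tg, h, sg_ins i h, ep_self, sg_conj]
    ring

theorem ip_suml (t : Fin r → ℂ) (F : Fin r → Ex r) (η : Ex r) :
    ip (∑ j, t j • F j) η = ∑ j, t j * ip (F j) η := by
  simp only [ip, Finset.sum_apply, Pi.smul_apply, smul_eq_mul, Finset.sum_mul, Finset.mul_sum]
  rw [Finset.sum_comm]
  exact Finset.sum_congr rfl fun _ _ => Finset.sum_congr rfl fun _ _ => by ring

theorem ip_sumr (t : Fin r → ℂ) (F : Fin r → Ex r) (η : Ex r) :
    ip η (∑ j, t j • F j) = ∑ j, conj (t j) * ip η (F j) := by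
  simp only [ip, Finset.sum_apply, Pi.smul_apply, smul_eq_mul, map_sum, map_mul, Finset.mul_sum]
  rw [Finset.sum_comm]
  exact Finset.sum_congr rfl fun _ _ => Finset.sum_congr rfl fun _ _ => by ring

theorem ip_self (G : Ex r) : ip G G = (nsq G : ℝ) := by
  simp [ip, nsq, mul_conj]

theorem ip_conj (G η : Ex r) : conj (ip G η) = ip η G := by
  simp only [ip, map_sum, map_mul, conj_conj]
  exact Finset.sum_congr rfl fun _ _ => mul_comm _ _

theorem wg_wg (s t : Fin r → ℂ) (G : Ex r) : wg s (wg t G) = -wg t (wg s G) := by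
  simp only [wg_eq, cr_sum, Finset.smul_sum, ← Finset.sum_neg_distrib]
  rw [Finset.sum_comm]
  refine Finset.sum_congr rfl fun i _ => Finset.sum_congr rfl fun j _ => ?_
  rw [cr_cr j i, smul_comm]
  simp

theorem cn_cn (s t : Fin r → ℂ) (G : Ex r) : cn s (cn t G) = -cn t (cn s G) := by
  simp only [cn_eq, an_sum, Finset.smul_sum, ← Finset.sum_neg_distrib]
  rw [Finset.sum_comm]
  refine Finset.sum_congr rfl fun i _ => Finset.sum_congr rfl fun j _ => ?_
  rw [an_an j i, smul_comm]
  simp

theorem cn_wg (ξ t : Fin r → ℂ) (G : Ex r) :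
    cn ξ (wg t G) + wg t (cn ξ G) = (∑ i, ξ i * t i) • G := by
  simp only [wg_eq, cn_eq, cr_sum, an_sum, Finset.smul_sum]
  rw [Finset.sum_comm (f := fun i j => t i • ξ j • cr i (an j G)), ← Finset.sum_add_distrib,
    Finset.sum_smul]
  refine Finset.sum_congr rfl fun i _ => ?_
  rw [← Finset.sum_add_distrib]
  have : ∀ j, ξ i • t j • an i (cr j G) + t j • ξ i • cr j (an i G) =
      if i = j then (ξ i * t j) • G else 0 := fun j => by
    rw [smul_comm (t j), ← smul_add, ← smul_add, an_cr]
    split_ifs <;> simp [mul_smul]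
  simp [this]

theorem ip_wg (t : Fin r → ℂ) (G η : Ex r) : ip (wg t G) η = ip G (cn (star t) η) := by
  rw [wg_eq, cn_eq, ip_suml, ip_sumr]
  exact Finset.sum_congr rfl fun i _ => by simp [ip_cr]

theorem col_sum (G : Ex r) : ∑ J, nsq (col G J) = ∑ I, (I.card : ℝ) * normSq (G I) := by
  have h1 : ∀ i, ∑ J, normSq (col G J i) = ∑ I, if i ∈ I then normSq (G I) else 0 := by
    intro i
    rw [← sum_tg i]
    refine Finset.sum_congr rfl fun J _ => ?_
    by_cases h : i ∈ J <;> simp [col, tg, h, sg_nsq]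
  simp only [nsq]
  rw [Finset.sum_comm, Finset.sum_congr rfl fun i _ => h1 i, Finset.sum_comm]
  refine Finset.sum_congr rfl fun I _ => ?_
  rw [← Finset.sum_filter, Finset.filter_mem_eq_inter, Finset.univ_inter, Finset.sum_const,
    nsmul_eq_mul]

theorem nsq_wg (t : Fin r → ℂ) (G : Ex r) :
    nsq (wg t G) + nsq (cn (star t) G) = nsq t * nsq G := by
  have h1 : ((nsq (wg t G) : ℝ) : ℂ) = ip (cn (star t) (wg t G)) G := by
    rw [← ip_conj, ← ip_wg, ip_self, conj_ofReal]
  have h2 : ((nsq (cn (star t) G) : ℝ) : ℂ) = ip (wg t (cn (star t) G)) G := by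
    rw [ip_wg, ip_self]
  have h3 : ip (cn (star t) (wg t G)) G + ip (wg t (cn (star t) G)) G =
      ip (cn (star t) (wg t G) + wg t (cn (star t) G)) G := by
    simp only [ip, Pi.add_apply, add_mul, Finset.sum_add_distrib]
  have h4 : ∀ c : ℂ, ip (c • G) G = c * ip G G := fun c => by
    simp only [ip, Pi.smul_apply, smul_eq_mul, Finset.mul_sum, mul_assoc]
  have h5 : ∑ i, star t i * t i = ((nsq t : ℝ) : ℂ) := by
    simp [nsq, normSq_eq_conj_mul_self]
  apply ofReal_injective
  rw [ofReal_add, h1, h2, h3, cn_wg, h4, h5, ip_self, ofReal_mul]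

theorem col_hm {k : ℕ} {G : Ex r} (h : Hm (k + 1) G) (J : Finset (Fin r)) (hJ : J.card ≠ k) :
    col G J = 0 := by
  funext i
  by_cases hi : i ∈ J
  · simp [col, hi]
  · have := h (insert i J) (by rw [Finset.card_insert_of_notMem hi]; omega)
    simp [col, hi, this]

end CAR

open CAR in
theorem bCAR : St_CAR := by
  intro r
  refine ⟨wg_wg, fun t G => ?_, cn_cn, cn_wg, ip_wg, fun t G G' c => ⟨?_, ?_, ?_, ?_, ?_, ?_, ?_⟩,
    fun s t G => ⟨?_, ?_⟩, fun k t G => ⟨fun h I hI => ?_, fun h J hJ => ?_, fun h => ?_,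
    col_hm, fun h => ?_⟩, nsq_wg, fun G => ?_, fun G G' c J => ⟨?_, ?_⟩⟩
  · exact self_eq_neg.mp (wg_wg t t G)
  · funext I; simp only [wg, Pi.add_apply, mul_add, Finset.sum_add_distrib]
  · funext I; simp only [wg, Pi.sub_apply, mul_sub, Finset.sum_sub_distrib]
  · simp only [wg_eq, cr_smul, Finset.smul_sum, smul_comm c]
  · simp only [wg_eq, Finset.smul_sum, Pi.smul_apply, smul_assoc]
  · simp only [cn_eq, an_add, smul_add, Finset.sum_add_distrib]
  · simp only [cn_eq, an_smul, Finset.smul_sum, smul_comm c]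
  · simp only [cn_eq, Finset.smul_sum, Pi.smul_apply, smul_assoc]
  · simp only [wg_eq, Pi.add_apply, add_smul, Finset.sum_add_distrib]
  · simp only [cn_eq, Pi.add_apply, add_smul, Finset.sum_add_distrib]
  · refine Finset.sum_eq_zero fun i hi => ?_
    have := Finset.card_erase_add_one hi
    rw [h (I.erase i) (by omega), mul_zero]
  · simp [cn, col_hm h J hJ]
  · funext J
    refine Finset.sum_eq_zero fun i _ => ?_
    by_cases hi : i ∈ J
    · simp [col, hi]
    · have := h (insert i J) (by rw [Finset.card_insert_of_notMem hi]; omega)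
      simp [col, hi, this]
  · rw [col_sum, nsq, Finset.mul_sum]
    refine Finset.sum_congr rfl fun I _ => ?_
    by_cases hI : I.card = k
    · rw [hI]
    · simp [h I hI]
  · rw [col_sum, nsq, Finset.mul_sum]
    refine Finset.sum_le_sum fun I _ => mul_le_mul_of_nonneg_right ?_ (normSq_nonneg _)
    exact_mod_cast (Finset.card_le_univ I).trans_eq (Fintype.card_fin r)
  · funext i; simp only [col, Pi.sub_apply]; split_ifs <;> ring
  · funext i; simp only [col, Pi.smul_apply, smul_eq_mul]; split_ifs <;> ring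

end Pool.Agent.Lib.NV2
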