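import Pool.Agent.Lib.NV2.Blue

/-! Project NV2, row CHN: the spaces of chains and their norms. -/

open scoped Classical Topology ContDiff ENNReal
open Set MeasureTheory Complex Metric Filter

noncomputable section

namespace Pool.Agent.Lib.NV2.CHN

open Pool.Agent.Lib.SV (E nsq)
open Pool.Agent.Lib.HS32 Pool.Agent.Lib.EX Pool.Agent.Lib.EXS Pool.Agent.Lib.ZL

variable {n : ℕ} {M : Mf n} {ι : Type} [Fintype ι] [DecidableEq ι] {D : Ad M ι}

theorem nsq_nn {κ : Type} [Fintype κ] (v : κ → ℂ) : 0 ≤ nsq v :=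
  Finset.sum_nonneg fun _ _ => normSq_nonneg _

theorem nsq_zero {κ : Type} [Fintype κ] {v : κ → ℂ} (h : nsq v ≤ 0) (i : κ) : v i = 0 :=
  normSq_eq_zero.1 (le_antisymm ((Finset.single_le_sum (f := fun j => normSq (v j))
    (fun _ _ => normSq_nonneg _) (Finset.mem_univ i)).trans h) (normSq_nonneg _))

omit [DecidableEq ι] in
theorem sp_mul {P Q : ι → ℤ} {F G : M.X → ℂ} (hF : Sp D P F) (hG : Sp D Q G) :
    Sp D (P + Q) (F * G) := by
  refine ⟨fun d z hz => ?_, fun x hx => by rw [Pi.mul_apply, hF.2 x hx, zero_mul]⟩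
  obtain ⟨s, h1, h2⟩ := hF.1 d z hz
  obtain ⟨t, k1, k2⟩ := hG.1 d z hz
  refine ⟨fun y => s y * t y, (h1.and k1).mono fun y hy => hy.1.mul hy.2, ?_⟩
  filter_upwards [h2, k2] with y a b ho
  have e : xm (D.c d) (-(P + Q)) y = xm (D.c d) (-P) y * xm (D.c d) (-Q) y := by
    rw [xm, xm, xm, ← Finset.prod_mul_distrib]
    refine Finset.prod_congr rfl fun i _ => ?_
    rw [← zpow_add₀ (ho i), neg_add]
    rfl
  show D.rd F d y * D.rd G d y = _
  rw [a ho, b ho, e]
  ring

/-- A finite family of sections is bounded by the model function. -/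
theorem fam_bd [M.Cpt] (hU : ZL.St_UPB) {κ : Type} [Fintype κ] {P : ι → ℤ} {G : κ → M.X → ℂ}
    (hG : ∀ a, Sp D P (G a)) : ∃ C, 0 < C ∧ ∀ x ∈ off D,
      nsq (G · x) ≤ C * Real.exp (-lw D (fun i => P i) x) := by
  choose C hC using fun a => (hU n M ι D P).2.2.2.2.1 (G a) (hG a).1
  refine ⟨(∑ a, |C a|) + 1, by positivity, fun x hx => ?_⟩
  have h0 := Real.exp_pos (-lw D (fun i => P i) x)
  calc nsq (G · x) ≤ ∑ a, |C a| * Real.exp (-lw D (fun i => P i) x) :=
        Finset.sum_le_sum fun a _ => (hC a x hx).trans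
          (mul_le_mul_of_nonneg_right (le_abs_self _) h0.le)
    _ = (∑ a, |C a|) * Real.exp (-lw D (fun i => P i) x) := (Finset.sum_mul _ _ _).symm
    _ ≤ _ := mul_le_mul_of_nonneg_right (le_add_of_nonneg_right zero_le_one) h0.le

theorem ae_zero [M.Cpt] (hP : ZL.St_PW) (hM : ZL.St_MU) (hU : ZL.St_UPB) (X : Cx D) {Q : ι → ℤ}
    {F : M.X → ℂ} (hF : Sp D Q F) (h0 : ∀ᵐ x ∂X.μ, F x = 0) : F = 0 := by
  funext x
  by_cases hx : x ∈ off D
  swap
  · exact hF.2 x hx
  by_contra hne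
  obtain ⟨d, hd, hn⟩ := (hP n M ι D).2.1 x
  have hz : D.e d x ∈ B2 n := mem_ball_zero_iff.2 (by linarith)
  have hh : HolN (D.rd F d) (D.e d x) := ((hU n M ι D Q).1 F hF.1).1 d _ hz (hx d hd)
  have hc : ContinuousAt (fun z => normSq (D.rd F d z)) (D.e d x) :=
    continuous_normSq.continuousAt.comp hh.self_of_nhds.continuousAt
  have hp : 0 < normSq (F x) := normSq_pos.2 hne
  have h1 : ∀ᶠ z in 𝓝 (D.e d x), normSq (F x) / 2 < normSq (D.rd F d z) :=
    hc.eventually (lt_mem_nhds (by beta_reduce; rw [GLU.rd_e F hd]; linarith))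
  have h2 : closedBall (0 : E n) (3 / 2) ∈ 𝓝 (D.e d x) :=
    closedBall_mem_nhds_of_mem (mem_ball_zero_iff.2 (by linarith))
  obtain ⟨ε, hε, hb⟩ := Metric.mem_nhds_iff.1 (inter_mem h1 h2)
  obtain ⟨C, hC⟩ := (hM n M ι D X).2.2.2.2 (3 / 2) (by norm_num) 0
  have h3 := hC 0 (fun y => normSq (F y)) d (fun i => by simp)
  have h4 : X.I (fun y => normSq (F y) * Real.exp (lw D (0 - X.o) y)) = 0 := by
    rw [Cx.I, ← lintegral_zero (μ := X.μ)]
    refine lintegral_congr_ae (h0.mono fun y hy => ?_)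
    simp [hy]
  rw [h4, mul_zero] at h3
  have h5 : ∫⁻ _ in ball (D.e d x) ε, ENNReal.ofReal (normSq (F x) / 2) ≤ 0 := by
    refine le_trans (setLIntegral_mono' measurableSet_ball fun z hz' => ?_)
      ((lintegral_mono_set fun z hz' => (hb hz').2).trans h3)
    refine ENNReal.ofReal_le_ofReal ?_
    have e : xr (D.c d) (0 : ι → ℝ) z = 1 := by simp [xr]
    rw [e, mul_one]
    exact (hb hz').1.le
  rw [setLIntegral_const, nonpos_iff_eq_zero, mul_eq_zero] at h5
  rcases h5 with h | h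
  · rw [ENNReal.ofReal_eq_zero] at h
    linarith
  · exact (measure_ball_pos volume _ hε).ne' h

end Pool.Agent.Lib.NV2.CHN

namespace Pool.Agent.Lib.NV2

open Pool.Agent.Lib.SV (E nsq)
open Pool.Agent.Lib.HS32 Pool.Agent.Lib.EX Pool.Agent.Lib.EXS Pool.Agent.Lib.ZL CHN

theorem bCHN (hPW : ZL.St_PW) (hMU : ZL.St_MU) (hUPB : ZL.St_UPB) (hWGT : ZL.St_WGT)
    (hFIN : ZL.St_FIN) (hCAR : St_CAR) : St_CHN := by
  intro n M _ ι _ _ D X r
  choose V hV hmem using hFIN n M ι D
  have hsp : ∀ Q, Submodule.span ℂ {F | Sp D Q F} = V Q := fun Q => by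
    have e : {F | Sp D Q F} = (V Q : Set (M.X → ℂ)) := Set.ext fun F => (hmem Q F).symm
    rw [e, Submodule.span_eq]
  obtain ⟨-, c2, -, -, -, c6, -, c8, -⟩ := hCAR r
  obtain ⟨-, -, p3, -, p5, -, -, -, -, p10, p11⟩ := hPW n M ι D
  obtain ⟨m1, m2, m3, -, -⟩ := hMU n M ι D X
  have hho : ∀ Q F, Sp D Q F → HoO D F := fun Q F h => ((hUPB n M ι D Q).1 F h.1).1
  have hco : ∀ Q F, Sp D Q F → ContinuousOn F (off D) := fun Q F h =>
    p10 ℂ F (p11 F (hho Q F h))
  refine ⟨fun Q F => by rw [hsp, hmem], fun Q => by rw [hsp]; exact hV Q,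
    fun P Q F G => sp_mul, fun k Q => ?_, fun k P Q t H ht hH => ⟨⟨fun I => ?_, fun I hI => ?_⟩,
      fun x => c2 _ _⟩, fun t => ?_,
    fun Q F h => ⟨hco Q F h, m2 ℂ F (hco Q F h), ae_zero hPW hMU hUPB X h⟩, fun P t ht => ?_⟩
  · have := hV Q
    let W : Submodule ℂ (Finset (Fin r) → M.X → ℂ) :=
      Submodule.pi univ fun I => if I.card = k then V Q else ⊥
    refine ⟨W, ?_, fun η => ?_⟩
    · refine Module.Finite.iff_fg.2 (Submodule.fg_pi fun I => ?_)
      split_ifs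
      · exact Module.Finite.iff_fg.1 (hV Q)
      · exact Submodule.fg_bot
    · rw [Submodule.mem_pi]
      constructor
      · intro h
        refine ⟨fun I => (hmem Q _).1 ?_, fun I hI => ?_⟩
        · have h1 := h I (mem_univ I)
          split_ifs at h1
          · exact h1
          · rw [(Submodule.mem_bot ℂ).1 h1]
            exact zero_mem _
        · have h1 := h I (mem_univ I)
          rw [if_neg hI] at h1
          exact (Submodule.mem_bot ℂ).1 h1
      · intro h I _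
        split_ifs with hI
        · exact (hmem Q _).2 (h.1 I)
        · exact (Submodule.mem_bot ℂ).2 (h.2 I hI)
  · have e : Wg t H I = ∑ i ∈ I, sg i I • (t i * H (I.erase i)) := by
      funext x
      rw [Finset.sum_apply]
      exact Finset.sum_congr rfl fun i _ => mul_assoc _ _ _
    rw [e, ← hmem]
    exact Submodule.sum_mem _ fun i _ => Submodule.smul_mem _ _
      ((hmem _ _).2 (sp_mul (ht i) (hH.1 _)))
  · funext x
    exact (c8 k (t · x) (H · x)).1 (fun J hJ => congrFun (hH.2 J hJ) x) I hI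
  · exact ⟨⟨⟨Wg t, fun H H' => funext fun I => funext fun x =>
      congrFun (c6 (t · x) (H · x) (H' · x) 0).1 I⟩, fun c H => funext fun I => funext fun x =>
      congrFun (c6 (t · x) (H · x) (H · x) c).2.2.1 I⟩, fun _ => rfl⟩
  obtain ⟨ht, C₁, h1⟩ := ht
  have hpos : ∀ x ∈ off D, 0 < nsq (t · x) := fun x hx => by
    refine lt_of_le_of_ne (nsq_nn _) fun e => ?_
    have h2 := h1 x hx
    rw [← e, mul_zero] at h2
    exact absurd h2 (not_le.2 (Real.exp_pos _))
  obtain ⟨L, -, -, hW⟩ := hWGT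
  have hps : Psh D (lg t) := (hW n M ι D).2.2.2.2.2.1 r t (fun a => hho P _ (ht a)) hpos
  obtain ⟨C₂, hC₂, h2⟩ := fam_bd hUPB ht
  have hb : ∃ C, ∀ x ∈ off D, |lg t x + lw D (fun i => P i) x| ≤ C := by
    refine ⟨|Real.log C₁| + |Real.log C₂|, fun x hx => abs_le.2 ⟨?_, ?_⟩⟩
    · have hC₁ : 0 < C₁ :=
        (pos_iff_pos_of_mul_pos ((Real.exp_pos _).trans_le (h1 x hx))).2 (hpos x hx)
      have h3 := Real.log_le_log (Real.exp_pos _) (h1 x hx)
      rw [Real.log_exp, Real.log_mul hC₁.ne' (hpos x hx).ne'] at h3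
      have h4 := le_abs_self (Real.log C₁)
      have h5 := abs_nonneg (Real.log C₂)
      unfold lg
      linarith
    · have h3 := Real.log_le_log (hpos x hx) (h2 x hx)
      rw [Real.log_mul hC₂.ne' (Real.exp_pos _).ne', Real.log_exp] at h3
      have h4 := le_abs_self (Real.log C₂)
      have h5 := abs_nonneg (Real.log C₁)
      unfold lg
      linarith
  refine ⟨hpos, hps, hb, fun k Q C A η hη => ?_⟩
  obtain ⟨C₀, hb⟩ := hb
  obtain ⟨B, hB, h3⟩ := fam_bd hUPB hη.1
  refine ⟨B * Real.exp (k * C₀) * A, fun β ε ρ hρ => ?_⟩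
  have hwc : ContinuousOn (wt t ρ k) (off D) :=
    Real.continuous_exp.comp_continuousOn
      ((p10 ℝ ρ hρ.1).add (continuousOn_const.mul (p10 ℝ _ hps.1))).neg
  refine ⟨m2 ℝ _ hwc, ?_, fun h0 => ?_⟩
  · have h4 : Nm X t ρ k η ≤ X.I fun x =>
        B * Real.exp (k * C₀) * Real.exp (-lw D (fun i => Q i) x - ρ x) := by
      refine m3 _ _ fun x hx => ?_
      have e : (fun i => ((Q i + k * P i : ℤ) : ℝ)) =
          (fun i => (Q i : ℝ)) + (k : ℝ) • fun i => (P i : ℝ) := by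
        funext i
        simp
      have h5 := h3 x hx
      rw [e, p3, p5] at h5
      refine (mul_le_mul_of_nonneg_right h5 (Real.exp_pos _).le).trans ?_
      rw [mul_assoc, mul_assoc, ← Real.exp_add, ← Real.exp_add]
      refine mul_le_mul_of_nonneg_left (Real.exp_le_exp.2 ?_) hB.le
      have h6 := mul_le_mul_of_nonneg_left (abs_le.1 (hb x hx)).1 (Nat.cast_nonneg (α := ℝ) k)
      linarith
    refine h4.trans ?_
    have h7 : 0 ≤ B * Real.exp (k * C₀) := by positivity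
    simp only [Cx.I, ENNReal.ofReal_mul h7]
    rw [lintegral_const_mul' _ _ ENNReal.ofReal_ne_top]
    exact mul_le_mul_right hρ.2.2.2 _
  · have hm : AEMeasurable (fun x => nsq (η · x) * wt t ρ k x) X.μ :=
      m2 ℝ _ ((continuousOn_finsetSum _ fun I _ =>
        continuous_normSq.comp_continuousOn (hco _ _ (hη.1 I))).mul hwc)
    have h4 := (lintegral_eq_zero_iff' hm.ennreal_ofReal).1 h0
    funext I
    refine ae_zero hPW hMU hUPB X (hη.1 I) (h4.mono fun x hx => nsq_zero (v := (η · x)) ?_ I)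
    exact nonpos_of_mul_nonpos_left (ENNReal.ofReal_eq_zero.1 hx) (Real.exp_pos _)

end Pool.Agent.Lib.NV2
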