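import Pool.Agent.Lib.NV2.Ex
import Pool.Agent.Lib.KOS29.Num

/-! Project NV2: row EUL. -/

open scoped Classical

noncomputable section

namespace Pool.Agent.Lib.NV2

open Pool.Agent.Lib.KOS29.Num

namespace EUL

/-- The Koszul differential. -/
def kd {Y : Type} {r : ℕ} (t : Fin r → Y → ℂ) :
    (Finset (Fin r) → Y → ℂ) →ₗ[ℂ] (Finset (Fin r) → Y → ℂ) where
  toFun η I := ∑ i ∈ I, sg i I • (t i * η (I.erase i))
  map_add' η ξ := funext fun I => by
    simp only [Pi.add_apply, mul_add, smul_add, Finset.sum_add_distrib]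
  map_smul' c η := funext fun I => by
    simp only [Pi.smul_apply, mul_smul_comm, RingHom.id_apply, Finset.smul_sum, smul_comm c]

theorem kd_eq {Y : Type} {r : ℕ} (t : Fin r → Y → ℂ) (η : Finset (Fin r) → Y → ℂ)
    (I : Finset (Fin r)) : kd t η I = ∑ i ∈ I, sg i I • (t i * η (I.erase i)) := rfl

theorem kd_apply {Y : Type} {r : ℕ} (t : Fin r → Y → ℂ) (η : Finset (Fin r) → Y → ℂ) (x : Y) :
    (kd t η · x) = wg (t · x) (η · x) := funext fun I => by
  simp only [kd_eq, wg, Finset.sum_apply, Pi.smul_apply, Pi.mul_apply, smul_eq_mul, mul_assoc]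

end EUL

theorem bEUL (hCAR : St_CAR) : St_EUL := by
  intro Y r t V hV hm h0 hex
  have h := eul r V hV (EUL.kd t) (fun k η hη => ?_) (fun k η _ => ?_) (fun η hη hd => ?_)
    (fun k η hη hd => ?_)
  · exact_mod_cast h
  · obtain ⟨h1, h2⟩ := mem_Ck.1 hη
    refine mem_Ck.2 ⟨fun J hJ => ?_, fun J hJ => ?_⟩
    · rw [EUL.kd_eq]
      refine Submodule.sum_mem _ fun i hi => Submodule.smul_mem _ _ (hm k i _ (h1 _ ?_))
      have := Finset.card_erase_add_one hi
      omega
    · rw [EUL.kd_eq]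
      refine Finset.sum_eq_zero fun i hi => ?_
      have := Finset.card_erase_add_one hi
      rw [h2 _ (by omega), mul_zero, smul_zero]
  · funext I x
    have := (EUL.kd_apply t (EUL.kd t η) x).trans
      ((congrArg (wg (t · x)) (EUL.kd_apply t η x)).trans ((hCAR r).2.1 _ _))
    exact congrFun this I
  · obtain ⟨h1, h2⟩ := mem_Ck.1 hη
    funext J
    by_cases hJ : J.card = 0
    · obtain rfl := Finset.card_eq_zero.1 hJ
      refine h0 _ (h1 _ rfl) fun a => ?_
      have := congrFun hd {a}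
      simpa [EUL.kd_eq, sg, Finset.filter_singleton] using this
    · exact h2 J hJ
  · obtain ⟨h1, h2⟩ := mem_Ck.1 hη
    obtain ⟨H, a1, a2, a3⟩ := hex k η (fun I => by
      by_cases hI : I.card = k + 1
      · exact h1 I hI
      · rw [h2 I hI]; exact zero_mem _) h2 fun x => by
        rw [← EUL.kd_apply, hd]; rfl
    refine ⟨H, mem_Ck.2 ⟨fun J _ => a1 J, a2⟩, funext fun I => funext fun x => ?_⟩
    exact congrFun ((EUL.kd_apply t H x).trans (a3 x).symm) I

end Pool.Agent.Lib.NV2
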