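import Pool.Agent.Lib.NV2.Blue

/-! Project NV2, row EXA. -/

open scoped Classical Topology ContDiff ENNReal
open Set MeasureTheory Complex Metric Filter

noncomputable section

namespace Pool.Agent.Lib.NV2

open Pool.Agent.Lib.SV (E nsq)
open Pool.Agent.Lib.HS32 Pool.Agent.Lib.EX Pool.Agent.Lib.EXS Pool.Agent.Lib.ZL
open Pool.Agent.Lib.ZQ (HqC)

namespace EXA

theorem zero_of {N N' I : ℝ≥0∞} {k : ℕ} {ε : ℝ} (h0 : ε < 0) (hN : N ≠ ⊤)
    (hle : N ≤ N') (h : ENNReal.ofReal (k - ε) * N' + I ≤ k * N) : N = 0 := by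
  have e : ENNReal.ofReal (k - ε) = (k : ℝ≥0∞) + ENNReal.ofReal (-ε) := by
    rw [sub_eq_add_neg, ENNReal.ofReal_add (Nat.cast_nonneg k) (by linarith),
      ENNReal.ofReal_natCast]
  have h2 : (k : ℝ≥0∞) * N + ENNReal.ofReal (-ε) * N ≤ k * N + 0 := by
    rw [← add_mul, ← e, add_zero]
    exact le_trans (le_trans (mul_le_mul_right hle _) le_self_add) h
  have h3 := (ENNReal.add_le_add_iff_left (ENNReal.mul_ne_top (ENNReal.natCast_ne_top k) hN)).1 h2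
  rcases mul_eq_zero.1 (le_antisymm h3 bot_le) with h4 | h4
  · exact absurd (ENNReal.ofReal_eq_zero.1 h4) (by linarith)
  · exact h4

end EXA

theorem bEXA (hMU : ZL.St_MU) (hEUL : St_EUL) (hMIN : St_MIN) (hCHN : St_CHN)
    (hSTEP : St_STEP) : St_EXA := by
  intro n M _ ι _ _ D X r P Q t C A ε ρ hq hK hW hε
  obtain ⟨hsp, hfd, hmul, hV, hWg, hL, hS, hKd⟩ := hCHN n M ι D X r
  obtain ⟨hpos, -, -, hNm⟩ := hKd P t hK
  obtain ⟨hoff, -⟩ := hMU n M ι D X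
  obtain ⟨L, hL⟩ := hL t
  have e : ∀ k : ℕ, (P + fun i => Q i + k * P i) = fun i => Q i + (k + 1 : ℕ) * P i := fun k => by
    funext i
    simp only [Pi.add_apply, Nat.cast_add, Nat.cast_one]
    ring
  refine hEUL M.X r t (fun k => Submodule.span ℂ {F | Sp D (fun i => Q i + k * P i) F})
    (fun k => hfd _) (fun k a F hF => (hsp _ _).2 ?_) (fun F hF h0 => ?_) fun k η hη h1 hc => ?_
  · rw [← e]
    exact hmul _ _ _ _ (hK.1 a) ((hsp _ _).1 hF)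
  · refine (hS _ _ ((hsp _ _).1 hF)).2.2 ?_
    filter_upwards [hoff] with x hx
    by_contra hne
    have h2 : nsq (t · x) = 0 := Finset.sum_eq_zero fun a _ => by
      have h3 : t a x * F x = 0 := congrFun (h0 a) x
      exact normSq_eq_zero.2 ((mul_eq_zero.1 h3).resolve_right hne)
    exact (hpos x hx).ne' h2
  · have hη' : Ch D (k + 1) (fun i => Q i + (k + 1 : ℕ) * P i) η :=
      ⟨fun I => (hsp _ _).1 (hη I), h1⟩
    obtain ⟨V0, f0, m0⟩ := hV k fun i => Q i + k * P i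
    obtain ⟨V1, f1, m1⟩ := hV (k + 1) fun i => Q i + (k + 1 : ℕ) * P i
    have hker : ∀ b, b ∈ LinearMap.ker L ↔ Coc t b := fun b => by
      rw [LinearMap.mem_ker, hL]
      exact ⟨fun h x => funext fun I => congrFun (congrFun h I) x,
        fun h => funext fun I => funext fun x => congrFun (h x) I⟩
    have hB : ∀ b ∈ V0.map L, b ∈ V1 ⊓ LinearMap.ker L := by
      rintro _ ⟨H, hH, rfl⟩
      obtain ⟨h1, h2⟩ := hWg k P _ t H hK.1 ((m0 H).1 hH)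
      rw [e] at h1
      exact ⟨(m1 _).2 (hL H ▸ h1), (hker _).2 (hL H ▸ h2)⟩
    have hbd : ∀ b ∈ V1, AEMeasurable (wt t ρ (k + 1)) X.μ ∧ Nm X t ρ (k + 1) b ≠ ⊤ ∧
        (Nm X t ρ (k + 1) b = 0 → b = 0) := fun b hb => by
      obtain ⟨A', h⟩ := hNm (k + 1) Q C A b ((m1 b).1 hb)
      obtain ⟨h1, h2, h3⟩ := h _ _ _ hW
      exact ⟨h1, ne_top_of_le_ne_top ENNReal.ofReal_ne_top h2, h3⟩
    have hme : ∀ b ∈ V1, ∀ I, AEMeasurable (b I) X.μ := fun b hb I =>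
      (hS _ _ (((m1 b).1 hb).1 I)).2.1
    have hηV : η ∈ V1 ⊓ LinearMap.ker L := ⟨(m1 η).2 hη', (hker η).2 hc⟩
    obtain ⟨b, hb, hbm⟩ : ∃ b ∈ V0.map L, ∀ b' ∈ V0.map L,
        Nm X t ρ (k + 1) (η - b) ≤ Nm X t ρ (k + 1) (η - b') :=
      hMIN M.X (Finset (Fin r)) X.μ (V0.map L) (wt t ρ (k + 1)) η inferInstance
        (hbd η hηV.1).1 (fun x => (Real.exp_pos _).le) (hme η hηV.1)
        fun b hb => ⟨hme b (hB b hb).1, (hbd b (hB b hb).1).2.1⟩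
    have hV' : η - b ∈ V1 ⊓ LinearMap.ker L := sub_mem hηV (hB _ hb)
    obtain ⟨H, hH, hs⟩ := hSTEP n M ι D X r k P Q t C A ε ρ (η - b) hq hK hW
      (hε.trans_le (Nat.cast_nonneg k)) ((m1 _).1 hV'.1) ((hker _).1 hV'.2)
    have h0 : η - b = 0 := by
      refine (hbd _ hV'.1).2.2 (EXA.zero_of hε (hbd _ hV'.1).2.1 ?_ hs)
      rw [sub_sub, ← hL]
      exact hbm _ (add_mem hb ⟨H, (m0 H).2 hH, rfl⟩)
    obtain ⟨H', hH', e'⟩ := hb
    have h4 : η = Wg t H' := (sub_eq_zero.1 h0).trans (e'.symm.trans (hL H'))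
    refine ⟨H', fun J => (hsp _ _).2 (((m0 H').1 hH').1 J), ((m0 H').1 hH').2, fun x => ?_⟩
    rw [h4]
    rfl

end Pool.Agent.Lib.NV2
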