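import Pool.Agent.Lib.NV2.Blue
import Pool.Agent.Lib.ZL.B_UPB

/-! Project NV2, row HAR. -/

open scoped Classical Topology ContDiff ENNReal
open Set MeasureTheory Complex Metric Filter

noncomputable section

namespace Pool.Agent.Lib.NV2

open Pool.Agent.Lib.SV (E nsq)
open Pool.Agent.Lib.HS32 Pool.Agent.Lib.EX Pool.Agent.Lib.EXS Pool.Agent.Lib.ZL
open Pool.Agent.Lib.ZQ (HqC)

namespace HAR

theorem cancel {N N' I : ℝ≥0∞} {k : ℕ} {ε : ℝ} (h0 : 0 ≤ ε) (h1 : ε ≤ k) (hN : N ≠ ⊤)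
    (hle : N ≤ N') (h : ENNReal.ofReal (k - ε) * N' + I ≤ k * N) : I ≤ ENNReal.ofReal ε * N := by
  have e : (k : ℝ≥0∞) = ENNReal.ofReal (k - ε) + ENNReal.ofReal ε := by
    rw [← ENNReal.ofReal_add (sub_nonneg.2 h1) h0, sub_add_cancel, ENNReal.ofReal_natCast]
  have h2 : ENNReal.ofReal (k - ε) * N + I ≤
      ENNReal.ofReal (k - ε) * N + ENNReal.ofReal ε * N := by
    rw [← add_mul, ← e]
    exact le_trans (add_le_add (mul_le_mul_right hle _) le_rfl) h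
  exact (ENNReal.add_le_add_iff_left (ENNReal.mul_ne_top ENNReal.ofReal_ne_top hN)).1 h2

end HAR

theorem bHAR (hMU : ZL.St_MU) (hPW : ZL.St_PW) (hCAR : St_CAR) (hMIN : St_MIN) (hLIM : St_LIM)
    (hMEA : St_MEA) (hCHN : St_CHN) (hSTEP : St_STEP) : St_HAR := by
  intro n M _ ι _ _ D X r k P Q t C A η hq hK hW hk hη hc hne
  obtain ⟨-, -, -, hV, hWg, hL, hS, hKd⟩ := hCHN n M ι D X r
  obtain ⟨-, hlg, -, hNm⟩ := hKd P t hK
  obtain ⟨hoff, hms, -⟩ := hMU n M ι D X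
  obtain ⟨-, -, -, -, -, -, -, hlw, -, hco, -⟩ := hPW n M ι D
  obtain ⟨hdf, hdm⟩ := hMEA n M ι D X r t fun a =>
    ((bUPB hPW n M ι D P).1 (t a) (hK.1 a).1).1
  obtain ⟨-, -, -, -, -, -, -, -, -, hcs, hcl⟩ := hCAR r
  obtain ⟨V0, f0, m0⟩ := hV k fun i => Q i + k * P i
  obtain ⟨V1, f1, m1⟩ := hV (k + 1) fun i => Q i + (k + 1 : ℕ) * P i
  obtain ⟨L, hL⟩ := hL t
  have hker : ∀ b, b ∈ LinearMap.ker L ↔ Coc t b := fun b => by
    rw [LinearMap.mem_ker, hL]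
    exact ⟨fun h x => funext fun I => congrFun (congrFun h I) x,
      fun h => funext fun I => funext fun x => congrFun (h x) I⟩
  have hB : ∀ b ∈ V0.map L, b ∈ V1 ⊓ LinearMap.ker L := by
    rintro _ ⟨H, hH, rfl⟩
    obtain ⟨h1, h2⟩ := hWg k P _ t H hK.1 ((m0 H).1 hH)
    have e : (P + fun i => Q i + k * P i) = fun i => Q i + (k + 1 : ℕ) * P i := by
      funext i
      simp only [Pi.add_apply, Nat.cast_add, Nat.cast_one]
      ring
    rw [e] at h1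
    exact ⟨(m1 _).2 (hL H ▸ h1), (hker _).2 (hL H ▸ h2)⟩
  have hε : ∀ ν : ℕ, 0 < 1 / ((ν : ℝ) + 1) / 2 := fun ν => by positivity
  have hε1 : ∀ ν : ℕ, 1 / ((ν : ℝ) + 1) / 2 < k := fun ν => by
    have h1 : 1 / ((ν : ℝ) + 1) ≤ 1 := by
      rw [div_le_one (by positivity)]
      linarith [Nat.cast_nonneg (α := ℝ) ν]
    have h2 : (1 : ℝ) ≤ k := by exact_mod_cast hk
    linarith
  choose ρ hρ using fun ν : ℕ => hW _ (hε ν)
  have hbd : ∀ b ∈ V1, ∃ A' : ℝ, ∀ ν, AEMeasurable (wt t (ρ ν) (k + 1)) X.μ ∧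
      Nm X t (ρ ν) (k + 1) b ≤ ENNReal.ofReal A' := fun b hb => by
    obtain ⟨A', h⟩ := hNm (k + 1) Q C A b ((m1 b).1 hb)
    exact ⟨A', fun ν => ⟨(h _ _ _ (hρ ν)).1, (h _ _ _ (hρ ν)).2.1⟩⟩
  have hfin : ∀ b ∈ V1, ∀ ν, Nm X t (ρ ν) (k + 1) b ≠ ⊤ := fun b hb ν => by
    obtain ⟨A', h⟩ := hbd b hb
    exact ne_top_of_le_ne_top ENNReal.ofReal_ne_top (h ν).2
  have hwm : ∀ ν, AEMeasurable (wt t (ρ ν) (k + 1)) X.μ := fun ν => by
    obtain ⟨A', h⟩ := hbd η ((m1 η).2 hη)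
    exact (h ν).1
  have hme : ∀ b ∈ V1, ∀ I, AEMeasurable (b I) X.μ := fun b hb I =>
    (hS _ _ (((m1 b).1 hb).1 I)).2.1
  have hηV : η ∈ V1 ⊓ LinearMap.ker L := ⟨(m1 η).2 hη, (hker η).2 hc⟩
  have hmin : ∀ ν, ∃ b ∈ V0.map L, ∀ b' ∈ V0.map L,
      Nm X t (ρ ν) (k + 1) (η - b) ≤ Nm X t (ρ ν) (k + 1) (η - b') := fun ν =>
    hMIN M.X (Finset (Fin r)) X.μ (V0.map L) (wt t (ρ ν) (k + 1)) η inferInstance (hwm ν)
      (fun x => (Real.exp_pos _).le) (hme η hηV.1)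
      fun b hb => ⟨hme b (hB b hb).1, hfin b (hB b hb).1 ν⟩
  choose b hb hbm using hmin
  have hV' : ∀ ν, η - b ν ∈ V1 ⊓ LinearMap.ker L := fun ν => sub_mem hηV (hB _ (hb ν))
  refine Exists.imp (fun η' h => ⟨h.2.1, (m1 _).1 h.1.1, (hker _).1 h.1.2, h.2.2⟩)
    (hLIM M.X (Finset (Fin r)) X.μ (V1 ⊓ LinearMap.ker L) (Df D t)
    (2 * r) (fun x => Real.exp (-(C - lw D (fun i => Q i - X.o i) x + (k + 1 : ℕ) * lg t x)))
    (fun ν => wt t (ρ ν) (k + 1)) (fun ν => η - b ν) (fun ν => 1 / ((ν : ℝ) + 1) / 2)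
    (Submodule.finiteDimensional_of_le inf_le_left) ?_ ?_ hwm ?_ ?_ ?_)
  · filter_upwards [hoff] with x hx
    refine ⟨Real.exp_pos _, fun ν => Real.exp_le_exp.2 ?_, fun y y' c => ⟨?_, ?_, ?_⟩⟩
    · linarith [(hρ ν).2.2.1 x hx]
    · exact Finset.sum_nonneg fun J _ => (hdf x _ 0 0).1
    · simp only [Df, Finset.mul_sum]
      exact Finset.sum_congr rfl fun J _ => by rw [(hcl y y c J).2, (hdf x _ 0 c).2.1]
    · have h4 : Df D t x y ≤ ∑ J, (2 * df D t x (col y' J) + 2 * nsq (col (y - y') J)) :=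
        Finset.sum_le_sum fun J _ => by
          rw [(hcl y y' 0 J).1]
          exact (hdf x _ _ 0).2.2.1
      rw [Finset.sum_add_distrib, ← Finset.mul_sum, ← Finset.mul_sum] at h4
      have h5 := hcs (y - y')
      have h6 : Df D t x y' = ∑ J, df D t x (col y' J) := rfl
      rw [h6]
      linarith
  · refine hms ℝ _ (Real.continuous_exp.comp_continuousOn (ContinuousOn.neg ?_))
    exact (continuousOn_const.sub (hco ℝ _ (hlw _))).add
      (continuousOn_const.mul (hco ℝ _ hlg.1))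
  · intro β hβ
    refine ⟨hme β hβ.1, ?_, ?_⟩
    · refine Finset.aemeasurable_fun_sum _ fun J _ => hdm (fun x => col (β · x) J) ?_
      refine continuousOn_pi.2 fun i => ?_
      by_cases hi : i ∈ J
      · simp only [col, hi, if_true]
        exact continuousOn_const
      · simp only [col, hi, if_false]
        exact continuousOn_const.mul (hS _ _ (((m1 β).1 hβ.1).1 _)).1
    · obtain ⟨A', h⟩ := hbd β hβ.1
      exact ⟨A', fun ν => (h ν).2⟩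
  · intro ν
    refine ⟨hV' ν, fun h0 => ?_, ?_⟩
    · obtain ⟨H, hH, e⟩ := hb ν
      exact hne H ((m0 H).1 hH) ((sub_eq_zero.1 h0).trans (e.symm.trans (hL H)))
    · obtain ⟨H, hH, hs⟩ := hSTEP n M ι D X r k P Q t C A _ (ρ ν) (η - b ν) hq hK (hρ ν) (hε1 ν)
        ((m1 _).1 (hV' ν).1) ((hker _).1 (hV' ν).2)
      refine HAR.cancel (hε ν).le (hε1 ν).le (hfin _ (hV' ν).1 ν) ?_ hs
      rw [sub_sub, ← hL]
      exact hbm ν _ (add_mem (hb ν) ⟨H, (m0 H).2 hH, rfl⟩)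
  · have := tendsto_one_div_add_atTop_nhds_zero_nat (𝕜 := ℝ).div_const 2
    rwa [zero_div] at this

end Pool.Agent.Lib.NV2
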