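import Pool.Agent.Lib.NV2.Blue

/-! Project NV2, row HIL: the Hilbert polynomial in two variables. -/

noncomputable section

namespace Pool.Agent.Lib.NV2

theorem bHIL (hW : ZL.St_WGT) (hP : St_POL2) (hE : St_EXA) (hL : St_LVB) (hS : St_WTS) :
    St_HIL := by
  intro n M _ ι _ _ D X r c Q ν t hq ht hα hZ hG
  obtain ⟨r', s, δ, δ0, hs, hp⟩ := hL n M ι D X _ hG
  obtain ⟨L, -, -, hW⟩ := hW
  have key : ∀ (m : ℕ) (P : ι → ℤ) (u : Fin m → M.X → ℂ) (ε : ℝ), 0 < ε → Kd D P u →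
      ZL.Psh D (fun x => X.α x - ε * lg u x) → ∀ a : ℕ, ∀ j ≥ 1,
      ∑ k ∈ Finset.range (m + 1), (-1 : ℤ) ^ k * m.choose k *
        h0 D (fun i => Q i + a * ν i + (j : ℕ) * X.e i + k * P i) = 0 := by
    intro m P u ε ε0 hu h a j hj
    obtain ⟨C, A, hρ⟩ := hZ a
    obtain ⟨ρ, hρ⟩ := hρ (1 / 2) one_half_pos
    obtain ⟨C', A', h'⟩ := hS n M ι D X _ C A ε ρ (lg u) j hj hρ h
    exact hE n M ι D X m P _ u C' A' _ _ hq hu h' (neg_neg_of_pos (half_pos ε0))
  obtain ⟨R, h1, h2⟩ := hP (fun a j => h0 D fun i => Q i + a * ν i + j * X.e i) r r' c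
    (fun a j hj => (Finset.sum_congr rfl fun k _ => congrArg (fun G => _ * (h0 D G : ℤ))
      (funext fun i => by push_cast; ring)).trans (key r _ t 1 one_pos ht
        ((hW n M ι D).2.2.2.2.2.2.1 _ _ ((hW n M ι D).1 0) fun x hx => by
          rw [hα x hx, one_mul, sub_self]) a j hj))
    (fun a j hj => (Finset.sum_congr rfl fun k _ => congrArg (fun G => _ * (h0 D G : ℤ))
      (funext fun i => by push_cast; ring)).trans (key r' _ s δ δ0 hs hp a j hj))
  exact ⟨R, fun a j hj => by simpa only [Int.cast_natCast] using h1 a j hj, h2⟩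

end Pool.Agent.Lib.NV2
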