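import Pool.Agent.Lib.NV2.Ex

/-! Project NV2: tangent multivectors. -/

open scoped Classical Matrix

noncomputable section

namespace Pool.Agent.Lib.NV2

namespace LIN

variable {r : ℕ}

theorem cn_add (ξ : Fin r → ℂ) (G G' : Ex r) : cn ξ (G + G') = cn ξ G + cn ξ G' := by
  funext J
  simp only [cn, col, Pi.add_apply, ← Finset.sum_add_distrib]
  refine Finset.sum_congr rfl fun i _ => ?_
  split_ifs <;> ring

theorem cn_smul (ξ : Fin r → ℂ) (c : ℂ) (G : Ex r) : cn ξ (c • G) = c • cn ξ G := by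
  funext J
  simp only [cn, col, Pi.smul_apply, smul_eq_mul, Finset.mul_sum]
  refine Finset.sum_congr rfl fun i _ => ?_
  split_ifs <;> ring

theorem cn_zero (ξ : Fin r → ℂ) : cn ξ (0 : Ex r) = 0 := by
  simpa using cn_smul ξ 0 0

theorem add_cn (ξ ζ : Fin r → ℂ) (G : Ex r) : cn (ξ + ζ) G = cn ξ G + cn ζ G := by
  funext J
  simp only [cn, Pi.add_apply, add_mul, Finset.sum_add_distrib]

theorem smul_cn (c : ℂ) (ξ : Fin r → ℂ) (G : Ex r) : cn (c • ξ) G = c • cn ξ G := by
  funext J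
  simp only [cn, Pi.smul_apply, smul_eq_mul, Finset.mul_sum, mul_assoc]

theorem f_add (m : ℕ) : ∀ (ξ : Fin m → Fin r → ℂ) (G G' : Ex r),
    cnF m ξ (G + G') = cnF m ξ G + cnF m ξ G' := by
  induction m with
  | zero => intro ξ G G'; rfl
  | succ m ih => intro ξ G G'; simp only [cnF, cn_add, ih]

theorem f_smul (m : ℕ) : ∀ (ξ : Fin m → Fin r → ℂ) (c : ℂ) (G : Ex r),
    cnF m ξ (c • G) = c • cnF m ξ G := by
  induction m with
  | zero => intro ξ c G; rfl
  | succ m ih => intro ξ c G; simp only [cnF, cn_smul, ih]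

theorem f_zero (m : ℕ) (ξ : Fin m → Fin r → ℂ) : cnF m ξ (0 : Ex r) = 0 := by
  simpa using f_smul m ξ 0 0

theorem upd_add (m : ℕ) : ∀ (ξ : Fin m → Fin r → ℂ) (i : Fin m) (x y : Fin r → ℂ) (G : Ex r),
    cnF m (Function.update ξ i (x + y)) G =
      cnF m (Function.update ξ i x) G + cnF m (Function.update ξ i y) G := by
  induction m with
  | zero => intro ξ i; exact i.elim0
  | succ m ih =>
    intro ξ i x y G
    refine Fin.cases ?_ (fun j => ?_) i
    · simp only [cnF, Fin.tail_update_zero, Function.update_self, add_cn, f_add]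
    · simp only [cnF, Fin.tail_update_succ, Function.update_of_ne (Fin.succ_ne_zero j).symm, ih]

theorem upd_smul (m : ℕ) : ∀ (ξ : Fin m → Fin r → ℂ) (i : Fin m) (c : ℂ) (x : Fin r → ℂ)
    (G : Ex r), cnF m (Function.update ξ i (c • x)) G = c • cnF m (Function.update ξ i x) G := by
  induction m with
  | zero => intro ξ i; exact i.elim0
  | succ m ih =>
    intro ξ i c x G
    refine Fin.cases ?_ (fun j => ?_) i
    · simp only [cnF, Fin.tail_update_zero, Function.update_self, smul_cn, f_smul]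
    · simp only [cnF, Fin.tail_update_succ, Function.update_of_ne (Fin.succ_ne_zero j).symm, ih]

section car

variable (hC : St_CAR)
include hC

theorem cn_kill {ξ : Fin r → ℂ} {G : Ex r} (h : cn ξ G = 0) (ζ : Fin r → ℂ) :
    cn ξ (cn ζ G) = 0 := by
  rw [(hC r).2.2.1, h, cn_zero, neg_zero]

theorem cn_self (ξ : Fin r → ℂ) (G : Ex r) : cn ξ (cn ξ G) = 0 := by
  have h := (hC r).2.2.1 ξ ξ G
  funext J
  have h1 := congrFun h J
  rw [Pi.neg_apply] at h1
  exact self_eq_neg.1 h1

theorem f_kill (m : ℕ) : ∀ (ξ : Fin m → Fin r → ℂ) (G : Ex r) (j : Fin m), cn (ξ j) G = 0 →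
    cnF m ξ G = 0 := by
  induction m with
  | zero => intro ξ G j; exact j.elim0
  | succ m ih =>
    intro ξ G j
    refine Fin.cases (fun h => ?_) (fun k h => ?_) j
    · simp only [cnF, h, f_zero]
    · exact ih (Fin.tail ξ) _ k (cn_kill hC h _)

theorem f_alt (m : ℕ) : ∀ (ξ : Fin m → Fin r → ℂ) (G : Ex r) (i j : Fin m), ξ i = ξ j → i ≠ j →
    cnF m ξ G = 0 := by
  induction m with
  | zero => intro ξ G j; exact j.elim0
  | succ m ih =>
    intro ξ G i j
    refine Fin.cases ?_ (fun k => ?_) i <;> refine Fin.cases (fun h hn => ?_) (fun l h hn => ?_) j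
    · exact absurd rfl hn
    · refine f_kill hC m (Fin.tail ξ) _ l ?_
      show cn (ξ l.succ) _ = 0
      rw [← h, cn_self hC]
    · refine f_kill hC m (Fin.tail ξ) _ k ?_
      show cn (ξ k.succ) _ = 0
      rw [h, cn_self hC]
    · exact ih (Fin.tail ξ) _ k l h fun e => hn (congrArg Fin.succ e)

theorem f_repl (m : ℕ) : ∀ (ξ ζ : Fin m → Fin r → ℂ) (G : Ex r), (∀ j, cn (ξ j - ζ j) G = 0) →
    cnF m ξ G = cnF m ζ G := by
  induction m with
  | zero => intro ξ ζ G _; rfl
  | succ m ih =>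
    intro ξ ζ G h
    have h0 : cn (ξ 0) G = cn (ζ 0) G := by
      rw [← sub_add_cancel (ξ 0) (ζ 0), add_cn, h 0, zero_add]
    simp only [cnF, h0]
    exact ih _ _ _ fun j => cn_kill hC (h j.succ) _

theorem f_wg (t : Fin r → ℂ) (m : ℕ) : ∀ (ξ : Fin m → Fin r → ℂ) (G : Ex r),
    (∀ j, ξ j ⬝ᵥ t = 0) → cnF m ξ (wg t G) ∅ = 0 := by
  induction m with
  | zero => intro ξ G _; simp [cnF, wg]
  | succ m ih =>
    intro ξ G h
    have h1 := (hC r).2.2.2.1 (ξ 0) t G
    have h2 : (∑ i, ξ 0 i * t i) = 0 := h 0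
    rw [h2, zero_smul] at h1
    have h3 := ih (Fin.tail ξ) (cn (ξ 0) G) fun j => h j.succ
    have h4 : cn (ξ 0) (wg t G) = (-1 : ℂ) • wg t (cn (ξ 0) G) := by
      rw [neg_one_smul]; exact eq_neg_of_add_eq_zero_left h1
    simp only [cnF, h4, f_smul, Pi.smul_apply, h3, smul_zero]

theorem eq_zero (m : ℕ) : ∀ G : Ex r, Hm m G → (∀ ξ, cnF m ξ G ∅ = 0) → G = 0 := by
  induction m with
  | zero =>
    intro G hG h
    funext I
    by_cases hI : I = ∅
    · rw [hI]; exact h Fin.elim0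
    · exact hG I fun e => hI (Finset.card_eq_zero.1 e)
  | succ m ih =>
    intro G hG h
    funext I
    rcases I.eq_empty_or_nonempty with hI | ⟨i, hi⟩
    · exact hG I (by simp [hI])
    · have h1 := ih (cn (Pi.single i 1) G) (((hC r).2.2.2.2.2.2.2.1 m _ G).2.1 hG) fun ξ => by
        simpa only [cnF, Fin.tail_cons, Fin.cons_zero] using
          h (Fin.cons (α := fun _ => Fin r → ℂ) (Pi.single i 1) ξ)
      have h2 := congrFun h1 (I.erase i)
      simp only [cn, Pi.single_apply, ite_mul, one_mul, zero_mul, Finset.sum_ite_eq',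
        Finset.mem_univ, if_true, col, Finset.notMem_erase, if_false, Finset.insert_erase hi,
        Pi.zero_apply, mul_eq_zero] at h2
      refine h2.resolve_left ?_
      exact pow_ne_zero _ (neg_ne_zero.2 one_ne_zero)

/-- The iterated contraction as an alternating map. -/
def alt (m : ℕ) (G : Ex r) : (Fin r → ℂ) [⋀^Fin m]→ₗ[ℂ] ℂ where
  toFun ξ := cnF m ξ G ∅
  map_update_add' := by
    intro inst ξ i x y
    obtain rfl : inst = instDecidableEqFin m := Subsingleton.elim _ _
    rw [upd_add]; rfl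
  map_update_smul' := by
    intro inst ξ i c x
    obtain rfl : inst = instDecidableEqFin m := Subsingleton.elim _ _
    rw [upd_smul]; rfl
  map_eq_zero_of_eq' ξ i j h hn := by
    show cnF m ξ G ∅ = 0
    rw [f_alt hC m ξ G i j h hn]; rfl

theorem f_perm (m : ℕ) (G : Ex r) (ξ : Fin m → Fin r → ℂ) (σ : Equiv.Perm (Fin m)) :
    cnF m (ξ ∘ σ) G ∅ = (Equiv.Perm.sign σ : ℤ) * cnF m ξ G ∅ := by
  have h : cnF m (ξ ∘ σ) G ∅ = Equiv.Perm.sign σ • cnF m ξ G ∅ := (alt hC m G).map_perm ξ σ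
  rw [h, Units.smul_def, zsmul_eq_mul]

theorem f_sum (m n : ℕ) (G : Ex r) (a : Fin m → Fin n → ℂ) (v : Fin n → Fin r → ℂ) :
    cnF m (fun p => ∑ j, a p j • v j) G ∅ =
      ∑ I : Fin m → Fin n, (∏ p, a p (I p)) * cnF m (fun p => v (I p)) G ∅ := by
  have h := (alt hC m G).toMultilinearMap.map_sum fun p j => a p j • v j
  refine h.trans (Finset.sum_congr rfl fun I _ => ?_)
  exact (alt hC m G).toMultilinearMap.map_smul_univ (fun p => a p (I p)) fun p => v (I p)

end car

theorem conormal {n : ℕ} {u : Fin n → Fin r → ℂ} {η : Ex r}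
    (h : ∀ J, col η J ∈ Submodule.span ℂ (Set.range u)) {ζ : Fin r → ℂ}
    (hζ : ∀ a, ζ ⬝ᵥ u a = 0) : cn ζ η = 0 := by
  funext J
  obtain ⟨c, hc⟩ := (Submodule.mem_span_range_iff_exists_fun ℂ).1 (h J)
  show ζ ⬝ᵥ col η J = 0
  rw [← hc, dotProduct_sum]
  exact Finset.sum_eq_zero fun a _ => by rw [dotProduct_smul, hζ, smul_zero]

theorem tb_eq {n q : ℕ} (lam : Fin (n + 1) → Fin r → ℂ) (η : Ex r) (I : Fin q → Fin n) :
    tb lam η I = cnF q (fun p => lam (I p).succ) (cn (lam 0) η) ∅ := by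
  simp only [tb, cnF, Fin.tail_cons, Fin.cons_zero]

end LIN

open LIN in
theorem bLIN (hCAR : St_CAR) : St_LIN := by
  intro r n q u lam η hD hη hw hs
  have hD' : ∀ a b, lam a ⬝ᵥ u b = if a = b then 1 else 0 := hD
  have hdec : η = wg (u 0) (cn (lam 0) η) := by
    have h := (hCAR r).2.2.2.1 (lam 0) (u 0) η
    rw [hw, cn_zero, zero_add, hD 0 0, if_pos rfl, one_smul] at h
    exact h.symm
  refine ⟨fun I σ => ?_, fun h => ?_, fun u' lam' g A c hE h0 h1 I => ?_⟩
  · rw [tb_eq, tb_eq]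
    exact f_perm hCAR q _ (fun p => lam (I p).succ) σ
  · have h1 : cn (lam 0) η = 0 := by
      refine eq_zero hCAR q _ (((hCAR r).2.2.2.2.2.2.2.1 q _ η).2.1 hη) fun ξ => ?_
      rw [f_repl hCAR q ξ (fun p => ∑ j : Fin n, (ξ p ⬝ᵥ u j.succ) • lam j.succ), f_sum hCAR]
      · exact Finset.sum_eq_zero fun I _ => by rw [← tb_eq, h I, mul_zero]
      · intro p
        have e : ξ p - ∑ j : Fin n, (ξ p ⬝ᵥ u j.succ) • lam j.succ =
            (ξ p - ∑ a, (ξ p ⬝ᵥ u a) • lam a) + (ξ p ⬝ᵥ u 0) • lam 0 := by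
          rw [Fin.sum_univ_succ]; abel
        rw [e, add_cn, smul_cn, cn_self hCAR, smul_zero, add_zero]
        refine cn_kill hCAR (conormal hs fun b => ?_) _
        simp [sub_dotProduct, sum_dotProduct, hD']
    rw [hdec, h1]
    funext J
    simp [wg]
  · have hE' : ∀ a b, lam' a ⬝ᵥ u' b = if a = b then 1 else 0 := hE
    set M : Matrix (Fin (n + 1)) (Fin (n + 1)) ℂ := fun a b => lam a ⬝ᵥ u' b with hM
    set N : Matrix (Fin (n + 1)) (Fin (n + 1)) ℂ := fun a b => lam' a ⬝ᵥ u b with hN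
    have m00 : M 0 0 = g := by simp [hM, h0, hD']
    have ms0 : ∀ i : Fin n, M i.succ 0 = 0 := fun i => by simp [hM, h0, hD']
    have m0s : ∀ j : Fin n, M 0 j.succ = c j := fun j => by
      simp [hM, h1, hD', dotProduct_sum, (Fin.succ_ne_zero _).symm]
    have mss : ∀ i j : Fin n, M i.succ j.succ = g * A i j := fun i j => by
      simp [hM, h1, hD', dotProduct_sum]
    have hu : ∀ b, u' b = ∑ a, M a b • u a := by
      intro b
      rw [Fin.sum_univ_succ]
      refine Fin.cases ?_ (fun j => ?_) b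
      · simp [m00, ms0, h0]
      · simp only [m0s, mss, h1, Finset.smul_sum, smul_smul]
        exact add_comm _ _
    have hNM : N * M = 1 := by
      ext a b
      rw [Matrix.mul_apply, Matrix.one_apply, ← hE', hu, dotProduct_sum]
      exact Finset.sum_congr rfl fun d _ => by rw [dotProduct_smul, smul_eq_mul, mul_comm]
    have hMN : M * N = 1 := mul_eq_one_comm.1 hNM
    have hco : ∀ a, cn (lam a - ∑ b, M a b • lam' b) η = 0 := fun a => conormal hs fun d => by
      have h := congrFun (congrFun hMN a) d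
      rw [Matrix.mul_apply, Matrix.one_apply] at h
      rw [sub_dotProduct, sum_dotProduct, hD', ← h, sub_eq_zero]
      exact Finset.sum_congr rfl fun b _ => by rw [smul_dotProduct, smul_eq_mul]
    have hg : g ≠ 0 := by
      rintro rfl
      have := hE' 0 0
      simp [h0] at this
    have hk : ∀ j : Fin n, lam' j.succ ⬝ᵥ u 0 = 0 := fun j => by
      have := hE' j.succ 0
      rw [h0, dotProduct_smul, if_neg (Fin.succ_ne_zero j), smul_eq_mul] at this
      exact (mul_eq_zero.1 this).resolve_left hg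
    have hk' : ∀ a : Fin n → ℂ, (∑ j, a j • lam' j.succ) ⬝ᵥ u 0 = 0 := fun a => by
      simp [sum_dotProduct, hk]
    set v : Fin q → Fin r → ℂ := fun p => ∑ j, (g * A (I p) j) • lam' j.succ with hv
    have e0 : cn (lam 0) η = g • cn (lam' 0) η + cn (∑ j, c j • lam' j.succ) η := by
      rw [← sub_add_cancel (lam 0) (∑ b, M 0 b • lam' b), add_cn, hco, zero_add, Fin.sum_univ_succ,
        add_cn, smul_cn, m00]
      simp only [m0s]
    have e1 : tb lam η I = cnF q v (cn (lam 0) η) ∅ := by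
      rw [tb_eq, f_repl hCAR q _ v]
      intro p
      refine cn_kill hCAR ?_ _
      have h := hco (I p).succ
      rw [Fin.sum_univ_succ, ms0, zero_smul, zero_add] at h
      simpa only [mss] using h
    have e2 : cnF q v (cn (∑ j, c j • lam' j.succ) η) ∅ = 0 := by
      have h := f_wg hCAR (u 0) (q + 1)
        (Fin.cons (α := fun _ => Fin r → ℂ) (∑ j, c j • lam' j.succ) v) (cn (lam 0) η)
        fun j => Fin.cases (hk' c) (fun p => hk' _) j
      rw [← hdec] at h
      simpa only [cnF, Fin.tail_cons, Fin.cons_zero] using h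
    rw [e1, e0, f_add, Pi.add_apply, e2, add_zero, f_smul, Pi.smul_apply, hv, f_sum hCAR,
      smul_eq_mul, Finset.mul_sum, Finset.mul_sum]
    refine Finset.sum_congr rfl fun I' _ => ?_
    rw [← tb_eq, Finset.prod_mul_distrib, Finset.prod_const, Finset.card_univ, Fintype.card_fin]
    ring

end Pool.Agent.Lib.NV2
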