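import Pool.Agent.Lib.NV2.Blue
import Pool.Agent.Lib.NV2.B_LIN
import Pool.Agent.Lib.SV.Hol85

/-! Project NV2, row `INV`: holomorphic left inverses. -/

open scoped Classical Topology
open Set Complex Filter

noncomputable section

namespace Pool.Agent.Lib.NV2

open Pool.Agent.Lib.SV (E nsq)
open Pool.Agent.Lib.HS32

namespace INV

variable {n m r : ℕ} {w : E n}

theorem d_det {A : E n → Matrix (Fin m) (Fin m) ℂ}
    (h : ∀ a b, DifferentiableAt ℂ (fun y => A y a b) w) :
    DifferentiableAt ℂ (fun y => (A y).det) w := by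
  simp only [Matrix.det_apply']
  exact DifferentiableAt.fun_sum fun σ _ => (differentiableAt_const _).mul
    (HasFDerivAt.finsetProd fun i _ => (h (σ i) i).hasFDerivAt).differentiableAt

theorem d_inv {A : E n → Matrix (Fin m) (Fin m) ℂ}
    (h : ∀ a b, DifferentiableAt ℂ (fun y => A y a b) w) (h0 : (A w).det ≠ 0) (a b : Fin m) :
    DifferentiableAt ℂ (fun y => (A y)⁻¹ a b) w := by
  simp only [Matrix.inv_def, Ring.inverse_eq_inv', Matrix.smul_apply, smul_eq_mul,
    Matrix.adjugate_apply]
  refine ((d_det h).fun_inv h0).mul (d_det fun k l => ?_)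
  simp only [Matrix.updateRow_apply]
  split_ifs
  · exact differentiableAt_const _
  · exact h k l

theorem left {u : Fin m → Fin r → ℂ} (h : LinearIndependent ℂ u) : ∃ L, Dual L u := by
  obtain ⟨g, hg⟩ := (Fintype.linearCombination ℂ u).exists_leftInverse_of_injective
    (LinearMap.ker_eq_bot.2 h.fintypeLinearCombination_injective)
  refine ⟨fun a i => g (Pi.single i 1) a, fun a b => ?_⟩
  have e := congrFun (LinearMap.congr_fun hg (Pi.single b 1)) a
  rw [LinearMap.comp_apply, Fintype.linearCombination_apply_single, one_smul,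
    LinearMap.pi_apply_eq_sum_univ g (u b)] at e
  rw [show (if a = b then (1 : ℂ) else 0) = (Pi.single b 1 : Fin m → ℂ) a from by
    rw [Pi.single_apply], ← show _ = (Pi.single b 1 : Fin m → ℂ) a from e, Finset.sum_apply]
  refine Finset.sum_congr rfl fun i _ => ?_
  have e2 : (fun j => if i = j then (1 : ℂ) else 0) = Pi.single i 1 :=
    funext fun j => by rw [Pi.single_apply]; simp only [eq_comm]
  rw [e2, Pi.smul_apply, smul_eq_mul, mul_comm]

theorem one {z : E n} {u : E n → Fin m → Fin r → ℂ} (hu : HolN u z)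
    (h : LinearIndependent ℂ (u z)) :
    ∃ lam : E n → Fin m → Fin r → ℂ, HolN lam z ∧ ∀ᶠ y in 𝓝 z, Dual (lam y) (u y) := by
  obtain ⟨L, hL⟩ := left h
  let A : E n → Matrix (Fin m) (Fin m) ℂ := fun y => Matrix.of fun a b => ∑ i, L a i * u y b i
  have hA : ∀ y, DifferentiableAt ℂ u y → ∀ a b, DifferentiableAt ℂ (fun y => A y a b) y :=
    fun y hy a b => DifferentiableAt.fun_sum (u := Finset.univ) (A := fun i y => L a i * u y b i)
      fun i _ =>
      (differentiableAt_pi.1 (differentiableAt_pi.1 hy b) i).const_mul _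
  have A1 : A z = 1 := Matrix.ext fun a b => (hL a b).trans (Matrix.one_apply ..).symm
  have h0 : ∀ᶠ y in 𝓝 z, (A y).det ≠ 0 :=
    (d_det (hA z hu.self_of_nhds)).continuousAt.eventually_ne (by rw [A1]; simp)
  refine ⟨fun y a i => ∑ b, (A y)⁻¹ a b * L b i, ?_, ?_⟩
  · filter_upwards [hu, h0] with y a1 a2
    exact differentiableAt_pi.2 fun a => differentiableAt_pi.2 fun i =>
      DifferentiableAt.fun_sum fun b _ => (d_inv (hA y a1) a2 a b).mul (differentiableAt_const _)
  · filter_upwards [h0] with y a2 a b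
    have e := congrFun (congrFun (Matrix.nonsing_inv_mul (A y) (Ne.isUnit a2)) a) b
    rw [Matrix.one_apply, Matrix.mul_apply] at e
    rw [← e]
    simp only [Finset.sum_mul]
    rw [Finset.sum_comm]
    refine Finset.sum_congr rfl fun k _ => ?_
    simp only [A, Matrix.of_apply, Finset.mul_sum, mul_assoc]

theorem comb (T : E n → Fin r → ℂ) (z : E n) (g : Fin (n + 1) → ℂ) :
    ∑ a, g a • frm T z a = g 0 • T z + fderiv ℂ T z (Fin.tail g) := by
  rw [Fin.sum_univ_succ]
  congr 1
  conv_rhs => rw [pi_eq_sum_univ' (Fin.tail g), map_sum]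
  refine Finset.sum_congr rfl fun j _ => ?_
  rw [map_smul]
  rfl

theorem d_cn {ξ : E n → Fin r → ℂ} {η : E n → Ex r} (h1 : DifferentiableAt ℂ ξ w)
    (h2 : DifferentiableAt ℂ η w) : DifferentiableAt ℂ (fun y => cn (ξ y) (η y)) w := by
  refine differentiableAt_pi.2 fun J => DifferentiableAt.fun_sum fun i _ =>
    (differentiableAt_pi.1 h1 i).mul ?_
  simp only [col]
  split_ifs
  · exact differentiableAt_const _
  · exact (differentiableAt_const _).mul (differentiableAt_pi.1 h2 _)

theorem d_cnF (q : ℕ) : ∀ {ξ : E n → Fin q → Fin r → ℂ} {η : E n → Ex r},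
    DifferentiableAt ℂ ξ w → DifferentiableAt ℂ η w →
      DifferentiableAt ℂ (fun y => cnF q (ξ y) (η y)) w := by
  induction q with
  | zero => exact fun _ h => h
  | succ q ih =>
    exact fun h1 h2 => ih (differentiableAt_pi.2 fun p => differentiableAt_pi.1 h1 p.succ)
      (d_cn (differentiableAt_pi.1 h1 0) h2)

theorem cn_smul (ξ : Fin r → ℂ) (c : ℂ) (η : Ex r) : cn ξ (c • η) = c • cn ξ η := by
  funext J
  simp only [cn, col, Pi.smul_apply, smul_eq_mul, Finset.mul_sum]
  refine Finset.sum_congr rfl fun i _ => ?_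
  split_ifs <;> ring

theorem cnF_smul (q : ℕ) (c : ℂ) : ∀ (ξ : Fin q → Fin r → ℂ) (η : Ex r),
    cnF q ξ (c • η) = c • cnF q ξ η := by
  induction q with
  | zero => exact fun _ _ => rfl
  | succ q ih => exact fun ξ η => by rw [cnF, cnF, cn_smul, ih]

end INV

/-- Row `INV`. -/
theorem bINV : St_INV := by
  intro n r z
  refine ⟨fun m u hu h => INV.one hu h, fun T hT => ⟨?_, fun h => ?_, fun y => ?_⟩,
    fun q lam η I h1 h2 => ⟨?_, fun c y => congrFun (INV.cnF_smul _ c _ _) ∅⟩⟩
  · obtain ⟨O, h1, hO, hz⟩ := eventually_nhds_iff.1 hT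
    filter_upwards [hO.mem_nhds hz] with y hy
    refine differentiableAt_pi.2 fun a => Fin.cases (h1 y hy) (fun j => ?_) a
    exact (SV.H85.differentiableOn_fderiv_apply hO
      (fun x hx => (h1 x hx).differentiableWithinAt) _ y hy).differentiableAt (hO.mem_nhds hy)
  · refine Fintype.linearIndependent_iff.2 fun g hg a => ?_
    obtain ⟨a1, a2⟩ := h _ _ ((INV.comb T z g).symm.trans hg)
    exact Fin.cases a1 (fun j => congrFun a2 j) a
  · rw [Submodule.mem_span_range_iff_exists_fun]
    exact ⟨fun ⟨g, hg⟩ => ⟨_, _, hg.symm.trans (INV.comb T z g)⟩,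
      fun ⟨c, v, e⟩ => ⟨Fin.cons c v, (INV.comb T z _).trans e.symm⟩⟩
  · filter_upwards [h1, h2] with y a1 a2
    refine differentiableAt_pi.1 (INV.d_cnF (q + 1) (differentiableAt_pi.2 fun p => ?_) a2) ∅
    exact Fin.cases (differentiableAt_pi.1 a1 0) (fun j => differentiableAt_pi.1 a1 _) p

end Pool.Agent.Lib.NV2
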