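import Pool.Agent.Lib.NV2.Blue
import Pool.Agent.Lib.ZL.B_EST

/-! Project NV2, row KEY: one application of the theorem of Hörmander. -/

open scoped Classical Topology ContDiff ENNReal
open Set MeasureTheory Complex Metric Filter

noncomputable section

namespace Pool.Agent.Lib.NV2

open Pool.Agent.Lib.SV (E nsq nsq_nonneg)
open Pool.Agent.Lib.HS32 Pool.Agent.Lib.EX Pool.Agent.Lib.EXS Pool.Agent.Lib.ZL
open Pool.Agent.Lib.EXS.K32 (lv lv_add lv_mul)
open Pool.Agent.Lib.ZQ (HqC)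

namespace KEY

theorem cs {κ : Type} [Fintype κ] (y t : κ → ℂ) : normSq (ip y t) ≤ nsq y * nsq t := by
  have h1 : ‖ip y t‖ ≤ ∑ i, ‖y i‖ * ‖t i‖ :=
    (norm_sum_le _ _).trans_eq (Finset.sum_congr rfl fun i _ => by simp)
  simp only [nsq, normSq_eq_norm_sq]
  exact (pow_le_pow_left₀ (norm_nonneg _) h1 2).trans
    (Finset.sum_mul_sq_le_sq_mul_sq Finset.univ (fun i => ‖y i‖) fun i => ‖t i‖)

theorem wt_succ {Y : Type} {r : ℕ} (t : Fin r → Y → ℂ) (ρ : Y → ℝ) (k : ℕ) {x : Y}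
    (h : 0 < nsq (t · x)) : wt t ρ (k + 1) x = wt t ρ k x / nsq (t · x) := by
  rw [eq_div_iff h.ne', wt, wt, ← Real.exp_log h, ← Real.exp_add]
  refine congrArg _ ?_
  rw [lg]
  push_cast
  ring

theorem dom {a h N p c u : ℝ} (N0 : 0 < N) (c0 : 0 < c) (h0 : 0 ≤ h) (u0 : 0 ≤ u)
    (h1 : a ≤ h * p) : a / (N * N) ≤ h / (c * N) * (u + c * (p / N)) := by
  have h2 : h / (c * N) * (c * (p / N)) = h * p / (N * N) := by field_simp
  rw [mul_add, h2]
  exact le_add_of_nonneg_of_le (by positivity) (div_le_div_of_nonneg_right h1 (by positivity))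

end KEY

open Pool.Agent.Lib.NV2.KEY in
theorem bKEY (hP : ZL.St_PW) (hM : ZL.St_MU) (hU : ZL.St_UPB) (hW : ZL.St_WGT) (hG : ZL.St_POG)
    (hD : St_DB) (hC : St_CHN) : St_KEY := by
  intro n M _ ι _ _ D X r k P Q t y C A ε ρ h hq ht ⟨r1, r2, r3, r4⟩ hk hy mh hh hd
  obtain ⟨-, -, ladd, lsub, lsm, -, -, lS, -, hc, -⟩ := hP n M ι D
  obtain ⟨-, am, imon, -, -⟩ := hM n M ι D X
  obtain ⟨_, -, -, hW⟩ := hW
  obtain ⟨-, w2, w3, -⟩ := hW n M ι D
  obtain ⟨-, -, -, -, -, -, c7, c8⟩ := hC n M ι D X r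
  obtain ⟨t0, tp, ⟨C', tb⟩, -⟩ := c8 P t ht
  have c0 : 0 < (k : ℝ) - ε := sub_pos.2 hk
  have hol : ∀ (R : ι → ℤ) (s : Fin r → M.X → ℂ), (∀ a, Sp D R (s a)) →
      OA D fun d z => HolN (rv D s d) z := fun R s hs d z hz ho =>
    (eventually_all.2 fun a => ((hU n M ι D R).1 _ (hs a).1).1 d z hz ho).mono fun w hw =>
      differentiableAt_pi.2 hw
  have hf : (fun x => ρ x + k * lg t x) = fun x => ρ x + ε * lg t x + (k - ε) * lg t x :=
    funext fun x => by ring
  have pf : Psh D fun x => ρ x + k * lg t x := hf ▸ w2 _ _ r2 (w3 _ _ c0.le tp)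
  have ct : ContinuousOn (fun x => nsq (t · x)) (off D) := continuousOn_finsetSum _ fun a _ =>
    continuous_normSq.comp_continuousOn (c7 _ _ (ht.1 a)).1
  have loc : D.On (off D) fun d z =>
      ContDiffAt ℝ ∞ (D.rd (fun x => ip (y · x) (t · x) / nsq (t · x)) d) z ∧ ∀ v,
      normSq (db (D.rd (fun x => ip (y · x) (t · x) / nsq (t · x)) d) z v) ≤
        D.rd (fun x => h x / ((k - ε) * nsq (t · x))) d z *
          lv (D.rd (fun x => ρ x + k * lg t x) d) z v := fun d z hz ho => by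
    have p0 := t0 _ ho
    have T0 : rv D t d z ≠ 0 := fun e => p0.ne' (by
      have e' : ∀ a, t a ((D.e d).symm z) = 0 := congrFun e
      simp [nsq, e'])
    have hT := oa_iff.1 (hol _ t ht.1) d z hz ho
    have hY := oa_iff.1 (hol _ y hy) d z hz ho
    refine ⟨(hD n r _ _ z 0 hT hY T0).1, fun v => ?_⟩
    obtain ⟨-, d2, d3, d4⟩ := hD n r _ _ z v hT hY T0
    have e1 : lv (D.rd (fun x => ρ x + k * lg t x) d) z v =
        lv (D.rd (fun x => ρ x + ε * lg t x) d) z v +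
          (k - ε) * lv (fun w => Real.log (nsq (rv D t d w))) z v := by
      rw [hf, ← lv_mul d3]
      exact lv_add (oa_iff.1 r2.1 d z hz ho) (contDiffAt_const.mul d3) v
    rw [e1, d4]
    refine (congrArg normSq d2).trans_le ?_
    rw [map_div₀, normSq_ofReal]
    exact dom p0 c0 (hh _ ho).1 (oa_iff.1 r2.2 d z hz ho v) (oa_iff.1 hd d z hz ho v)
  obtain ⟨F, f1, f2⟩ := hq (fun x => ρ x + k * lg t x) (fun x => h x / ((k - ε) * nsq (t · x)))
    (fun x => ip (y · x) (t · x) / nsq (t · x)) (mh.div ((am _ _ ct).const_mul _))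
    fun d z hz ho => ⟨oa_iff.1 pf.1 d z hz ho, (loc d z hz ho).1, oa_iff.1 pf.2 d z hz ho,
      div_nonneg (hh _ ho).1 (mul_pos c0 (t0 _ ho)).le, (loc d z hz ho).2⟩
  rw [one_mul] at f2
  replace f2 : X.I (fun x => normSq (ip (y · x) (t · x) / nsq (t · x) - F x) * wt t ρ k x) ≤
      ENNReal.ofReal (k - ε)⁻¹ * X.I fun x => h x * wt t ρ (k + 1) x :=
    (f2.trans (imon _ (fun x => (k - ε)⁻¹ * (h x * wt t ρ (k + 1) x)) fun x hx => le_of_eq (by
      have := (t0 x hx).ne'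
      rw [wt_succ t ρ k (t0 x hx), wt]
      field_simp))).trans_eq (EST.i_mul X (inv_pos.2 c0).le _)
  choose B hB using fun a => (hU n M ι D _).2.2.2.2.1 _ (hy a).1
  have e2 : ∀ (m : ℕ) x, lw D (fun i => ((Q i + m * P i : ℤ) : ℝ)) x =
      lw D (fun i => Q i) x + m * lw D (fun i => P i) x := fun m x => by
    rw [← lsm, ← ladd]
    exact congrArg (lw D · x) (funext fun i => by simp)
  obtain ⟨A', A0, yb⟩ : ∃ A' : ℝ, 0 ≤ A' ∧
      X.I (fun x => nsq (y · x) * wt t ρ (k + 1) x) ≤ ENNReal.ofReal A' := by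
    have s0 : 0 ≤ (∑ a, |B a|) * Real.exp ((k + 1 : ℕ) * C') := by positivity
    refine ⟨(∑ a, |B a|) * Real.exp ((k + 1 : ℕ) * C') * |A|, by positivity,
      (imon _ (fun x => (∑ a, |B a|) * Real.exp ((k + 1 : ℕ) * C') *
        Real.exp (-lw D (fun i => Q i) x - ρ x)) fun x hx => ?_).trans ?_⟩
    · have h1 : nsq (y · x) ≤ (∑ a, |B a|) *
          Real.exp (-(lw D (fun i => Q i) x + (k + 1 : ℕ) * lw D (fun i => P i) x)) := by
        rw [Finset.sum_mul, ← e2]
        exact Finset.sum_le_sum fun a _ => (hB a x hx).trans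
          (mul_le_mul_of_nonneg_right (le_abs_self _) (Real.exp_pos _).le)
      refine (mul_le_mul_of_nonneg_right h1 (Real.exp_pos _).le).trans ?_
      rw [mul_assoc, mul_assoc, ← Real.exp_add, ← Real.exp_add]
      refine mul_le_mul_of_nonneg_left (Real.exp_le_exp.2 ?_) (by positivity)
      linarith [mul_le_mul_of_nonneg_left (abs_le.1 (tb x hx)).1
        (show (0 : ℝ) ≤ (k + 1 : ℕ) by positivity)]
    · rw [EST.i_mul X s0, ENNReal.ofReal_mul s0]
      exact mul_le_mul_right (r4.trans (ENNReal.ofReal_le_ofReal (le_abs_self A))) _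
  have f3 := f2.trans (mul_le_mul_right ((imon _ _ fun x hx =>
    mul_le_mul_of_nonneg_right (hh x hx).2 (Real.exp_pos _).le).trans yb) _)
  rw [← ENNReal.ofReal_mul (inv_pos.2 c0).le] at f3
  have my : AEMeasurable (fun x => nsq (y · x) * wt t ρ (k + 1) x) X.μ :=
    am _ _ ((continuousOn_finsetSum _ fun a _ =>
      continuous_normSq.comp_continuousOn (c7 _ _ (hy a)).1).mul
        ((hc _ _ r1).add ((hc _ _ tp.1).const_smul ((k + 1 : ℕ) : ℝ))).neg.rexp)
  have mF : Mer D (fun i => Q i + k * P i) F := hG n M ι D X _ F (oa_iff.2 f1)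
    (ne_top_of_le_ne_top ENNReal.ofReal_ne_top ((imon _ _ fun x hx => ?_).trans
      (EST.i_two X my (a := 2 * Real.exp (C + k * C')) (b := 2 * Real.exp (C + k * C'))
        (by positivity) (by positivity) A0 (by positivity) yb f3)))
  · refine ⟨(off D).indicator F, ((hU n M ι D _).1 F mF).2, ?_⟩
    refine (mul_le_mul_right ((imon _ _ fun x hx => le_of_eq ?_).trans f2) _).trans_eq ?_
    · rw [indicator_of_mem hx]
    · rw [← mul_assoc, ← ENNReal.ofReal_mul c0.le, mul_inv_cancel₀ c0.ne', ENNReal.ofReal_one,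
        one_mul]
  · have p0 := t0 x hx
    have h1 : Real.exp (lw D (fun i => ((Q i + k * P i : ℤ) : ℝ) - X.o i) x) ≤
        Real.exp (C + k * C') * wt t ρ k x := by
      have e3 := lsub (fun i => ((Q i + k * P i : ℤ) : ℝ)) X.o x
      have e4 := lsub (fun i => (Q i : ℝ)) X.o x
      rw [wt, ← Real.exp_add]
      refine Real.exp_le_exp.2 (e3.trans_le ?_)
      have e5 : ρ x ≤ C - (lw D (fun i => Q i) x - lw D X.o x) := e4 ▸ r3 x hx
      rw [e2]
      linarith [mul_le_mul_of_nonneg_left (abs_le.1 (tb x hx)).2 (Nat.cast_nonneg (α := ℝ) k)]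
    have h2 : normSq (ip (y · x) (t · x) / nsq (t · x)) ≤ nsq (y · x) / nsq (t · x) := by
      rw [map_div₀, normSq_ofReal, div_le_div_iff₀ (mul_pos p0 p0) p0, ← mul_assoc]
      exact mul_le_mul_of_nonneg_right (cs _ _) p0.le
    have h3 := EST.sq_sub (F x) (ip (y · x) (t · x) / nsq (t · x)) 0
    rw [sub_zero, sub_zero, ← normSq_neg (F x - _), neg_sub] at h3
    refine (mul_le_mul (h3.trans (add_le_add_left (mul_le_mul_of_nonneg_left h2 zero_le_two) _))
      h1 (Real.exp_pos _).le ?_).trans_eq ?_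
    · have := normSq_nonneg (ip (y · x) (t · x) / nsq (t · x) - F x)
      have := nsq_nonneg (y · x)
      positivity
    · rw [wt_succ t ρ k p0]
      ring

end Pool.Agent.Lib.NV2
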