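import Pool.Agent.Lib.NV2.Blue

/-! Project NV2, row LVB. -/

open scoped Classical Topology ContDiff ENNReal
open Set MeasureTheory Complex Metric Filter

noncomputable section

namespace Pool.Agent.Lib.NV2

open Pool.Agent.Lib.SV (E nsq)
open Pool.Agent.Lib.HS32 Pool.Agent.Lib.EX Pool.Agent.Lib.EXS Pool.Agent.Lib.ZL
open Pool.Agent.Lib.EXS.K32

namespace LVB

variable {n : ℕ}

/-- The Levi form of a smooth function is bounded on the closed unit ball. -/
theorem lv_bd {u : E n → ℝ} (hu : ∀ z, ‖z‖ ≤ 1 → ContDiffAt ℝ ∞ u z) :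
    ∃ L, 0 ≤ L ∧ ∀ z, ‖z‖ ≤ 1 → ∀ v, lv u z v ≤ L * ‖v‖ ^ 2 := by
  have hc : ContinuousOn (fun p : E n × E n => lv u p.1 p.2)
      (closedBall 0 1 ×ˢ closedBall 0 1) := fun p hp => by
    have h1 : ContinuousAt (fun p : E n × E n => hess (fun x => (u x : ℂ)) p.1) p :=
      ContinuousAt.comp (x := p) (f := Prod.fst)
        (smM_hess (cd_ofReal (hu _ (mem_closedBall_zero_iff.1 hp.1)))).continuousAt
        continuousAt_fst
    have h2 : Continuous fun p : Mat n × E n => nq p.1 p.2 := by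
      unfold nq
      fun_prop
    exact (h2.continuousAt.comp (h1.prodMk continuousAt_snd)).continuousWithinAt
  obtain ⟨L, hL⟩ := ((isCompact_closedBall (0 : E n) 1).prod
    (isCompact_closedBall (0 : E n) 1)).exists_bound_of_continuousOn hc
  refine ⟨|L|, abs_nonneg L, fun z hz v => ?_⟩
  rcases eq_or_ne v 0 with rfl | hv
  · simp [lv, nq]
  have h1 := norm_pos_iff.2 hv
  have h2 := ((le_abs_self _).trans (hL (z, ‖v‖⁻¹ • v) ⟨mem_closedBall_zero_iff.2 hz,
    by simp [norm_smul, h1.ne']⟩)).trans (le_abs_self L)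
  dsimp only at h2
  rw [lv, nq_sm, ← lv, inv_pow, inv_mul_le_iff₀ (pow_pos h1 2)] at h2
  linarith

end LVB

open LVB in
theorem bLVB (hPW : ZL.St_PW) (hUPB : ZL.St_UPB) (hTRF : ZL.St_TRF) : St_LVB := by
  intro n M _ ι _ _ D X P hG
  obtain ⟨-, -, -, -, -, u6, u7⟩ := hUPB n M ι D P
  obtain ⟨r, G, C, g1, g2⟩ := u7 hG
  obtain ⟨-, -, -, -, -, -, -, -, p9, -⟩ := hPW n M ι D
  obtain ⟨K, -, hK⟩ := p9 (3 / 2) (by norm_num)
  have loc : ∀ d : D.A, ∃ L, 0 ≤ L ∧ ∀ z, ‖z‖ ≤ 1 → Off (D.c d) z →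
      ContDiffAt ℝ ∞ (D.rd (lg G) d) z ∧ ∀ v, lv (D.rd (lg G) d) z v ≤ L * ‖v‖ ^ 2 := by
    intro d
    choose S s1 s2 using fun a => show ∃ s : E n → ℂ, DifferentiableOn ℂ s (B2 n) ∧
      ∀ z ∈ B2 n, Off (D.c d) z → s z = xm (D.c d) P z * D.rd (G a) d z from
        ⟨_, u6 _ _ ((g1 a).1 d)⟩
    have b2 : ∀ z : E n, ‖z‖ ≤ 1 → z ∈ B2 n := fun z hz =>
      mem_ball_zero_iff.2 (hz.trans_lt one_lt_two)
    have hT : ∀ z ∈ B2 n, HolN (fun y a => S a y) z := fun z hz =>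
      (isOpen_ball.eventually_mem hz).mono fun y hy =>
        differentiableAt_pi.2 fun a => (s1 a).differentiableAt (isOpen_ball.mem_nhds hy)
    have e1 : ∀ y ∈ B2 n, Off (D.c d) y → nsq (fun a => S a y) =
        normSq (xm (D.c d) P y) * nsq (G · ((D.e d).symm y)) := fun y hy ho => by
      rw [nsq, nsq, Finset.mul_sum]
      exact Finset.sum_congr rfl fun a _ => by rw [s2 a y hy ho, map_mul]; rfl
    have lo : ∀ y : E n, ‖y‖ < 3 / 2 → Off (D.c d) y →
        1 ≤ Real.exp (K * ∑ i, |(P i : ℝ)|) * C * nsq (fun a => S a y) := fun y hy ho => by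
      have hy2 : y ∈ B2 n := mem_ball_zero_iff.2 (hy.trans (by norm_num))
      have a1 := g2 _ ((ZQ.off_symm D hy2).2 ho)
      have a2 := (hK (fun i => P i) d y hy.le ho).2
      rw [xr_exp fun i _ => ho i, ← xm_exp fun i _ => ho i] at a2
      have a3 := mul_le_mul a2 a1 (Real.exp_pos _).le
        (mul_nonneg (Real.exp_pos _).le (normSq_nonneg _))
      rw [Ad.rd, ← Real.exp_add, add_neg_cancel, Real.exp_zero] at a3
      rw [e1 y hy2 ho, nsq]
      linarith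
    have ne : ∀ z : E n, ‖z‖ ≤ 1 → (fun a => S a z) ≠ 0 := fun z hz h0 => by
      have c1 : ContinuousAt (fun y => Real.exp (K * ∑ i, |(P i : ℝ)|) * C *
          nsq (fun a => S a y)) z :=
        continuousAt_const.mul (cd_nsq (hT z (b2 z hz))).continuousAt
      have c2 : ∀ᶠ y in 𝓝 z, ‖y‖ < 3 / 2 :=
        continuous_norm.continuousAt.eventually_lt_const (hz.trans_lt (by norm_num))
      have c3 := isClosed_Ici.mem_of_frequently_of_tendsto
        (((MON.off_freq (D.c d) z).and_eventually c2).mono fun y hy => lo y hy.2 hy.1) c1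
      have c4 : 1 ≤ Real.exp (K * ∑ i, |(P i : ℝ)|) * C * nsq (fun a => S a z) := c3
      rw [h0, nsq] at c4
      simp only [Pi.zero_apply, map_zero, Finset.sum_const_zero, mul_zero] at c4
      linarith
    obtain ⟨L, L0, hL⟩ := lv_bd fun z hz => (lv_lg (hT z (b2 z hz)) (ne z hz)).1
    refine ⟨L, L0, fun z hz ho => ?_⟩
    have hx : HolN (xm (D.c d) P) z := (MON.off_ev ho).mono fun y hy =>
      MON.diff_xm fun i => Or.inl (hy i)
    obtain ⟨l1, l2⟩ := lv_log hx (MON.xm_ne P ho)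
    have l3 := (lv_lg (hT z (b2 z hz)) (ne z hz)).1
    have e : D.rd (lg G) d =ᶠ[𝓝 z] fun y => Real.log (nsq fun a => S a y) -
        Real.log (normSq (xm (D.c d) P y)) := by
      filter_upwards [isOpen_ball.eventually_mem (b2 z hz), MON.off_ev ho,
        (cd_nsq (hT z (b2 z hz))).continuousAt.eventually_ne (nsq_pos (ne z hz)).ne'] with y a1 a2 a3
      rw [e1 y a1 a2] at a3 ⊢
      rw [Real.log_mul (left_ne_zero_of_mul a3) (right_ne_zero_of_mul a3), add_sub_cancel_left]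
      rfl
    refine ⟨(l3.sub l1).congr_of_eventuallyEq e, fun v => ?_⟩
    rw [lv_congr e, lv_sub l3 l1, l2, sub_zero]
    exact hL z hz v
  choose L L0 hL using loc
  obtain ⟨c, c0, hc⟩ := X.αs
  have S0 : 0 < ∑ d, L d + 1 := add_pos_of_nonneg_of_pos (Finset.sum_nonneg fun d _ => L0 d) one_pos
  obtain ⟨t1, t2, -⟩ := hTRF n M ι D
  refine ⟨r, G, c / (∑ d, L d + 1), div_pos c0 S0, ⟨g1, C, g2⟩, t2 _ (t1 ℝ _ fun d z hz ho h1 =>
    (X.αp.1 d z hz ho).sub (contDiffAt_const.mul (hL d z h1 ho).1)) fun d z hz ho h1 v => ?_⟩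
  have a1 := hc d z hz ho h1 v
  have a2 := (hL d z h1 ho).2 v
  have a3 : L d ≤ ∑ d, L d + 1 :=
    (Finset.single_le_sum (fun d _ => L0 d) (Finset.mem_univ d)).trans (by linarith)
  have a4 := lv_sub (X.αp.1 d z hz ho) (contDiffAt_const (c := c / (∑ d, L d + 1)).mul
    (hL d z h1 ho).1) v
  rw [lv_mul (hL d z h1 ho).1] at a4
  refine le_of_le_of_eq ?_ a4.symm
  have a5 : c / (∑ d, L d + 1) * lv (D.rd (lg G) d) z v ≤ c * ‖v‖ ^ 2 := by
    rw [div_mul_eq_mul_div, div_le_iff₀ S0, mul_assoc]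
    exact mul_le_mul_of_nonneg_left
      (a2.trans (by rw [mul_comm]; exact mul_le_mul_of_nonneg_left a3 (sq_nonneg _))) c0.le
  linarith

end Pool.Agent.Lib.NV2
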