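import Pool.Agent.Lib.NV2.Blue

/-! Project NV2: the distance to the tangent space. -/

open scoped Classical Topology ContDiff ENNReal
open Set MeasureTheory Complex Metric Filter

set_option linter.unusedSectionVars false

noncomputable section

namespace Pool.Agent.Lib.NV2

open Pool.Agent.Lib.SV (E nsq nsq_nonneg)
open Pool.Agent.Lib.HS32 Pool.Agent.Lib.EX Pool.Agent.Lib.EXS Pool.Agent.Lib.ZL

namespace MEA

variable {n r : ℕ} (T : E n → Fin r → ℂ) (z : E n) (y y' : Fin r → ℂ)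

theorem nsq_smul (c : ℂ) : nsq (c • y) = normSq c * nsq y := by
  simp [nsq, Finset.mul_sum]

theorem nsq_tri (p : Fin r → ℂ) : nsq (y - p) ≤ 2 * nsq (y' - p) + 2 * nsq (y - y') := by
  simp only [nsq, Finset.mul_sum, ← Finset.sum_add_distrib, Pi.sub_apply]
  refine Finset.sum_le_sum fun i _ => ?_
  simp only [normSq_apply, sub_re, sub_im]
  nlinarith [sq_nonneg ((y i).re + (p i).re - 2 * (y' i).re),
    sq_nonneg ((y i).im + (p i).im - 2 * (y' i).im)]

theorem norm_le : ‖y‖ ≤ √(nsq y) :=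
  (pi_norm_le_iff_of_nonneg (Real.sqrt_nonneg _)).2 fun i => by
    rw [Complex.norm_def]
    exact Real.sqrt_le_sqrt (Finset.single_le_sum (f := fun i => normSq (y i))
      (fun _ _ => normSq_nonneg _) (Finset.mem_univ i))

theorem cont_nsq : Continuous (nsq : (Fin r → ℂ) → ℝ) :=
  continuous_finsetSum _ fun i _ => continuous_normSq.comp (continuous_apply i)

theorem mem_iff : y ∈ Submodule.span ℂ (range (frm T z)) ↔
    ∃ p : ℂ × E n, p.1 • T z + fderiv ℂ T z p.2 = y := by
  have e : ∀ v : E n, fderiv ℂ T z v = ∑ j, v j • fderiv ℂ T z (Pi.single j 1) := fun v => by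
    conv_lhs => rw [pi_eq_sum_univ' v]
    simp only [map_sum, map_smul]
  rw [Submodule.mem_span_range_iff_exists_fun]
  refine ⟨fun ⟨c, h⟩ => ⟨(c 0, fun j => c j.succ), ?_⟩, fun ⟨p, h⟩ => ⟨Fin.cons p.1 p.2, ?_⟩⟩
  · rw [← h, e, Fin.sum_univ_succ]
    rfl
  · rw [← h, e, Fin.sum_univ_succ]
    rfl

theorem dst_nonneg : 0 ≤ dst T z y := Real.iInf_nonneg fun _ => nsq_nonneg _

theorem dst_le (p : ℂ × E n) : dst T z y ≤ nsq (y - (p.1 • T z + fderiv ℂ T z p.2)) :=
  ciInf_le ⟨0, by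
    rintro _ ⟨p, rfl⟩
    exact nsq_nonneg _⟩ p

theorem dst_smul (c : ℂ) : dst T z (c • y) = normSq c * dst T z y := by
  rcases eq_or_ne c 0 with rfl | hc
  · refine le_antisymm ((dst_le T z _ 0).trans ?_) (by simpa using dst_nonneg T z _)
    simp [nsq]
  have s : Function.Surjective fun p : ℂ × E n => c • p := fun p => ⟨c⁻¹ • p, smul_inv_smul₀ hc p⟩
  rw [dst, dst, Real.mul_iInf_of_nonneg (normSq_nonneg c), ← s.iInf_comp]
  refine iInf_congr fun p => ?_
  rw [← nsq_smul, Prod.smul_fst, Prod.smul_snd, map_smul, smul_assoc, ← smul_add, ← smul_sub]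

theorem dst_zero (h : dst T z y = 0) : y ∈ Submodule.span ℂ (range (frm T z)) := by
  have := FiniteDimensional.span_of_finite ℂ (finite_range (frm T z))
  refine (Submodule.closed_of_finiteDimensional _).closure_subset
    (Metric.mem_closure_iff.2 fun ε h0 => ?_)
  obtain ⟨p, hp⟩ := exists_lt_of_ciInf_lt (h.trans_lt (sq_pos_of_pos h0))
  exact ⟨_, (mem_iff T z _).2 ⟨p, rfl⟩, by
    rw [dist_eq_norm]
    exact (norm_le _).trans_lt ((Real.sqrt_lt' h0).2 hp)⟩

variable {M : Mf n} {ι : Type} [Fintype ι] [DecidableEq ι] (D : Ad M ι) (t : Fin r → M.X → ℂ)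
  {x : M.X}

theorem df_le {d : D.A} (h : x ∈ (D.e d).source) : df D t x y ≤ dst (rv D t d) (D.e d x) y :=
  ciInf_le (f := fun d : {d : D.A // x ∈ (D.e d).source} => dst (rv D t d) (D.e d x) y)
    (finite_range _).bddBelow ⟨d, h⟩

theorem df_eq (x : M.X) :
    ∃ d, x ∈ (D.e d).source ∧ df D t x y = dst (rv D t d) (D.e d x) y := by
  have : Nonempty {d : D.A // x ∈ (D.e d).source} := nonempty_subtype.2 (GLU.ex_ch D x)
  obtain ⟨d, h⟩ := exists_eq_ciInf_of_finite
    (f := fun d : {d : D.A // x ∈ (D.e d).source} => dst (rv D t d) (D.e d x) y)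
  exact ⟨d, d.2, h.symm⟩

/-- Upper semicontinuity. -/
theorem usc (ht : ∀ a, HoO D (t a)) {y : M.X → Fin r → ℂ} (hy : ContinuousAt y x) (hx : x ∈ off D)
    {a : ℝ} (h : df D t x (y x) < a) : ∀ᶠ w in 𝓝 x, df D t w (y w) < a := by
  obtain ⟨d, h1, h2⟩ := df_eq (y x) D t x
  obtain ⟨p, hp⟩ := exists_lt_of_ciInf_lt (h2.symm.trans_lt h)
  have hh : HolN (rv D t d) (D.e d x) := (eventually_all.2 fun a =>
    ht a d _ (GLU.mem_B2 h1) ((GLU.mem_off h1).1 hx)).mono fun w hw => differentiableAt_pi.2 hw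
  have c := SV.H85.contDiffAt_nat hh 1
  have e := (D.e d).continuousAt h1
  have k : ContinuousAt (fun w => nsq (y w - (p.1 • rv D t d (D.e d w) +
      fderiv ℂ (rv D t d) (D.e d w) p.2))) x :=
    cont_nsq.continuousAt.comp (hy.sub (((c.continuousAt.comp e).const_smul p.1).add
      (((c.continuousAt_fderiv (by simp)).comp e).clm_apply continuousAt_const)))
  filter_upwards [k.eventually_lt_const hp, (D.e d).open_source.mem_nhds h1] with w a b
  exact ((df_le _ D t b).trans (dst_le _ _ _ p)).trans_lt a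

end MEA

open MEA in
theorem bMEA (hPW : ZL.St_PW) (hMU : ZL.St_MU) : St_MEA := by
  intro n M _ ι _ _ D X r t ht
  refine ⟨fun x y y' c => ⟨Real.iInf_nonneg fun _ => dst_nonneg _ _ _, ?_, ?_,
    fun d hd p hp => ?_, fun h => ?_⟩, fun y hy => ?_⟩
  · rw [df, df, Real.mul_iInf_of_nonneg (normSq_nonneg c)]
    exact iInf_congr fun d => dst_smul _ _ _ c
  · obtain ⟨d, h1, h2⟩ := df_eq y' D t x
    have : (df D t x y - 2 * nsq (y - y')) / 2 ≤ dst (rv D t d) (D.e d x) y' :=
      le_ciInf fun p => by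
        linarith [(df_le y D t h1).trans ((dst_le _ _ y p).trans (nsq_tri y y' _))]
    linarith
  · obtain ⟨p, rfl⟩ := (mem_iff _ _ _).1 hp
    exact (df_le y D t hd).trans (dst_le _ _ y p)
  · obtain ⟨d, h1, h2⟩ := df_eq y D t x
    exact ⟨d, h1, dst_zero _ _ _ (h2.symm.trans h)⟩
  · have ho := (hPW n M ι D).1
    rw [← Measure.restrict_eq_self_of_ae_mem (hMU n M ι D X).1]
    refine aemeasurable_restrict_of_measurable_subtype ho.measurableSet
      (measurable_of_Iio fun a => (isOpen_iff_mem_nhds.2 fun x hx => ?_).measurableSet)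
    exact (continuous_subtype_val.tendsto x).eventually
      (usc D t ht (hy.continuousAt (ho.mem_nhds x.2)) x.2 hx)

end Pool.Agent.Lib.NV2
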