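import Pool.Agent.Lib.NV2.Blue

/-! Project NV2: a representative of least norm. -/

open scoped Classical Topology ENNReal
open Set MeasureTheory Complex

noncomputable section

namespace Pool.Agent.Lib.NV2

open Pool.Agent.Lib.SV (E nsq)

namespace MIN

variable {Y : Type} [MeasurableSpace Y] {μ : Measure Y}

/-- The nearest point of a finite-dimensional space of square integrable functions. -/
theorem near {H : Type} [NormedAddCommGroup H] [InnerProductSpace ℂ H]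
    (W : Submodule ℂ (Y → H)) [FiniteDimensional ℂ W] (hW : ∀ b ∈ W, MemLp b 2 μ) (u : Y → H)
    (hu : AEStronglyMeasurable u μ) :
    ∃ b ∈ W, ∀ b' ∈ W, eLpNorm (u - b) 2 μ ≤ eLpNorm (u - b') 2 μ := by
  by_cases h : ∃ b₀ ∈ W, eLpNorm (u - b₀) 2 μ < ⊤
  · obtain ⟨b₀, hb₀, hlt⟩ := h
    have h1 : MemLp (u - b₀) 2 μ := ⟨hu.sub (hW b₀ hb₀).1, hlt⟩
    have h2 : MemLp u 2 μ := by
      have h3 := h1.add (hW b₀ hb₀)
      rwa [sub_add_cancel] at h3
    let L : W →ₗ[ℂ] Lp H 2 μ :=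
      { toFun := fun b => (hW b b.2).toLp b
        map_add' := fun b c => MemLp.toLp_add (hW b b.2) (hW c c.2)
        map_smul' := fun c b => MemLp.toLp_const_smul c (hW b b.2) }
    have hK : IsComplete ((LinearMap.range L : Submodule ℂ (Lp H 2 μ)) : Set (Lp H 2 μ)) :=
      Submodule.complete_of_finiteDimensional _
    obtain ⟨v, ⟨b, rfl⟩, hv⟩ :=
      Submodule.exists_norm_eq_iInf_of_complete_subspace _ hK (h2.toLp u)
    have hn : ∀ c : W, ‖h2.toLp u - L c‖ = (eLpNorm (u - (c : Y → H)) 2 μ).toReal := fun c => by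
      have h4 : h2.toLp u - L c = (h2.sub (hW c c.2)).toLp (u - (c : Y → H)) :=
        (MemLp.toLp_sub h2 (hW c c.2)).symm
      rw [h4, Lp.norm_toLp]
    refine ⟨b, b.2, fun b' hb' => ?_⟩
    have h5 : ‖h2.toLp u - L b‖ ≤ ‖h2.toLp u - L ⟨b', hb'⟩‖ := by
      rw [hv]
      exact ciInf_le (f := fun w : ((LinearMap.range L : Submodule ℂ (Lp H 2 μ)) :
        Set (Lp H 2 μ)) => ‖h2.toLp u - w‖) ⟨0, by rintro _ ⟨w, rfl⟩; exact norm_nonneg _⟩
        ⟨L ⟨b', hb'⟩, ⟨b', hb'⟩, rfl⟩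
    rw [hn, hn] at h5
    exact (ENNReal.toReal_le_toReal (h2.sub (hW b b.2)).2.ne (h2.sub (hW b' hb')).2.ne).1 h5
  · refine ⟨0, W.zero_mem, fun b' hb' => ?_⟩
    have h6 : eLpNorm (u - b') 2 μ = ⊤ := by
      by_contra h7
      exact h ⟨b', hb', lt_top_iff_ne_top.2 h7⟩
    rw [h6]
    exact le_top

variable {κ : Type} [Fintype κ]

/-- The weighted vector. -/
def gw (w : Y → ℝ) : (κ → Y → ℂ) →ₗ[ℂ] Y → EuclideanSpace ℂ κ where
  toFun f x := WithLp.toLp 2 fun i => (√(w x) : ℝ) * f i x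
  map_add' f g := by
    funext x
    ext i
    simp only [Pi.add_apply, PiLp.add_apply, mul_add]
  map_smul' c f := by
    funext x
    ext i
    simp only [Pi.smul_apply, PiLp.smul_apply, smul_eq_mul, RingHom.id_apply]
    ring

theorem gw_meas {w : Y → ℝ} (hw : AEMeasurable w μ) {f : κ → Y → ℂ}
    (hf : ∀ i, AEMeasurable (f i) μ) : AEStronglyMeasurable (gw w f) μ := by
  have h1 : AEMeasurable (fun x => fun i => ((√(w x) : ℝ) : ℂ) * f i x) μ :=
    aemeasurable_pi_lambda _ fun i =>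
      (Complex.measurable_ofReal.comp_aemeasurable hw.sqrt).mul (hf i)
  exact (PiLp.continuous_toLp 2 fun _ : κ => ℂ).comp_aestronglyMeasurable h1.aestronglyMeasurable

omit [MeasurableSpace Y] in
theorem gw_norm {w : Y → ℝ} (hw : ∀ x, 0 ≤ w x) (f : κ → Y → ℂ) (x : Y) :
    ‖gw w f x‖ₑ ^ (2 : ℕ) = ENNReal.ofReal (nsq (f · x) * w x) := by
  have h1 : ‖gw w f x‖ ^ 2 = nsq (f · x) * w x := by
    rw [EuclideanSpace.norm_sq_eq, nsq, Finset.sum_mul]
    refine Finset.sum_congr rfl fun i _ => ?_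
    show ‖((√(w x) : ℝ) : ℂ) * f i x‖ ^ 2 = _
    rw [norm_mul, mul_pow, Complex.norm_real, Real.norm_eq_abs, sq_abs, Real.sq_sqrt (hw x),
      Complex.normSq_eq_norm_sq, mul_comm]
  rw [← h1, ← ofReal_norm, ENNReal.ofReal_pow (norm_nonneg _)]

theorem gw_int {w : Y → ℝ} (hw : ∀ x, 0 ≤ w x) (f : κ → Y → ℂ) :
    eLpNorm (gw w f) 2 μ ^ (2 : ℕ) = ∫⁻ x, ENNReal.ofReal (nsq (f · x) * w x) ∂μ := by
  have h1 := eLpNorm_nnreal_pow_eq_lintegral (f := gw w f) (μ := μ) (p := 2) two_ne_zero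
  simp only [ENNReal.coe_ofNat, NNReal.coe_ofNat, ENNReal.rpow_ofNat] at h1
  rw [h1]
  exact lintegral_congr fun x => gw_norm hw f x

end MIN

theorem bMIN : St_MIN := by
  intro Y κ _ _ μ B w η hB hw hw0 hη hb
  have hW : ∀ b ∈ B.map (MIN.gw w), MemLp b 2 μ := by
    rintro _ ⟨b, hbB, rfl⟩
    refine ⟨MIN.gw_meas hw (hb b hbB).1, lt_top_iff_ne_top.2 fun h => (hb b hbB).2 ?_⟩
    rw [← MIN.gw_int hw0, h]
    simp
  obtain ⟨_, ⟨b, hbB, rfl⟩, hmin⟩ := MIN.near (B.map (MIN.gw w)) hW (MIN.gw w η)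
    (MIN.gw_meas hw hη)
  refine ⟨b, hbB, fun b' hb' => ?_⟩
  have h1 := hmin (MIN.gw w b') ⟨b', hb', rfl⟩
  rw [← map_sub, ← map_sub] at h1
  have h2 := pow_le_pow_left' h1 2
  rw [MIN.gw_int hw0, MIN.gw_int hw0] at h2
  exact h2

end Pool.Agent.Lib.NV2
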