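import Pool.Agent.Lib.NV2.Blue

/-! Project NV2, row NEX: a non-zero Euler characteristic gives a tangent cocycle. -/

open scoped Classical Topology ContDiff ENNReal
open Set MeasureTheory Complex Metric Filter

set_option linter.unusedVariables false

noncomputable section

namespace Pool.Agent.Lib.NV2

open Pool.Agent.Lib.SV (E nsq)
open Pool.Agent.Lib.HS32 Pool.Agent.Lib.EX Pool.Agent.Lib.EXS Pool.Agent.Lib.ZL
open Pool.Agent.Lib.ZQ (HqC)

namespace NEX

/-- The terms of the truncated complex. -/
def VV {n : ℕ} {M : Mf n} {ι : Type} [Fintype ι] [DecidableEq ι] (D : Ad M ι) (P Q : ι → ℤ)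
    (k : ℕ) : Submodule ℂ (M.X → ℂ) :=
  if k = 0 then ⊥ else Submodule.span ℂ {F | Sp D (fun i => Q i + k * P i) F}

theorem VV_zero {n : ℕ} {M : Mf n} {ι : Type} [Fintype ι] [DecidableEq ι] (D : Ad M ι)
    (P Q : ι → ℤ) : VV D P Q 0 = ⊥ := if_pos rfl

theorem VV_pos {n : ℕ} {M : Mf n} {ι : Type} [Fintype ι] [DecidableEq ι] (D : Ad M ι)
    (P Q : ι → ℤ) {k : ℕ} (hk : k ≠ 0) :
    VV D P Q k = Submodule.span ℂ {F | Sp D (fun i => Q i + k * P i) F} := if_neg hk

theorem wg_zero {r : ℕ} (t : Fin r → ℂ) : wg t (0 : Ex r) = 0 := by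
  funext I
  simp [wg]

end NEX

open NEX in
theorem bNEX (hEUL : St_EUL) (hCHN : St_CHN) (hHAR : St_HAR) (hTAN : St_TAN) : St_NEX := by
  intro n M _ ι _ _ D X r P Q t C A hH hK hI hW hne
  by_contra hno
  apply hne
  obtain ⟨hsp, hfin, hmul, -⟩ := hCHN n M ι D X r
  have key := hEUL M.X r t (VV D P Q) ?_ ?_ ?_ ?_
  · refine Eq.trans (Finset.sum_congr rfl fun k _ => ?_) key
    by_cases hk : k = 0
    · subst hk
      rw [VV_zero, if_pos rfl, finrank_bot]
      rfl
    · rw [VV_pos D P Q hk, if_neg hk]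
      rfl
  · intro k
    by_cases hk : k = 0
    · subst hk
      rw [VV_zero]
      infer_instance
    · rw [VV_pos D P Q hk]
      exact hfin _
  · intro k a F hF
    by_cases hk : k = 0
    · subst hk
      rw [VV_zero, Submodule.mem_bot] at hF
      rw [hF, mul_zero]
      exact Submodule.zero_mem _
    · rw [VV_pos D P Q hk, hsp] at hF
      rw [VV_pos D P Q (Nat.succ_ne_zero k), hsp]
      have h := hmul _ _ _ _ (hK.1 a) hF
      have e : (P + fun i => Q i + (k : ℤ) * P i) = fun i => Q i + ((k + 1 : ℕ) : ℤ) * P i := by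
        funext i
        simp only [Pi.add_apply]
        push_cast
        ring
      rw [e] at h
      exact h
  · intro F hF _
    rw [VV_zero, Submodule.mem_bot] at hF
    exact hF
  · intro k η hη hdeg hcoc
    have hch : Ch D (k + 1) (fun i => Q i + (k + 1 : ℕ) * P i) η := by
      refine ⟨fun I => ?_, hdeg⟩
      have h := hη I
      rw [VV_pos D P Q (Nat.succ_ne_zero k), hsp] at h
      exact h
    by_cases h0η : η = 0
    · refine ⟨0, fun J => Submodule.zero_mem _, fun J _ => rfl, fun x => ?_⟩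
      subst h0η
      exact (wg_zero _).symm
    have hkr : k < r := by
      by_contra hlt
      apply h0η
      funext I
      apply hdeg
      have h1 : I.card ≤ r := by simpa using Finset.card_le_univ I
      omega
    by_cases hk : k = 0
    · subst hk
      exact absurd ⟨0, η, hkr, h0η, hch, hcoc,
        (hTAN n M ι D X r P _ t η hK hI hch.1).2 hch hcoc⟩ hno
    by_contra hnH
    obtain ⟨η', h0', hch', hcoc', hae⟩ := hHAR n M ι D X r k P Q t C A η hH hK hW
      (Nat.one_le_iff_ne_zero.2 hk) hch hcoc (by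
        intro H hH' heq
        apply hnH
        refine ⟨H, fun J => ?_, hH'.2, fun x => ?_⟩
        · rw [VV_pos D P Q hk, hsp]
          exact hH'.1 J
        · funext I
          rw [heq]
          rfl)
    exact hno ⟨k, η', hkr, h0', hch', hcoc', (hTAN n M ι D X r P _ t η' hK hI hch'.1).1 hae⟩

end Pool.Agent.Lib.NV2
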