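import Pool.Agent.Lib.NV2.Blue

/-! Project NV2, row NV2: the theorem in tensor form. -/

open scoped Classical Topology ContDiff ENNReal
open Set MeasureTheory Complex Metric Filter

noncomputable section

namespace Pool.Agent.Lib.NV2

open Pool.Agent.Lib.SV (E nsq)
open Pool.Agent.Lib.HS32 Pool.Agent.Lib.EX Pool.Agent.Lib.EXS Pool.Agent.Lib.ZL

theorem bNV2 (hNVK : St_NVK) (hTEN : St_TEN) : St_NV2 := by
  intro n M _ ι _ _ D X r c Q ν t P hq hK hI hα hZ hG hP h0'
  by_contra! hc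
  have hf : (⋃ q ∈ Iio r, {a : ℕ | ∃ b, Ten D q (fun i => Q i + a * ν i) b}).Finite :=
    (finite_Iio r).biUnion fun q _ => hc q
  have h1 := hf.eventually_cofinite_notMem
  rw [Nat.cofinite_eq_atTop] at h1
  obtain ⟨a, ⟨q, η, q1, q2, q3, q4, q5⟩, ha⟩ :=
    ((hNVK n M ι D X r c Q ν t P hq hK hI hα hZ hG hP h0').and h1).exists
  exact ha (mem_biUnion q1
    (hTEN n M ι D r q (fun i => X.e i) (fun i => Q i + a * ν i) t η hK hI q2 q3 q4 q5))

end Pool.Agent.Lib.NV2
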