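import Pool.Agent.Lib.NV2.Blue
import Pool.Agent.Lib.ZL.B_PW

/-! Project NV2, row NVK: the theorem in Koszul form. -/

open scoped Classical Topology ContDiff ENNReal
open Set MeasureTheory Complex Metric Filter

noncomputable section

namespace Pool.Agent.Lib.NV2

open Pool.Agent.Lib.SV (E nsq)
open Pool.Agent.Lib.HS32 Pool.Agent.Lib.EX Pool.Agent.Lib.EXS Pool.Agent.Lib.ZL

namespace NVK

variable {n : ℕ} {M : Mf n} {ι : Type} [Fintype ι] [DecidableEq ι] {D : Ad M ι}

/-- Plurisubharmonicity only depends on the values off the divisor. -/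
theorem psh_off {f g : M.X → ℝ} (hf : Psh D f) (h : ∀ x ∈ off D, f x = g x) : Psh D g := by
  have e : D.On (off D) fun d z => D.rd f d =ᶠ[𝓝 z] D.rd g d := fun d z hz ho =>
    (GLU.ev_on (PW.open_off D) hz ho).mono fun w hw => h _ hw.2
  refine ⟨fun d z hz ho => (hf.1 d z hz ho).congr_of_eventuallyEq (oa_iff.2 e d z hz ho).symm,
    fun d z hz ho v => ?_⟩
  rw [← K32.lv_congr (oa_iff.2 e d z hz ho)]
  exact hf.2 d z hz ho v

/-- The class of weights only depends on the values of the reference weight off the divisor. -/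
theorem wt_off {X : Cx D} {Q : ι → ℤ} {β β' ρ : M.X → ℝ} {C A ε : ℝ} (hw : Wt X Q β C A ε ρ)
    (h : ∀ x ∈ off D, β x = β' x) : Wt X Q β' C A ε ρ :=
  ⟨hw.1, psh_off hw.2.1 fun x hx => by rw [h x hx], hw.2.2⟩

end NVK

theorem bNVK (hPOL0 : St_POL0) (hNEX : St_NEX) (hHIL : St_HIL) : St_NVK := by
  intro n M _ ι _ _ D X r c Q ν t P hq hK hI hα hZ hG hP h0'
  obtain ⟨R, R1, R2⟩ := hHIL n M ι D X r c Q ν t hq hK hα hZ hG
  have h := hPOL0 (fun a j => h0 D fun i => Q i + a * ν i + j * X.e i) r R P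
    (fun a j hj => by rw [Int.cast_natCast]; exact R1 a j hj) R2
    (hP.mono fun j hj => by simpa using hj) h0'
  filter_upwards [h] with a ha
  obtain ⟨C, A, hw⟩ := hZ a
  exact hNEX n M ι D X r (fun i => X.e i) (fun i => Q i + a * ν i) t C A hq hK hI
    (fun ε hε => (hw ε hε).imp fun ρ hρ => NVK.wt_off hρ hα) ha

end Pool.Agent.Lib.NV2
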