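import Pool.Agent.Lib.NV2.Ex

/-! Project NV2: the value at zero of a two-variable Hilbert polynomial. -/

open Polynomial

noncomputable section

namespace Pool.Agent.Lib.NV2

namespace POL0

/-- Evaluation in both variables, inner variable first. -/
theorem ev_swap (Q : Polynomial (Polynomial ℚ)) (x a : ℚ) :
    (Q.eval (C x)).eval a = (Q.map (evalRingHom a)).eval x := by
  rw [eval_map]
  have h := eval₂_at_apply (p := Q) (evalRingHom a) (C x)
  simp only [coe_evalRingHom, eval_C] at h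
  exact h.symm

end POL0

theorem bPOL0 : St_POL0 := by
  intro f r Q P h1 h2 h3 h4
  have hP : Q.map (evalRingHom (0 : ℚ)) = P := by
    apply Polynomial.eq_of_infinite_eval_eq
    obtain ⟨N, hN⟩ := Filter.eventually_atTop.1 h3
    have hinf : Set.Infinite ((fun j : ℕ => (j : ℚ)) '' Set.Ici (N + 1)) :=
      (Set.Ici_infinite _).image (Nat.cast_injective.injOn)
    refine hinf.mono ?_
    rintro _ ⟨j, hj, rfl⟩
    have hj' : N + 1 ≤ j := hj
    have e1 := h1 0 j (by omega)
    have e2 := hN j (by omega)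
    rw [POL0.ev_swap] at e1
    simp only [Nat.cast_zero] at e1
    show eval (j : ℚ) (Q.map (evalRingHom (0 : ℚ))) = eval (j : ℚ) P
    rw [← e1, e2]
  have hne : Q.eval (C (0 : ℚ)) ≠ 0 := by
    intro h0
    apply h4
    rw [← hP, ← POL0.ev_swap, h0, eval_zero]
  have hfin : Set.Finite {a : ℕ | (Q.eval (C (0 : ℚ))).eval (a : ℚ) = 0} := by
    have h5 : Set.Finite {x : ℚ | IsRoot (Q.eval (C (0 : ℚ))) x} := finite_setOf_isRoot hne
    exact h5.preimage (f := fun a : ℕ => (a : ℚ)) (Nat.cast_injective.injOn)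
  have hev : ∀ᶠ a : ℕ in Filter.atTop, (Q.eval (C (0 : ℚ))).eval (a : ℚ) ≠ 0 := by
    rw [← Nat.cofinite_eq_atTop]
    exact hfin.compl_mem_cofinite
  refine hev.mono fun a ha hs => ha ?_
  have hq : ∑ k ∈ Finset.range (r + 1),
      (-1 : ℚ) ^ k * r.choose k * (if k = 0 then 0 else (f a k : ℚ)) = 0 := by
    have h6 := congrArg (fun z : ℤ => (z : ℚ)) hs
    simp only [Int.cast_sum, Int.cast_mul, Int.cast_pow, Int.cast_neg, Int.cast_one,
      Int.cast_natCast, Int.cast_ite, Int.cast_zero] at h6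
    exact h6
  have h7 := h2 a
  rw [Finset.sum_range_succ'] at h7 hq
  have h8 : ∑ k ∈ Finset.range r, (-1 : ℚ) ^ (k + 1) * r.choose (k + 1) *
      (Q.eval (C ((k + 1 : ℕ) : ℚ))).eval (a : ℚ) = ∑ k ∈ Finset.range r,
      (-1 : ℚ) ^ (k + 1) * r.choose (k + 1) * (if k + 1 = 0 then 0 else (f a (k + 1) : ℚ)) := by
    refine Finset.sum_congr rfl fun k _ => ?_
    rw [if_neg (Nat.succ_ne_zero k), h1 a (k + 1) (by omega)]
  rw [h8] at h7
  simp only [pow_zero, Nat.choose_zero_right, Nat.cast_one, mul_one, one_mul, Nat.cast_zero,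
    if_true, mul_zero, add_zero] at h7 hq
  rw [hq, zero_add] at h7
  exact h7

end Pool.Agent.Lib.NV2
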