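import Pool.Agent.Lib.NV2.Ex

/-! Project NV2, row POL2: a function killed by two difference operators is a polynomial. -/

open Polynomial

noncomputable section

namespace Pool.Agent.Lib.NV2

namespace POL2

/-- The binomial polynomial. -/
def bn (i : ℕ) : ℚ[X] := C ((i.factorial : ℚ)⁻¹) * descPochhammer ℚ i

theorem bn_eval (i a : ℕ) : (bn i).eval (a : ℚ) = a.choose i := by
  rw [Nat.cast_choose_eq_descPochhammer_div ℚ, bn, eval_mul, eval_C, div_eq_inv_mul]

/-- The formula of Newton. -/
theorem newton {G : Type} [AddCommGroup G] (g : ℕ → G) (r : ℕ)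
    (h : ∀ j, ∑ k ∈ Finset.range (r + 1), ((-1 : ℤ) ^ k * r.choose k) • g (j + k) = 0) :
    ∃ D : ℕ → G, ∀ j, g j = ∑ i ∈ Finset.range r, j.choose i • D i := by
  have h1 : (fwdDiff 1)^[r] g = 0 := by
    funext j
    have := congrArg (fun x => ((-1 : ℤ) ^ r) • x) (h j)
    rw [fwdDiff_iter_eq_sum_shift]
    simp only [smul_zero, Finset.smul_sum, smul_smul] at this
    refine Eq.trans (Finset.sum_congr rfl fun k hk => ?_) this
    obtain ⟨m, rfl⟩ := Nat.exists_eq_add_of_le (Nat.lt_succ_iff.1 (Finset.mem_range.1 hk))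
    have e : ((-1 : ℤ) ^ k) * (-1) ^ k = 1 := by rw [← mul_pow]; simp
    rw [Nat.add_sub_cancel_left, smul_eq_mul, mul_one, pow_add]
    congr 1
    linear_combination (-((-1 : ℤ) ^ m * ((k + m).choose k : ℤ))) * e
  have h2 : ∀ i, r ≤ i → (fwdDiff 1)^[i] g = 0 := fun i hi => by
    obtain ⟨m, rfl⟩ := Nat.exists_eq_add_of_le' hi
    rw [Function.iterate_add_apply, h1]
    exact Function.iterate_fixed (_root_.funext fun x => by simp [fwdDiff]) m
  refine ⟨fun i => (fwdDiff 1)^[i] g 0, fun j => ?_⟩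
  have h3 := shift_eq_sum_fwdDiff_iter 1 g j 0
  rw [zero_add, smul_eq_mul, mul_one] at h3
  rw [h3, Finset.sum_subset (Finset.range_mono (Nat.le_add_right (j + 1) r)),
    ← Finset.sum_subset (Finset.range_mono (Nat.le_add_left r (j + 1)))]
  · intro i _ hi
    rw [h2 i (by simpa using hi), Pi.zero_apply, smul_zero]
  · intro i _ hi
    rw [Nat.choose_eq_zero_of_lt (by have := Finset.mem_range.not.1 hi; omega), zero_smul]

/-- A polynomial that vanishes at the positive integers is zero. -/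
theorem zero_of {p : ℚ[X]} (h : ∀ j : ℕ, 1 ≤ j → p.eval (j : ℚ) = 0) : p = 0 :=
  p.eq_zero_of_infinite_isRoot (((Set.Ici_infinite 1).image
    (Nat.cast_injective (R := ℚ)).injOn).mono (by rintro _ ⟨j, hj, rfl⟩; exact h j hj))

end POL2

open POL2 in
theorem bPOL2 : St_POL2 := by
  intro f r r' c h1 h2
  have hp : ∀ a, ∃ p : ℚ[X], ∀ j ≥ 1, (f a j : ℚ) = p.eval (j : ℚ) := fun a => by
    obtain ⟨D, hD⟩ := newton (fun j => f a (j + 1)) r fun j => by
      simpa only [smul_eq_mul, Int.cast_id, add_right_comm j _ 1] using h1 a (j + 1) (by omega)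
    refine ⟨∑ i ∈ Finset.range r, C (D i : ℚ) * (bn i).comp (X - 1), fun j hj => ?_⟩
    obtain ⟨j, rfl⟩ := Nat.exists_eq_add_of_le' hj
    rw [hD j]
    simp [eval_finsetSum, bn_eval, mul_comm]
  choose p hp using hp
  have hq : ∀ a : ℕ, ∑ k ∈ Finset.range (r' + 1), ((-1 : ℤ) ^ k * r'.choose k) •
      (p (a + k)).comp (X + C ((c * k : ℕ) : ℚ)) = 0 := fun a => zero_of fun j hj => by
    have := congrArg (Int.cast : ℤ → ℚ) (h2 a j hj)
    rw [Int.cast_sum, Int.cast_zero] at this
    rw [eval_finsetSum, ← this]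
    refine Finset.sum_congr rfl fun k _ => ?_
    rw [Int.cast_mul, hp _ _ (le_add_right hj)]
    simp
  obtain ⟨D, hD⟩ := newton (fun a => (p a).comp (X + C ((c * a : ℕ) : ℚ))) r' fun a => by
    have := congrArg (fun q : ℚ[X] => q.comp (X + C ((c * a : ℕ) : ℚ))) (hq a)
    simp only [zero_comp, sum_comp] at this
    refine Eq.trans (Finset.sum_congr rfl fun k _ => ?_) this
    rw [smul_comp, comp_assoc]
    congr 2
    simp only [add_comp, X_comp, C_comp, add_assoc, ← C_add]
    push_cast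
    rw [mul_add]
  have key : ∀ (a : ℕ) (x : ℚ), ((∑ i ∈ Finset.range r', C (bn i) * ((D i).map C).comp
      (X - C (C (c : ℚ) * X))).eval (C x)).eval (a : ℚ) = (p a).eval x := fun a x => by
    have := congrArg (fun q : ℚ[X] => q.eval (x - c * a)) (hD a)
    simp only [eval_comp, eval_add, eval_X, eval_C, eval_finsetSum] at this
    push_cast at this
    rw [sub_add_cancel] at this
    rw [this]
    simp only [eval_finsetSum, eval_mul, eval_C, eval_comp, eval_sub, eval_X, bn_eval]
    refine Finset.sum_congr rfl fun i _ => ?_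
    have e : ((D i).map C).eval (C x - C (c : ℚ) * X) = (D i).comp (C x - C (c : ℚ) * X) := by
      rw [eval_map, comp]
    rw [e]
    simp [eval_comp]
  refine ⟨_, fun a j hj => (hp a j hj).trans (key a j).symm, fun a => ?_⟩
  have h3 : ∑ k ∈ Finset.range (r + 1), ((-1 : ℤ) ^ k * r.choose k) •
      (p a).comp (X + C (k : ℚ)) = 0 := zero_of fun j hj => by
    have := congrArg (Int.cast : ℤ → ℚ) (h1 a j hj)
    rw [Int.cast_sum, Int.cast_zero] at this
    rw [eval_finsetSum, ← this]
    refine Finset.sum_congr rfl fun k _ => ?_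
    rw [Int.cast_mul, hp _ _ (le_add_right hj)]
    simp
  have h4 := congrArg (fun q : ℚ[X] => q.eval 0) h3
  simp only [eval_finsetSum, eval_zero] at h4
  refine Eq.trans (Finset.sum_congr rfl fun k _ => ?_) h4
  rw [key]
  simp

end Pool.Agent.Lib.NV2
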