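import Pool.Agent.Lib.NV2.Blue
import Pool.Agent.Lib.SV.Base

/-! Project NV2: the basic estimate for a cocycle. -/

open scoped Classical Topology ContDiff ENNReal ComplexConjugate
open Set MeasureTheory Complex Metric Filter

noncomputable section

namespace Pool.Agent.Lib.NV2

open Pool.Agent.Lib.SV (E nsq nsq_nonneg)
open Pool.Agent.Lib.HS32 Pool.Agent.Lib.EX Pool.Agent.Lib.EXS Pool.Agent.Lib.ZL

namespace STEP

variable {n r : ℕ}

theorem t_mem (T : E n → Fin r → ℂ) (z : E n) :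
    T z ∈ Submodule.span ℂ (range (frm T z)) := Submodule.subset_span ⟨0, rfl⟩

theorem d_mem (T : E n → Fin r → ℂ) (z v : E n) :
    fderiv ℂ T z v ∈ Submodule.span ℂ (range (frm T z)) := by
  have h : v = ∑ j, v j • (Pi.single j 1 : E n) := by
    ext i
    simp [Finset.sum_apply, Pi.single_apply]
  rw [h, map_sum]
  refine Submodule.sum_mem _ fun j _ => ?_
  rw [map_smul]
  exact Submodule.smul_mem _ _ (Submodule.subset_span ⟨j.succ, rfl⟩)

theorem ne_of {t : Fin r → ℂ} (h : 0 < nsq t) : t ≠ 0 := by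
  rintro rfl
  simp [nsq] at h

theorem ip_cn (t : Fin r → ℂ) (η : Ex r) (J : Finset (Fin r)) :
    ip (col η J) t = cn (star t) η J :=
  Finset.sum_congr rfl fun i _ => by simp [mul_comm]

/-- The pointwise identities. -/
theorem alg (hC : St_CAR) {k : ℕ} {t : Fin r → ℂ} {η : Ex r} (ht : 0 < nsq t)
    (hk : Hm (k + 1) η) (h0 : wg t η = 0) :
    (∀ H : Ex r, nsq (η - wg t H) ≤
      (∑ J, normSq (ip (col η J) t / nsq t - H J)) * nsq t) ∧
    ∑ J, (nsq (col η J) - normSq (ip (col η J) t) / nsq t) = k * nsq η := by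
  obtain ⟨-, -, -, c4, -, c6, -, c8, c9, -⟩ := hC r
  have hN : (nsq t : ℂ) ≠ 0 := by exact_mod_cast ht.ne'
  have e0 : cn (star t) (0 : Ex r) = 0 := by
    have := (c6 (star t) 0 0 0).2.2.2.2.2.1
    rwa [zero_smul, zero_smul] at this
  have e1 : ∑ i, (star t) i * t i = (nsq t : ℂ) := by
    simp [nsq, normSq_eq_conj_mul_self]
  have e2 := c4 (star t) t η
  rw [h0, e0, zero_add, e1] at e2
  refine ⟨fun H => ?_, ?_⟩
  · have e3 : wg t ((nsq t : ℂ)⁻¹ • cn (star t) η) = η := by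
      rw [(c6 t _ 0 _).2.2.1, e2, smul_smul, inv_mul_cancel₀ hN, one_smul]
    have e4 : η - wg t H = wg t ((nsq t : ℂ)⁻¹ • cn (star t) η - H) := by
      rw [(c6 t _ H 0).2.1, e3]
    have e5 : ∑ J, normSq (ip (col η J) t / nsq t - H J) =
        nsq ((nsq t : ℂ)⁻¹ • cn (star t) η - H) :=
      Finset.sum_congr rfl fun J _ => by
        rw [ip_cn, div_eq_inv_mul]
        rfl
    rw [e4, e5, mul_comm, ← c9]
    exact le_add_of_nonneg_right (nsq_nonneg _)
  · have e6 := c9 t η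
    have e7 : nsq (0 : Ex r) = 0 := by simp [nsq]
    rw [h0, e7, zero_add] at e6
    have e8 : ∑ J, normSq (ip (col η J) t) = nsq (cn (star t) η) :=
      Finset.sum_congr rfl fun J _ => by rw [ip_cn]
    rw [Finset.sum_sub_distrib, ← Finset.sum_div, e8, e6, (c8 (k + 1) t η).2.2.2.2 hk]
    push_cast
    field_simp
    ring

theorem wt_succ {Y : Type} (t : Fin r → Y → ℂ) (ρ : Y → ℝ) (k : ℕ) {x : Y}
    (h : 0 < nsq (t · x)) : nsq (t · x) * wt t ρ (k + 1) x = wt t ρ k x := by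
  have e : -(ρ x + k * lg t x) = lg t x + -(ρ x + (k + 1 : ℕ) * lg t x) := by
    push_cast
    ring
  rw [wt, wt, e, Real.exp_add, lg, Real.exp_log h]

theorem am_nsq {Y κ : Type} [MeasurableSpace Y] [Fintype κ] {μ : Measure Y} {y : κ → Y → ℂ}
    (h : ∀ i, AEMeasurable (y i) μ) : AEMeasurable (fun x => nsq (y · x)) μ :=
  Finset.aemeasurable_fun_sum _ fun i _ => continuous_normSq.measurable.comp_aemeasurable (h i)

theorem am_ip {Y κ : Type} [MeasurableSpace Y] [Fintype κ] {μ : Measure Y} {y t : κ → Y → ℂ}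
    (h : ∀ i, AEMeasurable (y i) μ) (h' : ∀ i, AEMeasurable (t i) μ) :
    AEMeasurable (fun x => ip (y · x) (t · x)) μ :=
  Finset.aemeasurable_fun_sum _ fun i _ =>
    (h i).mul (continuous_conj.measurable.comp_aemeasurable (h' i))

theorem int_sum {Y κ : Type} [MeasurableSpace Y] [Fintype κ] {μ : Measure Y} {f : κ → Y → ℝ}
    (h : ∀ i, AEMeasurable (f i) μ) (h0 : ∀ᵐ x ∂μ, ∀ i, 0 ≤ f i x) :
    ∫⁻ x, ENNReal.ofReal (∑ i, f i x) ∂μ = ∑ i, ∫⁻ x, ENNReal.ofReal (f i x) ∂μ := by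
  rw [← lintegral_finsetSum' _ fun i _ => (h i).ennreal_ofReal]
  exact lintegral_congr_ae (h0.mono fun x hx => ENNReal.ofReal_sum_of_nonneg fun i _ => hx i)

end STEP

open STEP in
theorem bSTEP (hPW : St_PW) (hMU : ZL.St_MU) (hUPB : St_UPB) (hCAR : St_CAR) (hBES : St_BES)
    (hMEA : St_MEA) (hCHN : St_CHN) (hKEY : St_KEY) : St_STEP := by
  intro n M _ ι _ _ D X r k P Q t C A ε ρ η hq hK hW hε hη hc
  obtain ⟨-, hcov, -⟩ := hPW n M ι D
  obtain ⟨hae, -, hmono, -⟩ := hMU n M ι D X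
  obtain ⟨s1, -, -, -, -, -, s7, s8⟩ := hCHN n M ι D X r
  obtain ⟨m1, m2⟩ := hMEA n M ι D X r t fun a => ((hUPB n M ι D P).1 _ (hK.1 a).1).1
  obtain ⟨tp, -, -, tw⟩ := s8 P t hK
  have c8 := (hCAR r).2.2.2.2.2.2.2.1
  have hm : ∀ x, Hm (k + 1) (η · x) := fun x I hI => congrFun (hη.2 I hI) x
  have z0 : ∀ R, Sp D R 0 := fun R => (s1 R 0).1 (Submodule.zero_mem _)
  obtain ⟨y, hy⟩ : ∃ y : Finset (Fin r) → Fin r → M.X → ℂ, y = fun J a x => col (η · x) J a :=
    ⟨_, rfl⟩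
  have ey : ∀ J x, (y J · x) = col (η · x) J := fun J x => by rw [hy]
  have ysp : ∀ J a, Sp D (fun i => Q i + (k + 1 : ℕ) * P i) (y J a) := fun J a => by
    by_cases h : a ∈ J
    · have e : y J a = 0 := by
        funext x
        simp [hy, col, h]
      rw [e]
      exact z0 _
    · have e : y J a = sg a J • η (insert a J) := by
        funext x
        simp [hy, col, h]
      rw [e]
      exact (s1 _ _).1 (Submodule.smul_mem _ _ ((s1 _ _).2 (hη.1 _)))
  obtain ⟨h, hh⟩ : ∃ h : Finset (Fin r) → M.X → ℝ, h = fun J x => nsq (y J · x) -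
      normSq (ip (y J · x) (t · x)) / nsq (t · x) - df D t x (y J · x) := ⟨_, rfl⟩
  have at' : ∀ a, AEMeasurable (t a) X.μ := fun a => (s7 _ _ (hK.1 a)).2.1
  have ay : ∀ J a, AEMeasurable (y J a) X.μ := fun J a => (s7 _ _ (ysp J a)).2.1
  have ad : ∀ J, AEMeasurable (fun x => df D t x (y J · x)) X.μ := fun J =>
    m2 _ (continuousOn_pi.2 fun a => (s7 _ _ (ysp J a)).1)
  have ah : ∀ J, AEMeasurable (h J) X.μ := fun J => by
    rw [hh]
    exact ((am_nsq (ay J)).sub ((continuous_normSq.measurable.comp_aemeasurable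
      (am_ip (ay J) at')).div (am_nsq at'))).sub (ad J)
  have bes : ∀ J d, ∀ x ∈ off D, x ∈ (D.e d).source → 0 ≤ h J x ∧ ∀ v,
      normSq (ip (y J · x) (prp (t · x) (fderiv ℂ (rv D t d) (D.e d x) v))) ≤
        h J x * nsq (prp (t · x) (fderiv ℂ (rv D t d) (D.e d x) v)) := fun J d x hx hd => by
    have e : rv D t d (D.e d x) = (t · x) := funext fun a => GLU.rd_e _ hd
    have b := fun u => hBES r _ (t · x) u (y J · x) _ (ne_of (tp x hx))
      (e ▸ t_mem (rv D t d) (D.e d x)) ((m1 x (y J · x) 0 0).2.2.2.1 d hd)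
    rw [hh]
    exact ⟨(b 0).1, fun v => (b _).2 (d_mem _ _ v)⟩
  have h0 : ∀ J, ∀ x ∈ off D, 0 ≤ h J x := fun J x hx => by
    obtain ⟨d, hd, -⟩ := hcov x
    exact (bes J d x hx hd).1
  have key : ∀ J, ∃ H, Sp D (fun i => Q i + k * P i) H ∧ (J.card ≠ k → H = 0) ∧
      ENNReal.ofReal (k - ε) *
        X.I (fun x => normSq (ip (y J · x) (t · x) / nsq (t · x) - H x) * wt t ρ k x) ≤
      X.I fun x => h J x * wt t ρ (k + 1) x := fun J => by
    by_cases hJ : J.card = k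
    · obtain ⟨H, a, b⟩ := hKEY n M ι D X r k P Q t (y J) C A ε ρ (h J) hq hK hW hε (ysp J) (ah J)
        (fun x hx => ⟨h0 J x hx, by
          have := (m1 x (y J · x) 0 0).1
          have : 0 ≤ normSq (ip (y J · x) (t · x)) / nsq (t · x) :=
            div_nonneg (normSq_nonneg _) (nsq_nonneg _)
          rw [hh]
          beta_reduce
          linarith⟩)
        fun d z hz ho v => by
          have hs := GLU.mem_src d hz
          have b := (bes J d _ ((GLU.mem_off hs).2 (by rwa [GLU.rinv d hz])) hs).2 v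
          rw [GLU.rinv d hz] at b
          exact b
      exact ⟨H, a, fun c => absurd hJ c, b⟩
    · refine ⟨0, z0 _, fun _ => rfl, le_of_eq_of_le ?_ zero_le⟩
      have e : ∀ x, ip (y J · x) (t · x) = 0 := fun x => by
        rw [ey, (c8 k 0 _).2.2.2.1 (hm x) J hJ]
        simp [ip]
      simp [Cx.I, e]
  choose H H1 H2 H3 using key
  have hH : Ch D k (fun i => Q i + k * P i) H := ⟨H1, H2⟩
  obtain ⟨_, w0⟩ := tw k Q C A H hH
  obtain ⟨_, w1⟩ := tw (k + 1) Q C A η hη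
  have aw0 := (w0 _ _ _ hW).1
  have aw1 := (w1 _ _ _ hW).1
  have wp : ∀ j x, 0 ≤ wt t ρ j x := fun j x => (Real.exp_pos _).le
  refine ⟨H, hH, ?_⟩
  have i1 : Nm X t ρ (k + 1) (η - Wg t H) ≤ ∑ J,
      X.I fun x => normSq (ip (y J · x) (t · x) / nsq (t · x) - H J x) * wt t ρ k x := by
    refine (hmono _ (fun x => ∑ J,
      normSq (ip (y J · x) (t · x) / nsq (t · x) - H J x) * wt t ρ k x) fun x hx => ?_).trans_eq
      (int_sum (fun J => ?_) (ae_of_all _ fun x J => mul_nonneg (normSq_nonneg _) (wp _ _)))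
    · rw [← Finset.sum_mul, ← wt_succ t ρ k (tp x hx), ← mul_assoc]
      refine mul_le_mul_of_nonneg_right ?_ (wp _ _)
      simp only [ey]
      exact (alg hCAR (tp x hx) (hm x) (hc x)).1 (H · x)
    · exact (continuous_normSq.measurable.comp_aemeasurable (((am_ip (ay J) at').div
        (continuous_ofReal.measurable.comp_aemeasurable (am_nsq at'))).sub
        (s7 _ _ (H1 J)).2.1)).mul aw0
  have i2 : (∑ J, X.I fun x => h J x * wt t ρ (k + 1) x) +
      X.I (fun x => Df D t x (η · x) * wt t ρ (k + 1) x) = k * Nm X t ρ (k + 1) η := by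
    have p1 : ∀ᵐ x ∂X.μ, ∀ J, 0 ≤ h J x * wt t ρ (k + 1) x :=
      hae.mono fun x hx J => mul_nonneg (h0 J x hx) (wp _ _)
    have a1 : ∀ J, AEMeasurable (fun x => h J x * wt t ρ (k + 1) x) X.μ := fun J => (ah J).mul aw1
    simp only [Nm, Cx.I]
    rw [← int_sum a1 p1, ← lintegral_add_left' (Finset.aemeasurable_fun_sum _
      fun J _ => a1 J).ennreal_ofReal, ← lintegral_const_mul' _ _ (ENNReal.natCast_ne_top k)]
    refine lintegral_congr_ae ((hae.and p1).mono fun x hx => ?_)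
    have p2 : 0 ≤ Df D t x (η · x) * wt t ρ (k + 1) x :=
      mul_nonneg (Finset.sum_nonneg fun J _ => (m1 x _ 0 0).1) (wp _ _)
    beta_reduce
    rw [← ENNReal.ofReal_add (Finset.sum_nonneg fun J _ => hx.2 J) p2, ← ENNReal.ofReal_natCast k,
      ← ENNReal.ofReal_mul (Nat.cast_nonneg k), ← Finset.sum_mul, ← add_mul, ← mul_assoc,
      ← (alg hCAR (tp x hx.1) (hm x) (hc x)).2, Df, ← Finset.sum_add_distrib]
    simp only [hh, ey, sub_add_cancel]
  rw [← i2]
  refine add_le_add_left ((mul_le_mul_right i1 _).trans ?_) _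
  rw [Finset.mul_sum]
  exact Finset.sum_le_sum fun J _ => H3 J

end Pool.Agent.Lib.NV2
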