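import Pool.Agent.Lib.NV2.Blue
import Pool.Agent.Lib.EX.B_MON

/-! Project NV2, block TAN: tangent almost everywhere is tangent. -/

open scoped Classical Topology ContDiff ENNReal
open Set MeasureTheory Complex Metric Filter

set_option linter.unusedSectionVars false

noncomputable section

namespace Pool.Agent.Lib.NV2

open Pool.Agent.Lib.SV (E nsq)
open Pool.Agent.Lib.HS32 Pool.Agent.Lib.EX Pool.Agent.Lib.EXS Pool.Agent.Lib.ZL

namespace TAN

variable {n r : ℕ} {M : Mf n} {ι : Type} [Fintype ι] [DecidableEq ι] {D : Ad M ι}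

/-- A property that holds almost everywhere holds near every point of a chart. -/
theorem freq (hMU : ZL.St_MU) [M.Cpt] (X : Cx D) {p : M.X → Prop} (h : ∀ᵐ x ∂X.μ, p x) (d : D.A)
    {z : E n} (hz : z ∈ B2 n) : ∃ᶠ y in 𝓝 z, p ((D.e d).symm y) := by
  intro hn
  obtain ⟨ρ, h1, h2⟩ := exists_between (mem_ball_zero_iff.1 hz)
  obtain ⟨C, hC⟩ := (hMU n M ι D X).2.2.2.2 ρ h2 0
  have h3 := hC 0 (fun x => if p x then 0 else 1) d fun i => by simp
  have h4 : X.I (fun x => (if p x then 0 else 1) * Real.exp (lw D (0 - X.o) x)) = 0 := by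
    rw [Cx.I, lintegral_congr_ae (g := fun _ => 0) (h.mono fun x hx => by simp [hx])]
    exact lintegral_zero
  rw [h4, mul_zero] at h3
  obtain ⟨U, hU, ho, hzU⟩ := _root_.eventually_nhds_iff.1
    (hn.and (isOpen_ball.eventually_mem (mem_ball_zero_iff.2 h1)))
  have h5 : volume U ≤ ∫⁻ y in closedBall (0 : E n) ρ, ENNReal.ofReal
      (D.rd (fun x => if p x then (0 : ℝ) else 1) d y * xr (D.c d) 0 y) := by
    rw [← setLIntegral_one]
    refine (setLIntegral_mono' ho.measurableSet fun y hy => ?_).trans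
      (lintegral_mono_set fun y hy => ball_subset_closedBall (hU y hy).2)
    have : ¬p ((D.e d).symm y) := (hU y hy).1
    simp [Ad.rd, xr, this]
  exact (ho.measure_pos volume ⟨z, hzU⟩).not_ge (h5.trans h3)

theorem hol_rv {t : Fin r → M.X → ℂ} (ht : ∀ a, HoO D (t a)) (d : D.A) {z : E n} (hz : z ∈ B2 n)
    (ho : Off (D.c d) z) : HolN (rv D t d) z :=
  (eventually_all.2 fun a => ht a d z hz ho).mono fun _ hy => differentiableAt_pi.2 hy

/-- The change of charts. -/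
theorem chg {t : Fin r → M.X → ℂ} (ht : ∀ a, HoO D (t a)) {x : M.X} (hx : x ∈ off D) {a d : D.A}
    (ha : x ∈ (D.e a).source) (hd : x ∈ (D.e d).source) (c : ℂ) (v : E n) : ∃ w,
    c • rv D t a (D.e a x) + fderiv ℂ (rv D t a) (D.e a x) v =
      c • rv D t d (D.e d x) + fderiv ℂ (rv D t d) (D.e d x) w := by
  have e0 : (D.e a).symm (D.e a x) = x := (D.e a).left_inv ha
  have hs : ∀ᶠ y in 𝓝 (D.e a x), y ∈ B2 n ∧ (D.e a).symm y ∈ (D.e d).source :=
    GLU.ev_on (D.e d).open_source (GLU.mem_B2 ha) (e0.symm ▸ hd)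
  have h1 : DifferentiableAt ℂ (D.e d ∘ (D.e a).symm) (D.e a x) :=
    (M.hol _ (D.mem d) _ (D.mem a)).differentiableAt
      (hs.mono fun y hy => ⟨GLU.mem_tgt a hy.1, hy.2⟩)
  have e1 : (D.e d ∘ (D.e a).symm) (D.e a x) = D.e d x := congrArg (D.e d) e0
  have h2 : DifferentiableAt ℂ (rv D t d) ((D.e d ∘ (D.e a).symm) (D.e a x)) :=
    e1 ▸ (hol_rv ht d (GLU.mem_B2 hd) (hx d hd)).self_of_nhds
  have e2 : rv D t a =ᶠ[𝓝 (D.e a x)] rv D t d ∘ D.e d ∘ (D.e a).symm := hs.mono fun y hy =>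
    funext fun b => (GLU.rd_e (t b) hy.2).symm
  refine ⟨fderiv ℂ (D.e d ∘ (D.e a).symm) (D.e a x) v, ?_⟩
  rw [e2.fderiv_eq, fderiv_comp _ h2 h1, e2.self_of_nhds, Function.comp_apply, e1]
  rfl

/-- The immersion property for the sections themselves. -/
theorem imm {T V : E n → Fin r → ℂ} {g : E n → ℂ} {z : E n} (hT : DifferentiableAt ℂ T z)
    (hg : DifferentiableAt ℂ g z) (h0 : g z ≠ 0) (e : V =ᶠ[𝓝 z] fun y => g y • T y)
    (h : ∀ (c : ℂ) (v : E n), c • V z + fderiv ℂ V z v = 0 → c = 0 ∧ v = 0) (c : ℂ) (v : E n)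
    (hc : c • T z + fderiv ℂ T z v = 0) : c = 0 ∧ v = 0 := by
  have e1 : fderiv ℂ V z v = g z • fderiv ℂ T z v + fderiv ℂ g z v • T z := by
    rw [e.fderiv_eq, fderiv_fun_smul hg hT]
    rfl
  obtain ⟨h1, h2⟩ := h (c - fderiv ℂ g z v / g z) v (by
    rw [e1, e.self_of_nhds, eq_neg_of_add_eq_zero_right hc, smul_smul, sub_mul,
      div_mul_cancel₀ _ h0, smul_neg, smul_smul, sub_smul, mul_comm c]
    abel)
  refine ⟨?_, h2⟩
  simpa [h2] using h1

theorem span_eq {m : ℕ} {lam u : Fin m → Fin r → ℂ} (h : Dual lam u) {y : Fin r → ℂ}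
    (hy : y ∈ Submodule.span ℂ (range u)) : y = ∑ a, (∑ i, lam a i * y i) • u a := by
  obtain ⟨c, rfl⟩ := (Submodule.mem_span_range_iff_exists_fun ℂ).1 hy
  refine Finset.sum_congr rfl fun a _ => congrArg (· • u a) ?_
  simp only [Finset.sum_apply, Pi.smul_apply, smul_eq_mul, Finset.mul_sum]
  rw [Finset.sum_comm]
  simp only [mul_left_comm _ (c _), ← Finset.mul_sum, h a, mul_ite, mul_one, mul_zero,
    Finset.sum_ite_eq, Finset.mem_univ, if_true]

/-- The span of a continuous frame is closed. -/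
theorem closed {m : ℕ} {lam u : E n → Fin m → Fin r → ℂ} {y : E n → Fin r → ℂ} {z : E n}
    (hl : ContinuousAt lam z) (hu : ContinuousAt u z) (hy : ContinuousAt y z)
    (hd : ∀ᶠ w in 𝓝 z, Dual (lam w) (u w))
    (h : ∃ᶠ w in 𝓝 z, y w ∈ Submodule.span ℂ (range (u w))) :
    y z ∈ Submodule.span ℂ (range (u z)) := by
  have h1 : ContinuousAt (fun w => ∑ a, (∑ i, lam w a i * y w i) • u w a) z :=
    tendsto_finsetSum _ fun a _ => (tendsto_finsetSum _ fun i _ =>
      (continuousAt_pi.1 (continuousAt_pi.1 hl a) i).mul (continuousAt_pi.1 hy i)).smul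
        (continuousAt_pi.1 hu a)
  rw [tendsto_nhds_unique_of_frequently_eq hy h1
    ((h.and_eventually hd).mono fun w hw => span_eq hw.2 hw.1)]
  exact Submodule.sum_mem _ fun a _ => Submodule.smul_mem _ _ (Submodule.subset_span ⟨a, rfl⟩)

/-- A cocycle of degree one is a multiple of `t`. -/
theorem deg1 (hCAR : St_CAR) {t : Fin r → ℂ} {G : Ex r} (ht : 0 < nsq t) (hG : Hm 1 G)
    (h : wg t G = 0) (J : Finset (Fin r)) : ∃ c : ℂ, col G J = c • t := by
  obtain ⟨-, -, -, c4, -, c6, -, c8, -⟩ := hCAR r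
  by_cases hJ : J = ∅
  · obtain ⟨a, ha⟩ : ∃ a, t a ≠ 0 := by
      by_contra! h0
      simp [nsq, h0] at ht
    have e := c4 (Pi.single a (t a)⁻¹) t G
    have e0 : ∀ ξ : Fin r → ℂ, cn ξ 0 = 0 := fun ξ => by
      simpa using (c6 ξ 0 0 0).2.2.2.2.2.1
    have e1 : ∑ i, (Pi.single a (t a)⁻¹ : Fin r → ℂ) i * t i = 1 := by
      simp [Pi.single_apply, ha]
    rw [h, e0, zero_add, e1, one_smul] at e
    refine ⟨cn (Pi.single a (t a)⁻¹) G ∅, funext fun i => ?_⟩
    have e2 := congrFun e {i}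
    simp only [wg, Finset.sum_singleton, Finset.erase_singleton] at e2
    have e3 : ∀ I : Finset (Fin r), I ⊆ {i} → sg i I = 1 := fun I hI => by
      rw [sg, Finset.filter_eq_empty_iff.2 fun j hj => (Finset.mem_singleton.1 (hI hj)).not_lt]
      simp
    simp [col, hJ, e3, ← e2, mul_comm]
  · exact ⟨0, by rw [(c8 0 t G).2.2.2.1 hG J (by simpa using hJ), zero_smul]⟩

end TAN

open TAN in
theorem bTAN (hMU : ZL.St_MU) (hUPB : ZL.St_UPB) (hCAR : St_CAR) (hINV : St_INV) (hMEA : St_MEA)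
    (hCHN : St_CHN) : St_TAN := by
  intro n M _ ι _ _ D X r P Q t η hK hI hη
  obtain ⟨u1, -, -, -, -, u6, -⟩ := hUPB n M ι D P
  have ht : ∀ a, HoO D (t a) := fun a => (u1 _ (hK.1 a).1).1
  have hoff : ∀ d, ∀ z ∈ B2 n, Off (D.c d) z → (D.e d).symm z ∈ off D := fun d z hz ho =>
    (GLU.mem_off (GLU.mem_src d hz)).2 ((GLU.rinv d hz).symm ▸ ho)
  refine ⟨fun h d z hz ho J => ?_, fun h1 h2 d z hz ho J => ?_⟩
  · have m := (hMEA n M ι D X r t ht).1
    have hT := hol_rv ht d hz ho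
    obtain ⟨i1, i2, -⟩ := hINV n r z
    obtain ⟨f1, f2, -⟩ := i2 _ hT
    have hv : vv D P t d =ᶠ[𝓝 z] fun y => xm (D.c d) P y • rv D t d y := by
      filter_upwards [isOpen_ball.eventually_mem hz, MON.off_ev ho] with w w1 w2
      exact funext fun a => (u6 _ _ fun y hy => (hK.1 a).1 d y hy).2 w w1 w2
    obtain ⟨lam, l1, l2⟩ := i1 _ _ f1 (f2 (imm hT.self_of_nhds
      (MON.diff_xm fun i => .inl (ho i)) (MON.xm_ne P ho) hv (hI d z hz)))
    · refine closed (y := fun w => col (fun I => D.rd (η I) d w) J) l1.self_of_nhds.continuousAt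
        f1.self_of_nhds.continuousAt (continuousAt_pi.2 fun i => ?_) l2 ?_
      · simp only [col]
        split_ifs
        · exact continuousAt_const
        · exact continuousAt_const.mul
            (((hUPB n M ι D Q).1 _ (hη _).1).1 d z hz ho).self_of_nhds.continuousAt
      · refine ((freq hMU X h d hz).and_eventually ((isOpen_ball.eventually_mem hz).and
          (MON.off_ev ho))).mono fun w ⟨hw, w1, w2⟩ => ?_
        have hx := hoff d w w1 w2
        obtain ⟨a, ha, hs⟩ := (m _ _ 0 0).2.2.2.2 ((Finset.sum_eq_zero_iff_of_nonneg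
          fun J _ => (m _ _ 0 0).1).1 hw J (Finset.mem_univ J))
        obtain ⟨c, v, e⟩ := (((hINV n r _).2.1 _
          (hol_rv ht a (GLU.mem_B2 ha) (hx a ha))).2.2 _).1 hs
        obtain ⟨v', e'⟩ := chg ht hx ha (GLU.mem_src d w1) c v
        rw [GLU.rinv d w1] at e'
        exact (((hINV n r w).2.1 _ (hol_rv ht d w1 w2)).2.2 _).2 ⟨c, v', e.trans e'⟩
  · obtain ⟨c, hc⟩ := deg1 hCAR (((hCHN n M ι D X r).2.2.2.2.2.2.2 P t hK).1 _ (hoff d z hz ho))
      (G := fun I => η I ((D.e d).symm z)) (fun I hI' => congrFun (h1.2 I hI') _) (h2 _) J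
    exact hc ▸ Submodule.smul_mem _ _ (Submodule.subset_span ⟨0, rfl⟩)

end Pool.Agent.Lib.NV2
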