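import Pool.Agent.Lib.NV2.B_TAN

/-! Project NV2, block TEN: the tensor of a tangent cocycle. -/

open scoped Classical Topology ContDiff ENNReal
open Set Complex Metric Filter

set_option linter.unusedSectionVars false

noncomputable section

namespace Pool.Agent.Lib.NV2

open Pool.Agent.Lib.SV (E nsq)
open Pool.Agent.Lib.HS32 Pool.Agent.Lib.EX Pool.Agent.Lib.EXS Pool.Agent.Lib.ZL

namespace TEN

variable {n r q : ℕ} {M : Mf n} {ι : Type} [Fintype ι] [DecidableEq ι] {D : Ad M ι}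

/-- A chosen left inverse. -/
def li90 {m : ℕ} (u : Fin m → Fin r → ℂ) : Fin m → Fin r → ℂ :=
  Classical.epsilon fun lam => Dual lam u

theorem li_dual90 {m : ℕ} {lam u : Fin m → Fin r → ℂ} (h : Dual lam u) : Dual (li90 u) u :=
  Classical.epsilon_spec (p := fun lam => Dual lam u) ⟨lam, h⟩

theorem sum_one90 (I : Fin q → Fin n) (f : (Fin q → Fin n) → ℂ) :
    ∑ I' : Fin q → Fin n, (∏ p, (1 : Matrix (Fin n) (Fin n) ℂ) (I p) (I' p)) * f I' = f I := by
  rw [Finset.sum_eq_single I (fun I' _ h => ?_) (by simp)]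
  · simp
  · obtain ⟨p, hp⟩ := Function.ne_iff.1 h
    have h1 : (1 : Matrix (Fin n) (Fin n) ℂ) (I p) (I' p) = 0 := Matrix.one_apply_ne hp.symm
    exact mul_eq_zero_of_left (Finset.prod_eq_zero (Finset.mem_univ p) h1) _

theorem xm_pow90 {c : ι → Option (Fin n)} {z : E n} (ho : Off c z) (P Q : ι → ℤ) (k : ℕ) :
    xm c P z ^ k = xm c (-Q) z * xm c (fun i => Q i + k * P i) z := by
  simp only [xm, ← Finset.prod_pow, ← Finset.prod_mul_distrib]
  refine Finset.prod_congr rfl fun i _ => ?_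
  rw [← zpow_add₀ (ho i), ← zpow_natCast, ← zpow_mul]
  exact congrArg _ (by simp only [Pi.neg_apply]; ring)

/-- The frames in two charts. -/
theorem chg90 {t : Fin r → M.X → ℂ} (ht : ∀ a, HoO D (t a)) {x : M.X} (hx : x ∈ off D)
    {a d : D.A} (ha : x ∈ (D.e a).source) (hd : x ∈ (D.e d).source) (j : Fin n) :
    fderiv ℂ (rv D t d) (D.e d x) (Pi.single j 1) =
      ∑ i, D.J a d x i j • fderiv ℂ (rv D t a) (D.e a x) (Pi.single i 1) := by
  have e0 : (D.e d).symm (D.e d x) = x := (D.e d).left_inv hd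
  have hs : ∀ᶠ y in 𝓝 (D.e d x), y ∈ B2 n ∧ (D.e d).symm y ∈ (D.e a).source :=
    GLU.ev_on (D.e a).open_source (GLU.mem_B2 hd) (e0.symm ▸ ha)
  have h1 : DifferentiableAt ℂ (D.e a ∘ (D.e d).symm) (D.e d x) :=
    (M.hol _ (D.mem a) _ (D.mem d)).differentiableAt
      (hs.mono fun y hy => ⟨GLU.mem_tgt d hy.1, hy.2⟩)
  have e1 : (D.e a ∘ (D.e d).symm) (D.e d x) = D.e a x := congrArg (D.e a) e0
  have h2 : DifferentiableAt ℂ (rv D t a) ((D.e a ∘ (D.e d).symm) (D.e d x)) :=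
    e1 ▸ (TAN.hol_rv ht a (GLU.mem_B2 ha) (hx a ha)).self_of_nhds
  have e2 : rv D t d =ᶠ[𝓝 (D.e d x)] rv D t a ∘ D.e a ∘ (D.e d).symm := hs.mono fun y hy =>
    funext fun b => (GLU.rd_e (t b) hy.2).symm
  rw [e2.fderiv_eq, fderiv_comp _ h2 h1, e1, ContinuousLinearMap.comp_apply,
    ← Finset.univ_sum_single (fderiv ℂ (D.e a ∘ (D.e d).symm) (D.e d x) (Pi.single j 1)), map_sum]
  refine Finset.sum_congr rfl fun i _ => ?_
  rw [← map_smul, ← Pi.single_smul, smul_eq_mul, mul_one]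
  rfl

end TEN

open TEN in
theorem bTEN (hUPB : ZL.St_UPB) (hLIN : St_LIN) (hINV : St_INV) : St_TEN := by
  intro n M _ ι _ _ D r q P Q t η hK hI h0 hC hc hT
  obtain ⟨u1, -, -, -, -, u6, -⟩ := hUPB n M ι D P
  have ht : ∀ a, HoO D (t a) := fun a => (u1 _ (hK.1 a).1).1
  have hv : ∀ d, ∀ z ∈ B2 n, Off (D.c d) z →
      vv D P t d =ᶠ[𝓝 z] fun y => xm (D.c d) P y • rv D t d y := fun d z hz ho => by
    filter_upwards [isOpen_ball.eventually_mem hz, MON.off_ev ho] with w w1 w2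
    exact funext fun a => (u6 _ _ fun y hy => (hK.1 a).1 d y hy).2 w w1 w2
  have hd : ∀ d, ∀ z ∈ B2 n, Off (D.c d) z →
      Dual (li90 (frm (rv D t d) z)) (frm (rv D t d) z) := fun d z hz ho => by
    have h1 := TAN.hol_rv ht d hz ho
    obtain ⟨i1, i2, -⟩ := hINV n r z
    obtain ⟨f1, f2, -⟩ := i2 _ h1
    obtain ⟨lam, -, l2⟩ := i1 _ _ f1 (f2 (TAN.imm h1.self_of_nhds
      (MON.diff_xm fun i => .inl (ho i)) (MON.xm_ne P ho) (hv d z hz ho) (hI d z hz)))
    exact li_dual90 l2.self_of_nhds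
  have hL := fun d z hz ho => hLIN r n q _ _ (fun J => D.rd (η J) d z) (hd d z hz ho)
    (fun J hJ => congrFun (hC.2 J hJ) _) (hc _) (hT d z hz ho)
  refine ⟨fun d I z => tb (li90 (frm (rv D t d) z)) (fun J => D.rd (η J) d z) I,
    fun d z hz I => ?_, fun a d x ha hd' hx I => ?_, fun d z hz ho I σ => (hL d z hz ho).1 I σ, ?_⟩
  · have w := fun J => (hUPB n M ι D fun i => Q i + (q + 1 : ℕ) * P i).2.2.2.2.2.1 _ _
      fun y hy => (hC.1 J).1 d y hy
    have hV : HolN (vv D P t d) z := (isOpen_ball.eventually_mem hz).mono fun y hy =>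
      differentiableAt_pi.2 fun a => (u6 _ _ fun y hy => (hK.1 a).1 d y hy).1.differentiableAt
        (isOpen_ball.mem_nhds hy)
    have hW : HolN (fun y J => val (D.c d) (fun i => Q i + (q + 1 : ℕ) * P i) (D.rd (η J) d) y) z :=
      (isOpen_ball.eventually_mem hz).mono fun y hy => differentiableAt_pi.2 fun J =>
        (w J).1.differentiableAt (isOpen_ball.mem_nhds hy)
    obtain ⟨i1, i2, i3⟩ := hINV n r z
    obtain ⟨f1, f2, -⟩ := i2 _ hV
    obtain ⟨lam, l1, l2⟩ := i1 _ _ f1 (f2 (hI d z hz))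
    refine ⟨_, (i3 q lam _ I l1 hW).1, ?_⟩
    filter_upwards [l2, isOpen_ball.eventually_mem hz] with y y1 y2 ho
    have e := hv d y y2 ho
    have h1 := (hL d y y2 ho).2.2 _ _ (xm (D.c d) P y) 1
      (fun j => fderiv ℂ (xm (D.c d) P) y (Pi.single j 1)) y1 e.self_of_nhds (fun j => by
        simp only [frm, Fin.cons_succ, Fin.cons_zero, Matrix.one_apply, ite_smul, one_smul,
          zero_smul, Finset.sum_ite_eq', Finset.mem_univ, if_true]
        rw [e.fderiv_eq, fderiv_fun_smul (MON.diff_xm fun i => .inl (ho i))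
          (TAN.hol_rv ht d y2 ho).self_of_nhds]
        rfl) I
    have h2 : (fun J => val (D.c d) (fun i => Q i + (q + 1 : ℕ) * P i) (D.rd (η J) d) y) =
        xm (D.c d) (fun i => Q i + (q + 1 : ℕ) * P i) y • fun J => D.rd (η J) d y :=
      funext fun J => (w J).2 y y2 ho
    have h3 := (i3 q (fun _ => lam y) (fun _ J => D.rd (η J) d y) I
      (.of_forall fun _ => differentiableAt_const _)
      (.of_forall fun _ => differentiableAt_const _)).2
    rw [h1, sum_one90, h2, h3 _ y, xm_pow90 ho P Q, mul_assoc]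
  · have h1 := (hL a _ (GLU.mem_B2 ha) (hx a ha)).2.2 _ _ 1 (D.J a d x) 0
      (hd d _ (GLU.mem_B2 hd') (hx d hd'))
      (by rw [one_smul]; exact funext fun b => (GLU.rd_e _ hd').trans (GLU.rd_e _ ha).symm)
      (fun j => by simpa [frm] using chg90 ht hx ha hd' j) I
    rw [h1, one_pow, one_mul]
    simp only [GLU.rd_e _ ha, GLU.rd_e _ hd']
  · obtain ⟨J, hJ⟩ := Function.ne_iff.1 h0
    obtain ⟨x, hx⟩ := Function.ne_iff.1 hJ
    have ho : x ∈ off D := by
      by_contra h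
      exact hx ((hC.1 J).2 x h)
    obtain ⟨d, hd'⟩ := GLU.ex_ch D x
    by_contra! h
    have := (hL d _ (GLU.mem_B2 hd') (ho d hd')).2.1 fun I => h d I _ (GLU.mem_B2 hd') (ho d hd')
    exact hx ((GLU.rd_e _ hd').symm.trans (congrFun this J))

end Pool.Agent.Lib.NV2
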