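import Pool.Agent.Lib.NV2.Blue

/-! Project NV2: twisting a weight by the positive metric. -/

open scoped Classical Topology ContDiff ENNReal
open Set MeasureTheory Complex Filter

noncomputable section

namespace Pool.Agent.Lib.NV2

open Pool.Agent.Lib.EX Pool.Agent.Lib.ZL

theorem bWTS (hPW : ZL.St_PW) (hMU : ZL.St_MU) (hWGT : ZL.St_WGT) : St_WTS := by
  intro n M _ ι _ _ D X Q C A δ ρ β j hj ⟨h1, h2, h3, h4⟩ hβ
  obtain ⟨-, -, p1, -, p2, -⟩ := hPW n M ι D
  obtain ⟨-, -, m1, -⟩ := hMU n M ι D X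
  obtain ⟨L, -, -, hW⟩ := hWGT
  obtain ⟨-, w1, w2, -, -, -, w3, -⟩ := hW n M ι D
  obtain ⟨C0, hC⟩ := X.αb
  have j0 : (0 : ℝ) ≤ j := Nat.cast_nonneg j
  have j1 : (0 : ℝ) ≤ j - 1 := sub_nonneg.2 (by exact_mod_cast hj)
  have e1 : ∀ x, lw D (fun i => ((Q i + j * X.e i : ℤ) : ℝ) - X.o i) x =
      lw D (fun i => Q i - X.o i) x + j * lw D (fun i => X.e i) x := fun x => by
    rw [← p2, ← p1]
    refine congrFun (congrArg _ (funext fun i => ?_)) x
    simp only [Pi.add_apply, Pi.smul_apply, smul_eq_mul]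
    push_cast
    ring
  have e2 : ∀ x, lw D (fun i => ((Q i + j * X.e i : ℤ) : ℝ)) x =
      lw D (fun i => Q i) x + j * lw D (fun i => X.e i) x := fun x => by
    rw [← p2, ← p1]
    refine congrFun (congrArg _ (funext fun i => ?_)) x
    simp only [Pi.add_apply, Pi.smul_apply, smul_eq_mul]
    push_cast
    ring
  refine ⟨C + j * C0, Real.exp (j * C0) * A, fun d z hz ho =>
    (h1 d z hz ho).add (contDiffAt_const.mul (X.αp.1 d z hz ho)),
    w3 _ _ (w1 _ _ (w1 _ _ h2 (w2 _ _ j1 X.αp)) (w2 (1 / 2) _ (by norm_num) hβ))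
      fun x _ => by ring, fun x hx => ?_, ?_⟩
  · have := mul_le_mul_of_nonneg_left (abs_le.1 (hC x hx)).2 j0
    have := h3 x hx
    rw [e1]
    linarith
  · refine (m1 _ (fun x => Real.exp (j * C0) * Real.exp (-lw D (fun i => Q i) x - ρ x))
      fun x hx => ?_).trans ?_
    · have := mul_le_mul_of_nonneg_left (abs_le.1 (hC x hx)).1 j0
      rw [← Real.exp_add, e2]
      exact Real.exp_le_exp.2 (by linarith)
    · unfold Cx.I
      simp only [ENNReal.ofReal_mul (Real.exp_pos _).le]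
      rw [lintegral_const_mul' _ _ ENNReal.ofReal_ne_top]
      exact mul_le_mul_right h4 _

end Pool.Agent.Lib.NV2
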