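import Pool.Agent.Lib.NV2.Blue

/-! Project NV2: row ZO, Theorem Z in the form of weights. -/

open scoped Classical Topology ContDiff ENNReal
open Set MeasureTheory Complex Metric Filter

noncomputable section

namespace Pool.Agent.Lib.NV2

open Pool.Agent.Lib.HS32 Pool.Agent.Lib.EX Pool.Agent.Lib.EXS Pool.Agent.Lib.ZL

theorem bZO (hPW : ZL.St_PW) (hMU : ZL.St_MU) (hWGT : ZL.St_WGT) (hZN : ZL.St_ZN) : St_ZO := by
  intro n M _ ι _ _ D X K hm hG a
  obtain ⟨-, -, hadd, -, hsm, hneg, hmono, -⟩ := hPW n M ι D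
  obtain ⟨-, -, hI, hfin, -⟩ := hMU n M ι D X
  obtain ⟨L, -, -, hW⟩ := hWGT
  obtain ⟨-, hpa, hps, -, -, -, hcg, -⟩ := hW n M ι D
  have ho : ∀ i, X.o i = X.l i := fun i => by simp [Cx.o, hm]
  have hc := K.c0
  have e1 : (fun i => ((X.l i + a * K.π i : ℤ) : ℝ) - X.o i) = (a * K.c) • K.κ := by
    funext i
    simp only [ho, Kl.κ, Pi.smul_apply, smul_eq_mul]
    push_cast
    field_simp
    ring
  rcases Nat.eq_zero_or_pos a with rfl | ha
  · have hJ := hfin (-fun i => (X.l i : ℝ)) fun i => by simp [ho]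
    refine ⟨0, (X.I fun x => Real.exp (lw D (-fun i => (X.l i : ℝ)) x)).toReal, fun ε hε =>
      ⟨fun _ => 0, fun _ _ _ _ => contDiffAt_const, hcg _ _ (hps ε _ hε.le X.αp)
        fun x _ => (zero_add _).symm, fun x _ => ?_, ?_⟩⟩
    · rw [e1, hsm]
      simp
    · rw [ENNReal.ofReal_toReal hJ]
      exact hI _ _ fun x _ => by simp [hneg]
  · have hs : (0 : ℝ) < a * K.c := mul_pos (Nat.cast_pos.2 ha) hc
    obtain ⟨C, ρ, -, hE, hZ⟩ := hZN n M ι D X K K.π le_rfl hG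
    obtain ⟨A, ε₁, hε₁, hA⟩ := hZ _ hs
    refine ⟨a * K.c * C, A, fun ε hε => ?_⟩
    have h0 : 0 < min ε₁ (ε / (a * K.c)) := lt_min hε₁ (div_pos hε hs)
    obtain ⟨h1, h2, h3⟩ := hE.1 _ h0
    have h4 : 0 ≤ ε - a * K.c * min ε₁ (ε / (a * K.c)) :=
      sub_nonneg.2 ((le_div_iff₀' hs).1 (min_le_right _ _))
    refine ⟨fun x => a * K.c * ρ (min ε₁ (ε / (a * K.c))) x,
      fun d z hz hz' => contDiffAt_const.mul (h1 d z hz hz'),
      hcg _ _ (hpa _ _ (hps _ _ hs.le h2) (hps _ _ h4 X.αp)) fun x _ => by ring,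
      fun x hx => ?_, (hI _ _ fun x _ => Real.exp_le_exp.2 ?_).trans (hA _ h0 (min_le_left _ _))⟩
    · rw [e1, hsm, ← mul_sub]
      exact mul_le_mul_of_nonneg_left (h3 x hx) hs.le
    · have h5 := hmono (fun i => ((X.l i + a * K.π i : ℤ) : ℝ)) ((1 + a * K.c) • K.κ) (fun i => by
        have h6 := congrFun e1 i
        have h7 := K.lo i
        simp only [Pi.smul_apply, smul_eq_mul, Kl.κ] at h6 ⊢
        linarith) x
      rw [hsm] at h5
      exact sub_le_sub_right (neg_le_neg h5) _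

end Pool.Agent.Lib.NV2
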