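import Pool.Agent.Lib.NV2.Ex
import Pool.Agent.Lib.ZL.Blue
import Pool.Agent.Lib.ZQ.HqC

/-! Project NV2: Koszul complexes of global sections. Objects and blueprint. -/

open scoped Classical Topology ContDiff ENNReal
open Set MeasureTheory Complex Metric Filter

set_option linter.unusedVariables false

noncomputable section

namespace Pool.Agent.Lib.NV2

open Pool.Agent.Lib.SV (E nsq)
open Pool.Agent.Lib.HS32 Pool.Agent.Lib.EX Pool.Agent.Lib.EXS Pool.Agent.Lib.ZL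
open Pool.Agent.Lib.EXS.K32 (lv)
open Pool.Agent.Lib.ZQ (HqC)

section defs

variable {n r : ℕ} {M : Mf n} {ι : Type} [Fintype ι] [DecidableEq ι]

/-- The squared distance from `y` to the span of `T z` and of the derivatives of `T` at `z`. -/
def dst (T : E n → Fin r → ℂ) (z : E n) (y : Fin r → ℂ) : ℝ :=
  ⨅ p : ℂ × E n, nsq (y - (p.1 • T z + fderiv ℂ T z p.2))

/-- The frame given by a map and its partial derivatives. -/
def frm (T : E n → Fin r → ℂ) (z : E n) : Fin (n + 1) → Fin r → ℂ :=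
  Fin.cons (T z) fun j => fderiv ℂ T z (Pi.single j 1)

/-- The logarithm of the squared norm of a family of functions. -/
def lg {Y : Type} (t : Fin r → Y → ℂ) (x : Y) : ℝ := Real.log (nsq (t · x))

/-- The weight in degree `k`. -/
def wt {Y : Type} (t : Fin r → Y → ℂ) (ρ : Y → ℝ) (k : ℕ) (x : Y) : ℝ :=
  Real.exp (-(ρ x + k * lg t x))

/-- A cocycle of the Koszul complex. -/
def Coc {Y : Type} (t : Fin r → Y → ℂ) (η : Finset (Fin r) → Y → ℂ) : Prop :=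
  ∀ x, wg (t · x) (η · x) = 0

/-- The differential of the Koszul complex. -/
def Wg {Y : Type} (t : Fin r → Y → ℂ) (H : Finset (Fin r) → Y → ℂ) : Finset (Fin r) → Y → ℂ :=
  fun I x => wg (t · x) (H · x) I

variable (D : Ad M ι)

/-- A family of functions read in a chart. -/
def rv (t : Fin r → M.X → ℂ) (d : D.A) : E n → Fin r → ℂ := fun z a => D.rd (t a) d z

/-- The holomorphic representative of a family of sections in a chart. -/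
def vv (P : ι → ℤ) (t : Fin r → M.X → ℂ) (d : D.A) : E n → Fin r → ℂ :=
  fun z a => val (D.c d) P (D.rd (t a) d) z

/-- The squared distance to the affine tangent space. -/
def df (t : Fin r → M.X → ℂ) (x : M.X) (y : Fin r → ℂ) : ℝ :=
  ⨅ d : {d : D.A // x ∈ (D.e d).source}, dst (rv D t d) (D.e d x) y

/-- The normal part of a multivector. -/
def Df (t : Fin r → M.X → ℂ) (x : M.X) (η : Ex r) : ℝ := ∑ J, df D t x (col η J)

/-- Sections without common zero. -/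
def Kd (P : ι → ℤ) (t : Fin r → M.X → ℂ) : Prop := (∀ a, Sp D P (t a)) ∧
  ∃ C : ℝ, ∀ x ∈ off D, Real.exp (-lw D (fun i => P i) x) ≤ C * nsq (t · x)

/-- The sections define an immersion into a projective space. -/
def Imm (P : ι → ℤ) (t : Fin r → M.X → ℂ) : Prop := D.All fun d z =>
  ∀ (c : ℂ) (v : E n), c • vv D P t d z + fderiv ℂ (vv D P t d) z v = 0 → c = 0 ∧ v = 0

/-- A chain of degree `k` with poles at most `Q`. -/
def Ch (k : ℕ) (Q : ι → ℤ) (η : Finset (Fin r) → M.X → ℂ) : Prop :=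
  (∀ I, Sp D Q (η I)) ∧ ∀ I, I.card ≠ k → η I = 0

/-- The multivector is tangent to the cone. -/
def Tg (t : Fin r → M.X → ℂ) (η : Finset (Fin r) → M.X → ℂ) : Prop := OA D fun d z =>
  ∀ J, col (fun I => D.rd (η I) d z) J ∈ Submodule.span ℂ (range (frm (rv D t d) z))

/-- The dimension of the space of sections. -/
def h0 (Q : ι → ℤ) : ℕ := Module.finrank ℂ (Submodule.span ℂ {F | Sp D Q F})

/-- A non-zero alternating contravariant tensor with poles at most `Q`. -/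
structure Ten (q : ℕ) (Q : ι → ℤ) (b : D.A → (Fin q → Fin n) → E n → ℂ) : Prop where
  pol : D.All fun d z => ∀ I, PolH (D.c d) Q (b d I) z
  law : D.Ov fun a d x => x ∈ off D → ∀ I,
    b a I (D.e a x) = ∑ I' : Fin q → Fin n, (∏ p, D.J a d x (I p) (I' p)) * b d I' (D.e d x)
  alt : OA D fun d z => ∀ I (σ : Equiv.Perm (Fin q)),
    b d (I ∘ σ) z = (Equiv.Perm.sign σ : ℤ) * b d I z
  ne : ∃ d I, ∃ z ∈ B2 n, Off (D.c d) z ∧ b d I z ≠ 0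

variable {D} (X : Cx D)

/-- The norm in degree `k`. -/
def Nm (t : Fin r → M.X → ℂ) (ρ : M.X → ℝ) (k : ℕ) (η : Finset (Fin r) → M.X → ℂ) : ℝ≥0∞ :=
  X.I fun x => nsq (η · x) * wt t ρ k x

/-- A weight for the sections with poles at most `Q`, with bounds `C` and `A`, and with curvature
at least `-ε` times the curvature of `β`. -/
def Wt (Q : ι → ℤ) (β : M.X → ℝ) (C A ε : ℝ) (ρ : M.X → ℝ) : Prop :=
  SmO D ρ ∧ Psh D (fun x => ρ x + ε * β x) ∧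
  (∀ x ∈ off D, ρ x ≤ C - lw D (fun i => Q i - X.o i) x) ∧
  X.I (fun x => Real.exp (-lw D (fun i => Q i) x - ρ x)) ≤ ENNReal.ofReal A

/-- The output of Theorem Z. -/
def Zo (Q ν : ι → ℤ) : Prop := ∀ a : ℕ, ∃ C A : ℝ, ∀ ε > (0 : ℝ), ∃ ρ,
  Wt X (fun i => Q i + a * ν i) X.α C A ε ρ

end defs

/-! ### Abstract rows -/

/-- A representative of least norm. -/
def St_MIN : Prop := ∀ (Y κ : Type) [MeasurableSpace Y] [Fintype κ] (μ : Measure Y)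
  (B : Submodule ℂ (κ → Y → ℂ)) (w : Y → ℝ) (η : κ → Y → ℂ), FiniteDimensional ℂ B →
  AEMeasurable w μ → (∀ x, 0 ≤ w x) → (∀ i, AEMeasurable (η i) μ) →
  (∀ b ∈ B, (∀ i, AEMeasurable (b i) μ) ∧ ∫⁻ x, ENNReal.ofReal (nsq (b · x) * w x) ∂μ ≠ ⊤) →
  ∃ b ∈ B, ∀ b' ∈ B, ∫⁻ x, ENNReal.ofReal (nsq (fun i => η i x - b i x) * w x) ∂μ ≤
    ∫⁻ x, ENNReal.ofReal (nsq (fun i => η i x - b' i x) * w x) ∂μ

/-- The passage to the limit. -/
def St_LIM : Prop := ∀ (Y κ : Type) [MeasurableSpace Y] [Fintype κ] (μ : Measure Y)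
  (V : Submodule ℂ (κ → Y → ℂ)) (δ : Y → (κ → ℂ) → ℝ) (B : ℝ) (w₀ : Y → ℝ) (w : ℕ → Y → ℝ)
  (η : ℕ → κ → Y → ℂ) (ε : ℕ → ℝ), FiniteDimensional ℂ V →
  (∀ᵐ x ∂μ, 0 < w₀ x ∧ (∀ ν, w₀ x ≤ w ν x) ∧ ∀ y y' (c : ℂ), 0 ≤ δ x y ∧
    δ x (c • y) = normSq c * δ x y ∧ δ x y ≤ 2 * δ x y' + B * nsq (y - y')) →
  AEMeasurable w₀ μ → (∀ ν, AEMeasurable (w ν) μ) →
  (∀ b ∈ V, (∀ i, AEMeasurable (b i) μ) ∧ AEMeasurable (fun x => δ x (b · x)) μ ∧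
    ∃ A : ℝ, ∀ ν, ∫⁻ x, ENNReal.ofReal (nsq (b · x) * w ν x) ∂μ ≤ ENNReal.ofReal A) →
  (∀ ν, η ν ∈ V ∧ η ν ≠ 0 ∧ ∫⁻ x, ENNReal.ofReal (δ x (η ν · x) * w ν x) ∂μ ≤
    ENNReal.ofReal (ε ν) * ∫⁻ x, ENNReal.ofReal (nsq (η ν · x) * w ν x) ∂μ) →
  Tendsto ε atTop (𝓝 0) → ∃ b ∈ V, b ≠ 0 ∧ ∀ᵐ x ∂μ, δ x (b · x) = 0

/-! ### Rows in coordinates -/

/-- The derivative of the contraction and the Levi form of the logarithm of the norm. -/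
def St_DB : Prop := ∀ (n r : ℕ) (T y : E n → Fin r → ℂ) (z v : E n), HolN T z → HolN y z →
  T z ≠ 0 → ContDiffAt ℝ ∞ (fun w => ip (y w) (T w) / nsq (T w)) z ∧
  db (fun w => ip (y w) (T w) / nsq (T w)) z v =
    ip (y z) (prp (T z) (fderiv ℂ T z v)) / nsq (T z) ∧
  ContDiffAt ℝ ∞ (fun w => Real.log (nsq (T w))) z ∧
  lv (fun w => Real.log (nsq (T w))) z v = nsq (prp (T z) (fderiv ℂ T z v)) / nsq (T z)

/-- Holomorphic left inverses, and the coefficients of a holomorphic multivector. -/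
def St_INV : Prop := ∀ (n r : ℕ) (z : E n),
  (∀ (m : ℕ) (u : E n → Fin m → Fin r → ℂ), HolN u z → LinearIndependent ℂ (u z) →
    ∃ lam : E n → Fin m → Fin r → ℂ, HolN lam z ∧ ∀ᶠ y in 𝓝 z, Dual (lam y) (u y)) ∧
  (∀ T : E n → Fin r → ℂ, HolN T z → HolN (frm T) z ∧
    ((∀ (c : ℂ) (v : E n), c • T z + fderiv ℂ T z v = 0 → c = 0 ∧ v = 0) →
      LinearIndependent ℂ (frm T z)) ∧
    ∀ y, y ∈ Submodule.span ℂ (range (frm T z)) ↔ ∃ (c : ℂ) (v : E n),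
      y = c • T z + fderiv ℂ T z v) ∧
  ∀ (q : ℕ) (lam : E n → Fin (n + 1) → Fin r → ℂ) (η : E n → Ex r) (I : Fin q → Fin n),
    HolN lam z → HolN η z → HolN (fun y => tb (lam y) (η y) I) z ∧
      ∀ (c : ℂ) y, tb (lam y) (c • η y) I = c * tb (lam y) (η y) I

/-! ### Rows on the manifold -/

/-- The distance to the tangent space. -/
def St_MEA : Prop := ∀ (n : ℕ) (M : Mf n) [M.Cpt] (ι : Type) [Fintype ι] [DecidableEq ι]
  (D : Ad M ι) (X : Cx D) (r : ℕ) (t : Fin r → M.X → ℂ), (∀ a, HoO D (t a)) →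
  (∀ x y y' (c : ℂ), 0 ≤ df D t x y ∧ df D t x (c • y) = normSq c * df D t x y ∧
    df D t x y ≤ 2 * df D t x y' + 2 * nsq (y - y') ∧
    (∀ d, x ∈ (D.e d).source → ∀ p ∈ Submodule.span ℂ (range (frm (rv D t d) (D.e d x))),
      df D t x y ≤ nsq (y - p)) ∧
    (df D t x y = 0 → ∃ d, x ∈ (D.e d).source ∧
      y ∈ Submodule.span ℂ (range (frm (rv D t d) (D.e d x))))) ∧
  ∀ y : M.X → Fin r → ℂ, ContinuousOn y (off D) → AEMeasurable (fun x => df D t x (y x)) X.μ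

/-- The spaces of chains and their norms. -/
def St_CHN : Prop := ∀ (n : ℕ) (M : Mf n) [M.Cpt] (ι : Type) [Fintype ι] [DecidableEq ι]
  (D : Ad M ι) (X : Cx D) (r : ℕ),
  (∀ Q F, F ∈ Submodule.span ℂ {F | Sp D Q F} ↔ Sp D Q F) ∧
  (∀ Q, FiniteDimensional ℂ (Submodule.span ℂ {F | Sp D Q F})) ∧
  (∀ P Q F G, Sp D P F → Sp D Q G → Sp D (P + Q) (F * G)) ∧
  (∀ k Q, ∃ V : Submodule ℂ (Finset (Fin r) → M.X → ℂ), FiniteDimensional ℂ V ∧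
    ∀ η, η ∈ V ↔ Ch D k Q η) ∧
  (∀ k P Q (t : Fin r → M.X → ℂ) H, (∀ a, Sp D P (t a)) → Ch D k Q H →
    Ch D (k + 1) (P + Q) (Wg t H) ∧ Coc t (Wg t H)) ∧
  (∀ (t : Fin r → M.X → ℂ), ∃ L : (Finset (Fin r) → M.X → ℂ) →ₗ[ℂ] Finset (Fin r) → M.X → ℂ,
    ∀ H, L H = Wg t H) ∧
  (∀ Q F, Sp D Q F → ContinuousOn F (off D) ∧ AEMeasurable F X.μ ∧
    ((∀ᵐ x ∂X.μ, F x = 0) → F = 0)) ∧
  ∀ P (t : Fin r → M.X → ℂ), Kd D P t → (∀ x ∈ off D, 0 < nsq (t · x)) ∧ Psh D (lg t) ∧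
    (∃ C, ∀ x ∈ off D, |lg t x + lw D (fun i => P i) x| ≤ C) ∧
    ∀ (k : ℕ) (Q : ι → ℤ) (C A : ℝ) (η : Finset (Fin r) → M.X → ℂ),
      Ch D k (fun i => Q i + k * P i) η → ∃ A' : ℝ, ∀ β ε ρ, Wt X Q β C A ε ρ →
        AEMeasurable (wt t ρ k) X.μ ∧ Nm X t ρ k η ≤ ENNReal.ofReal A' ∧
        (Nm X t ρ k η = 0 → η = 0)

/-- One application of the theorem of Hörmander. -/
def St_KEY : Prop := ∀ (n : ℕ) (M : Mf n) [M.Cpt] (ι : Type) [Fintype ι] [DecidableEq ι]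
  (D : Ad M ι) (X : Cx D) (r k : ℕ) (P Q : ι → ℤ) (t y : Fin r → M.X → ℂ) (C A ε : ℝ)
  (ρ h : M.X → ℝ), HqC 1 D X.μ → Kd D P t → Wt X Q (lg t) C A ε ρ → ε < k →
  (∀ a, Sp D (fun i => Q i + (k + 1 : ℕ) * P i) (y a)) → AEMeasurable h X.μ →
  (∀ x ∈ off D, 0 ≤ h x ∧ h x ≤ nsq (y · x)) →
  (OA D fun d z => ∀ v, normSq (ip (rv D y d z) (prp (rv D t d z) (fderiv ℂ (rv D t d) z v))) ≤
    D.rd h d z * nsq (prp (rv D t d z) (fderiv ℂ (rv D t d) z v))) →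
  ∃ H, Sp D (fun i => Q i + k * P i) H ∧ ENNReal.ofReal (k - ε) *
    X.I (fun x => normSq (ip (y · x) (t · x) / nsq (t · x) - H x) * wt t ρ k x) ≤
      X.I fun x => h x * wt t ρ (k + 1) x

/-- The basic estimate for a cocycle. -/
def St_STEP : Prop := ∀ (n : ℕ) (M : Mf n) [M.Cpt] (ι : Type) [Fintype ι] [DecidableEq ι]
  (D : Ad M ι) (X : Cx D) (r k : ℕ) (P Q : ι → ℤ) (t : Fin r → M.X → ℂ) (C A ε : ℝ)
  (ρ : M.X → ℝ) (η : Finset (Fin r) → M.X → ℂ), HqC 1 D X.μ → Kd D P t →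
  Wt X Q (lg t) C A ε ρ → ε < k → Ch D (k + 1) (fun i => Q i + (k + 1 : ℕ) * P i) η → Coc t η →
  ∃ H, Ch D k (fun i => Q i + k * P i) H ∧
    ENNReal.ofReal (k - ε) * Nm X t ρ (k + 1) (η - Wg t H) +
      X.I (fun x => Df D t x (η · x) * wt t ρ (k + 1) x) ≤ k * Nm X t ρ (k + 1) η

/-- With positive curvature the Koszul complex is exact. -/
def St_EXA : Prop := ∀ (n : ℕ) (M : Mf n) [M.Cpt] (ι : Type) [Fintype ι] [DecidableEq ι]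
  (D : Ad M ι) (X : Cx D) (r : ℕ) (P Q : ι → ℤ) (t : Fin r → M.X → ℂ) (C A ε : ℝ)
  (ρ : M.X → ℝ), HqC 1 D X.μ → Kd D P t → Wt X Q (lg t) C A ε ρ → ε < 0 →
  ∑ k ∈ Finset.range (r + 1), (-1 : ℤ) ^ k * r.choose k * h0 D (fun i => Q i + k * P i) = 0

/-- With almost non-negative curvature a non-trivial class gives a tangent cocycle. -/
def St_HAR : Prop := ∀ (n : ℕ) (M : Mf n) [M.Cpt] (ι : Type) [Fintype ι] [DecidableEq ι]
  (D : Ad M ι) (X : Cx D) (r k : ℕ) (P Q : ι → ℤ) (t : Fin r → M.X → ℂ) (C A : ℝ)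
  (η : Finset (Fin r) → M.X → ℂ), HqC 1 D X.μ → Kd D P t →
  (∀ ε > (0 : ℝ), ∃ ρ, Wt X Q (lg t) C A ε ρ) → 1 ≤ k →
  Ch D (k + 1) (fun i => Q i + (k + 1 : ℕ) * P i) η → Coc t η →
  (∀ H, Ch D k (fun i => Q i + k * P i) H → η ≠ Wg t H) →
  ∃ η', η' ≠ 0 ∧ Ch D (k + 1) (fun i => Q i + (k + 1 : ℕ) * P i) η' ∧ Coc t η' ∧
    ∀ᵐ x ∂X.μ, Df D t x (η' · x) = 0

/-- Tangent almost everywhere is tangent. -/
def St_TAN : Prop := ∀ (n : ℕ) (M : Mf n) [M.Cpt] (ι : Type) [Fintype ι] [DecidableEq ι]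
  (D : Ad M ι) (X : Cx D) (r : ℕ) (P Q : ι → ℤ) (t : Fin r → M.X → ℂ)
  (η : Finset (Fin r) → M.X → ℂ), Kd D P t → Imm D P t → (∀ I, Sp D Q (η I)) →
  ((∀ᵐ x ∂X.μ, Df D t x (η · x) = 0) → Tg D t η) ∧ (Ch D 1 Q η → Coc t η → Tg D t η)

/-- A non-zero Euler characteristic gives a tangent cocycle. -/
def St_NEX : Prop := ∀ (n : ℕ) (M : Mf n) [M.Cpt] (ι : Type) [Fintype ι] [DecidableEq ι]
  (D : Ad M ι) (X : Cx D) (r : ℕ) (P Q : ι → ℤ) (t : Fin r → M.X → ℂ) (C A : ℝ),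
  HqC 1 D X.μ → Kd D P t → Imm D P t → (∀ ε > (0 : ℝ), ∃ ρ, Wt X Q (lg t) C A ε ρ) →
  ∑ k ∈ Finset.range (r + 1), (-1 : ℤ) ^ k * r.choose k *
    (if k = 0 then 0 else (h0 D (fun i => Q i + k * P i) : ℤ)) ≠ 0 →
  ∃ (q : ℕ) (η : Finset (Fin r) → M.X → ℂ), q < r ∧ η ≠ 0 ∧
    Ch D (q + 1) (fun i => Q i + (q + 1 : ℕ) * P i) η ∧ Coc t η ∧ Tg D t η

/-- The tensor of a tangent cocycle. -/
def St_TEN : Prop := ∀ (n : ℕ) (M : Mf n) [M.Cpt] (ι : Type) [Fintype ι] [DecidableEq ι]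
  (D : Ad M ι) (r q : ℕ) (P Q : ι → ℤ) (t : Fin r → M.X → ℂ) (η : Finset (Fin r) → M.X → ℂ),
  Kd D P t → Imm D P t → η ≠ 0 → Ch D (q + 1) (fun i => Q i + (q + 1 : ℕ) * P i) η → Coc t η →
  Tg D t η → ∃ b, Ten D q Q b

/-- The curvature of a generated bundle is bounded by the positive metric. -/
def St_LVB : Prop := ∀ (n : ℕ) (M : Mf n) [M.Cpt] (ι : Type) [Fintype ι] [DecidableEq ι]
  (D : Ad M ι) (X : Cx D) (P : ι → ℤ), Gens D P → ∃ (r : ℕ) (s : Fin r → M.X → ℂ) (δ : ℝ),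
    0 < δ ∧ Kd D P s ∧ Psh D fun x => X.α x - δ * lg s x

/-- The weights of the twisted complexes. -/
def St_WTS : Prop := ∀ (n : ℕ) (M : Mf n) [M.Cpt] (ι : Type) [Fintype ι] [DecidableEq ι]
  (D : Ad M ι) (X : Cx D) (Q : ι → ℤ) (C A δ : ℝ) (ρ β : M.X → ℝ) (j : ℕ), 1 ≤ j →
  Wt X Q X.α C A (1 / 2) ρ → Psh D (fun x => X.α x - δ * β x) →
  ∃ C' A', Wt X (fun i => Q i + j * X.e i) β C' A' (-(δ / 2)) fun x => ρ x + j * X.α x

/-- The Hilbert polynomial in two variables. -/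
def St_HIL : Prop := ∀ (n : ℕ) (M : Mf n) [M.Cpt] (ι : Type) [Fintype ι] [DecidableEq ι]
  (D : Ad M ι) (X : Cx D) (r c : ℕ) (Q ν : ι → ℤ) (t : Fin r → M.X → ℂ), HqC 1 D X.μ →
  Kd D (fun i => X.e i) t → (∀ x ∈ off D, X.α x = lg t x) → Zo X Q ν →
  Gens D (fun i => ν i + c * X.e i) → ∃ R : Polynomial (Polynomial ℚ),
    (∀ a : ℕ, ∀ j ≥ 1, (h0 D (fun i => Q i + a * ν i + (j : ℕ) * X.e i) : ℚ) =
      (R.eval (Polynomial.C (j : ℚ))).eval (a : ℚ)) ∧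
    ∀ a : ℕ, ∑ k ∈ Finset.range (r + 1),
      (-1 : ℚ) ^ k * r.choose k * (R.eval (Polynomial.C (k : ℚ))).eval (a : ℚ) = 0

/-- Theorem Z in the form of weights. -/
def St_ZO : Prop := ∀ (n : ℕ) (M : Mf n) [M.Cpt] (ι : Type) [Fintype ι] [DecidableEq ι]
  (D : Ad M ι) (X : Cx D) (K : Kl X), X.m = 1 →
  (∀ j : ℕ, Gens D fun i => j * K.π i + X.e i) → Zo X X.l K.π

/-- The theorem in Koszul form. -/
def St_NVK : Prop := ∀ (n : ℕ) (M : Mf n) [M.Cpt] (ι : Type) [Fintype ι] [DecidableEq ι]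
  (D : Ad M ι) (X : Cx D) (r c : ℕ) (Q ν : ι → ℤ) (t : Fin r → M.X → ℂ) (P : Polynomial ℚ),
  HqC 1 D X.μ → Kd D (fun i => X.e i) t → Imm D (fun i => X.e i) t →
  (∀ x ∈ off D, X.α x = lg t x) → Zo X Q ν → Gens D (fun i => ν i + c * X.e i) →
  (∀ᶠ j : ℕ in atTop, (h0 D (fun i => Q i + j * X.e i) : ℚ) = P.eval (j : ℚ)) → P.eval 0 ≠ 0 →
  ∀ᶠ a : ℕ in atTop, ∃ (q : ℕ) (η : Finset (Fin r) → M.X → ℂ), q < r ∧ η ≠ 0 ∧
    Ch D (q + 1) (fun i => Q i + a * ν i + (q + 1 : ℕ) * X.e i) η ∧ Coc t η ∧ Tg D t η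

/-- The theorem. -/
def St_NV2 : Prop := ∀ (n : ℕ) (M : Mf n) [M.Cpt] (ι : Type) [Fintype ι] [DecidableEq ι]
  (D : Ad M ι) (X : Cx D) (r c : ℕ) (Q ν : ι → ℤ) (t : Fin r → M.X → ℂ) (P : Polynomial ℚ),
  HqC 1 D X.μ → Kd D (fun i => X.e i) t → Imm D (fun i => X.e i) t →
  (∀ x ∈ off D, X.α x = lg t x) → Zo X Q ν → Gens D (fun i => ν i + c * X.e i) →
  (∀ᶠ j : ℕ in atTop, (h0 D (fun i => Q i + j * X.e i) : ℚ) = P.eval (j : ℚ)) → P.eval 0 ≠ 0 →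
  ∃ q : ℕ, {a : ℕ | ∃ b, Ten D q (fun i => Q i + a * ν i) b}.Infinite

end Pool.Agent.Lib.NV2
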