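import Pool.Agent.Lib.NV2.SDefs

/-! Project NV2: the target statement. -/

open scoped Manifold ContDiff Topology

namespace Pool.Agent.Lib.NV2

open Pool.Agent.Lib.SV Pool.Agent.Lib.HS Pool.Agent.Lib.GH Pool.Agent.Lib.EX Pool.Agent.Lib.ZL

/-- Twisted multivector fields. -/
def St_T : Prop := ∀ (n : ℕ) (Y I : Type) [TopologicalSpace Y] [ChartedSpace (E n) Y]
  [IsManifold 𝓘(ℂ, E n) ω Y] [CompactSpace Y] [T2Space Y] [ConnectedSpace Y] [Fintype I]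
  (G : Y → Mat n) (D : I → Set Y) (c a₀ : ℕ) (e : I → ℕ) (l ν : I → ℤ) (η : Y → ℂ)
  (P : Polynomial ℚ), Hermitian G → (∀ y, Ord n 1 D l η y) → AmpBy n D e → 0 < c → Nef n G D ν →
  Zar n D (fun i => c * l i) ν e →
  (∀ᶠ j : ℕ in Filter.atTop, (hz n D (fun i => l i + a₀ * ν i + j * e i) : ℚ) = P.eval (j : ℚ)) →
  P.eval 0 ≠ 0 → ∃ q, {a : ℕ | ∃ b, MVec n q D (fun i => l i + a * ν i) b}.Infinite

end Pool.Agent.Lib.NV2
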