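import Pool.Agent.Lib.NV2.Blue
import Pool.Agent.Lib.NV2.Stmt
import Pool.Agent.Lib.ZL.Blue2
import Pool.Agent.Lib.ZX.Blue

/-! Project NV2: the blueprint of the outer layer. -/

open scoped Classical Topology ContDiff ENNReal Manifold
open Set MeasureTheory Complex Metric Filter

noncomputable section

namespace Pool.Agent.Lib.NV2

open Pool.Agent.Lib.SV (E nsq)
open Pool.Agent.Lib.GH (Hermitian)
open Pool.Agent.Lib.HS32 Pool.Agent.Lib.EX Pool.Agent.Lib.EXS Pool.Agent.Lib.ZL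
open Pool.Agent.Lib.ZQ (HqC)
open Pool.Agent.Lib.HS.BBR (mf)

/-- Poles in the two languages. -/
def St_SEC : Prop := ∀ (n : ℕ) (Y I : Type) [TopologicalSpace Y] [ChartedSpace (E n) Y]
  [IsManifold 𝓘(ℂ, E n) ω Y] [Fintype I] [DecidableEq I] (S : I → Set Y) (D : Ad (mf n Y) I),
  D.Fit S → (∀ y, ∃ h, Eqs n S y h) → (∀ x : Y, x ∈ off D ↔ ∀ i, x ∉ S i) ∧
  (∀ (P : I → ℤ) (f : Y → ℂ) (d : D.A), ∀ z ∈ B2 n,
    PolAt n S P f ((D.e d).symm z) ↔ PolH (D.c d) P (D.rd f d) z) ∧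
  (∀ P f, Sec n S P f ↔ Sp D P f) ∧ ∀ P, hz n S P = h0 D P

/-- The sections that define the immersion. -/
def St_KD : Prop := ∀ (n : ℕ) (M : Mf n) [M.Cpt] (ι : Type) [Fintype ι] [DecidableEq ι]
  (D : Ad M ι) (A : Am D), ∃ t : Fin A.r → M.X → ℂ, Kd D (fun i => A.e i) t ∧
    Imm D (fun i => A.e i) t ∧ ∀ x ∈ off D, (t · x) = A.τ x

/-- Weights on the nef part of a Zariski decomposition. -/
def St_ZOX : Prop := ∀ (n : ℕ) (M : Mf n) [M.Cpt] (ι : Type) [Fintype ι] [DecidableEq ι]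
  (D : Ad M ι) (X : Cx D) (K : Kl X) (ν Q : ι → ℤ) (β : ι → ℝ) (s : ℝ), X.Big → X.Nf ν →
  ν ≤ K.π → (∀ k : ℕ, ∃ a : ι → ℤ, ∀ (j : ℕ) U,
    Sp D (fun i => j * K.π i + k * X.e i) U → Sp D (fun i => j * ν i + a i) U) →
  0 ≤ s → (∀ i, X.o i ≤ β i ∧ β i < X.o i + 1 ∧ (Q i : ℝ) = β i + s * (ν i / K.c)) → Zo X Q ν

/-- The multivector field of a tensor. -/
def St_MV : Prop := ∀ (n : ℕ) (Y I : Type) [TopologicalSpace Y] [ChartedSpace (E n) Y]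
  [IsManifold 𝓘(ℂ, E n) ω Y] [Fintype I] [DecidableEq I] (S : I → Set Y) (D : Ad (mf n Y) I)
  (q : ℕ) (Q : I → ℤ) (b : D.A → (Fin q → Fin n) → E n → ℂ),
  D.Fit S → (∀ y, ∃ h, Eqs n S y h) → Ten D q Q b → ∃ b', MVec n q S Q b'

/-- The data on the manifold layer. -/
def St_CTX : Prop := ∀ (n : ℕ) (Y I : Type) [TopologicalSpace Y] [ChartedSpace (E n) Y]
  [IsManifold 𝓘(ℂ, E n) ω Y] [CompactSpace Y] [T2Space Y] [ConnectedSpace Y] [Fintype I]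
  [DecidableEq I] (G : Y → Mat n) (S : I → Set Y) (c : ℕ) (e : I → ℕ) (l ν : I → ℤ) (η : Y → ℂ),
  Hermitian G → (∀ y, Ord n 1 S l η y) → AmpBy n S e → 0 < c → Nef n G S ν →
  Zar n S (fun i => c * l i) ν e →
  ∃ (D : Ad (mf n Y) I) (X : Cx D) (r c' : ℕ) (t : Fin r → Y → ℂ), D.Fit S ∧ X.m = 1 ∧ X.l = l ∧
    X.e = e ∧ X.Big ∧ X.Nf ν ∧
    (D.Ov fun b d x => X.w d (D.e d x) = X.w b (D.e b x) * D.um l b d x * (D.J b d x).det ^ 1) ∧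
    HqC 1 D X.μ ∧ Kd D (fun i => e i) t ∧ Imm D (fun i => e i) t ∧
    (∀ x ∈ off D, X.α x = lg t x) ∧ (∀ a₀ : ℕ, Zo X (fun i => l i + a₀ * ν i) ν) ∧
    ∀ j : ℕ, Gens D fun i => j * ν i + c' * e i

end Pool.Agent.Lib.NV2
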