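import Pool.Agent.Lib.ZL.Core
import Pool.Agent.Lib.NV2.B_BES
import Pool.Agent.Lib.NV2.B_CAR
import Pool.Agent.Lib.NV2.B_CHN
import Pool.Agent.Lib.NV2.B_DB
import Pool.Agent.Lib.NV2.B_EUL
import Pool.Agent.Lib.NV2.B_EXA
import Pool.Agent.Lib.NV2.B_HAR
import Pool.Agent.Lib.NV2.B_HIL
import Pool.Agent.Lib.NV2.B_INV
import Pool.Agent.Lib.NV2.B_KEY
import Pool.Agent.Lib.NV2.B_LIM
import Pool.Agent.Lib.NV2.B_LIN
import Pool.Agent.Lib.NV2.B_LVB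
import Pool.Agent.Lib.NV2.B_MEA
import Pool.Agent.Lib.NV2.B_MIN
import Pool.Agent.Lib.NV2.B_NEX
import Pool.Agent.Lib.NV2.B_NV2
import Pool.Agent.Lib.NV2.B_NVK
import Pool.Agent.Lib.NV2.B_POL0
import Pool.Agent.Lib.NV2.B_POL2
import Pool.Agent.Lib.NV2.B_STEP
import Pool.Agent.Lib.NV2.B_TAN
import Pool.Agent.Lib.NV2.B_TEN
import Pool.Agent.Lib.NV2.B_WTS
import Pool.Agent.Lib.NV2.B_ZO

/-! Project NV2: the core without hypotheses. -/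

namespace Pool.Agent.Lib.NV2

theorem st_CHN : St_CHN := bCHN ZL.bPW ZL.st_MU ZL.st_UPB ZL.st_WGT ZL.st_FIN bCAR

theorem st_EUL : St_EUL := bEUL bCAR

theorem st_LIN : St_LIN := bLIN bCAR

theorem st_MEA : St_MEA := bMEA ZL.bPW ZL.st_MU

theorem st_KEY : St_KEY := bKEY ZL.bPW ZL.st_MU ZL.st_UPB ZL.st_WGT ZL.st_POG bDB st_CHN

theorem st_STEP : St_STEP := bSTEP ZL.bPW ZL.st_MU ZL.st_UPB bCAR bBES st_MEA st_CHN st_KEY

theorem st_EXA : St_EXA := bEXA ZL.st_MU st_EUL bMIN st_CHN st_STEP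

theorem st_HAR : St_HAR := bHAR ZL.st_MU ZL.bPW bCAR bMIN bLIM st_MEA st_CHN st_STEP

theorem st_TAN : St_TAN := bTAN ZL.st_MU ZL.st_UPB bCAR bINV st_MEA st_CHN

theorem st_NEX : St_NEX := bNEX st_EUL st_CHN st_HAR st_TAN

theorem st_TEN : St_TEN := bTEN ZL.st_UPB st_LIN bINV

theorem st_LVB : St_LVB := bLVB ZL.bPW ZL.st_UPB ZL.bTRF

theorem st_WTS : St_WTS := bWTS ZL.bPW ZL.st_MU ZL.st_WGT

/-- The Hilbert polynomial in two variables. -/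
theorem st_HIL : St_HIL := bHIL ZL.st_WGT bPOL2 st_EXA st_LVB st_WTS

theorem st_ZO : St_ZO := bZO ZL.bPW ZL.st_MU ZL.st_WGT ZL.st_ZN

/-- The theorem in Koszul form. -/
theorem st_NVK : St_NVK := bNVK bPOL0 st_NEX st_HIL

/-- The theorem in tensor form. -/
theorem st_NV2 : St_NV2 := bNV2 st_NVK st_TEN

end Pool.Agent.Lib.NV2
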