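import Pool.Agent.Lib.SV.Defs

/-! Project NV2: the exterior algebra of `ℂ ^ r` in coordinates. -/

open scoped Classical ComplexConjugate
open Complex

noncomputable section

namespace Pool.Agent.Lib.NV2

open Pool.Agent.Lib.SV (nsq)

/-- The exterior algebra of `ℂ ^ r`. -/
abbrev Ex (r : ℕ) := Finset (Fin r) → ℂ

variable {r : ℕ}

/-- The sign of the insertion of `i`. -/
def sg (i : Fin r) (I : Finset (Fin r)) : ℂ := (-1) ^ (I.filter fun j => j < i).card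

/-- The exterior product with a vector. -/
def wg (t : Fin r → ℂ) (G : Ex r) : Ex r := fun I => ∑ i ∈ I, sg i I * t i * G (I.erase i)

/-- The vector of the coefficients with one more index. -/
def col (η : Ex r) (J : Finset (Fin r)) : Fin r → ℂ :=
  fun i => if i ∈ J then 0 else sg i J * η (insert i J)

/-- The contraction with a covector. -/
def cn (ξ : Fin r → ℂ) (η : Ex r) : Ex r := fun J => ∑ i, ξ i * col η J i

/-- Homogeneous of degree `k`. -/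
def Hm (k : ℕ) (η : Ex r) : Prop := ∀ I, I.card ≠ k → η I = 0

/-- The Hermitian product. -/
def ip {κ : Type} [Fintype κ] (y w : κ → ℂ) : ℂ := ∑ i, y i * conj (w i)

/-- The component of `u` orthogonal to `t`. -/
def prp (t u : Fin r → ℂ) : Fin r → ℂ := u - (ip u t / nsq t) • t

/-- Iterated contraction. -/
def cnF : (q : ℕ) → (Fin q → Fin r → ℂ) → Ex r → Ex r
  | 0, _, η => η
  | q + 1, ξ, η => cnF q (Fin.tail ξ) (cn (ξ 0) η)

/-- The coefficients of a tangent multivector for the dual frame `lam`. -/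
def tb {n q : ℕ} (lam : Fin (n + 1) → Fin r → ℂ) (η : Ex r) (I : Fin q → Fin n) : ℂ :=
  cnF (q + 1) (Fin.cons (lam 0) fun p => lam (I p).succ) η ∅

/-- `lam` is a left inverse of the frame `u`. -/
def Dual {n : ℕ} (lam u : Fin n → Fin r → ℂ) : Prop :=
  ∀ a b, ∑ i, lam a i * u b i = if a = b then 1 else 0

/-- The canonical anticommutation relations. -/
def St_CAR : Prop := ∀ r : ℕ,
  (∀ (s t : Fin r → ℂ) (G : Ex r), wg s (wg t G) = -wg t (wg s G)) ∧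
  (∀ (t : Fin r → ℂ) (G : Ex r), wg t (wg t G) = 0) ∧
  (∀ (ξ ζ : Fin r → ℂ) (η : Ex r), cn ξ (cn ζ η) = -cn ζ (cn ξ η)) ∧
  (∀ (ξ t : Fin r → ℂ) (G : Ex r), cn ξ (wg t G) + wg t (cn ξ G) = (∑ i, ξ i * t i) • G) ∧
  (∀ (t : Fin r → ℂ) (G η : Ex r), ip (wg t G) η = ip G (cn (star t) η)) ∧
  (∀ (t : Fin r → ℂ) (G G' : Ex r) (c : ℂ), wg t (G + G') = wg t G + wg t G' ∧
    wg t (G - G') = wg t G - wg t G' ∧ wg t (c • G) = c • wg t G ∧ wg (c • t) G = c • wg t G ∧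
    cn t (G + G') = cn t G + cn t G' ∧ cn t (c • G) = c • cn t G ∧ cn (c • t) G = c • cn t G) ∧
  (∀ (s t : Fin r → ℂ) (G : Ex r), wg (s + t) G = wg s G + wg t G ∧
    cn (s + t) G = cn s G + cn t G) ∧
  (∀ (k : ℕ) (t : Fin r → ℂ) (G : Ex r), (Hm k G → Hm (k + 1) (wg t G)) ∧
    (Hm (k + 1) G → Hm k (cn t G)) ∧ (Hm 0 G → cn t G = 0) ∧
    (Hm (k + 1) G → ∀ J : Finset (Fin r), J.card ≠ k → col G J = 0) ∧
    (Hm k G → ∑ J, nsq (col G J) = k * nsq G)) ∧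
  (∀ (t : Fin r → ℂ) (G : Ex r), nsq (wg t G) + nsq (cn (star t) G) = nsq t * nsq G) ∧
  (∀ G : Ex r, ∑ J, nsq (col G J) ≤ r * nsq G) ∧
  ∀ (G G' : Ex r) (c : ℂ) (J : Finset (Fin r)), col (G - G') J = col G J - col G' J ∧
    col (c • G) J = c • col G J

/-- The inequality of Bessel. -/
def St_BES : Prop := ∀ (r : ℕ) (T : Submodule ℂ (Fin r → ℂ)) (t u y : Fin r → ℂ) (a : ℝ),
  t ≠ 0 → t ∈ T → (∀ p ∈ T, a ≤ nsq (y - p)) →
  0 ≤ nsq y - normSq (ip y t) / nsq t - a ∧ (u ∈ T →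
    normSq (ip y (prp t u)) ≤ (nsq y - normSq (ip y t) / nsq t - a) * nsq (prp t u))

/-- Tangent multivectors. -/
def St_LIN : Prop := ∀ (r n q : ℕ) (u lam : Fin (n + 1) → Fin r → ℂ) (η : Ex r), Dual lam u →
  Hm (q + 1) η → wg (u 0) η = 0 → (∀ J, col η J ∈ Submodule.span ℂ (Set.range u)) →
  (∀ (I : Fin q → Fin n) (σ : Equiv.Perm (Fin q)),
    tb lam η (I ∘ σ) = (Equiv.Perm.sign σ : ℤ) * tb lam η I) ∧
  ((∀ I : Fin q → Fin n, tb lam η I = 0) → η = 0) ∧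
  ∀ (u' lam' : Fin (n + 1) → Fin r → ℂ) (g : ℂ) (A : Matrix (Fin n) (Fin n) ℂ) (c : Fin n → ℂ),
    Dual lam' u' → u' 0 = g • u 0 →
    (∀ j : Fin n, u' j.succ = g • (∑ i, A i j • u i.succ) + c j • u 0) →
    ∀ I : Fin q → Fin n,
      tb lam η I = g ^ (q + 1) * ∑ I' : Fin q → Fin n, (∏ p, A (I p) (I' p)) * tb lam' η I'

/-- The Euler characteristic of an exact Koszul complex. -/
def St_EUL : Prop := ∀ (Y : Type) (r : ℕ) (t : Fin r → Y → ℂ) (V : ℕ → Submodule ℂ (Y → ℂ)),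
  (∀ k, FiniteDimensional ℂ (V k)) → (∀ k a, ∀ F ∈ V k, t a * F ∈ V (k + 1)) →
  (∀ F ∈ V 0, (∀ a, t a * F = 0) → F = 0) →
  (∀ (k : ℕ) (η : Finset (Fin r) → Y → ℂ), (∀ I, η I ∈ V (k + 1)) →
    (∀ I, I.card ≠ k + 1 → η I = 0) → (∀ x, wg (t · x) (η · x) = 0) →
    ∃ H : Finset (Fin r) → Y → ℂ, (∀ J, H J ∈ V k) ∧ (∀ J, J.card ≠ k → H J = 0) ∧
      ∀ x, (η · x) = wg (t · x) (H · x)) →
  ∑ k ∈ Finset.range (r + 1), (-1 : ℤ) ^ k * r.choose k * Module.finrank ℂ (V k) = 0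

/-- A function killed by two difference operators is a polynomial. -/
def St_POL2 : Prop := ∀ (f : ℕ → ℕ → ℤ) (r r' c : ℕ),
  (∀ a, ∀ j ≥ 1, ∑ k ∈ Finset.range (r + 1), (-1 : ℤ) ^ k * r.choose k * f a (j + k) = 0) →
  (∀ a, ∀ j ≥ 1,
    ∑ k ∈ Finset.range (r' + 1), (-1 : ℤ) ^ k * r'.choose k * f (a + k) (j + c * k) = 0) →
  ∃ Q : Polynomial (Polynomial ℚ), (∀ a, ∀ j ≥ 1, (f a j : ℚ) = (Q.eval (Polynomial.C (j : ℚ))).eval (a : ℚ)) ∧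
    ∀ a : ℕ, ∑ k ∈ Finset.range (r + 1),
      (-1 : ℚ) ^ k * r.choose k * (Q.eval (Polynomial.C (k : ℚ))).eval (a : ℚ) = 0

/-- The value at zero. -/
def St_POL0 : Prop := ∀ (f : ℕ → ℕ → ℤ) (r : ℕ) (Q : Polynomial (Polynomial ℚ))
  (P : Polynomial ℚ),
  (∀ a, ∀ j ≥ 1, (f a j : ℚ) = (Q.eval (Polynomial.C (j : ℚ))).eval (a : ℚ)) →
  (∀ a : ℕ, ∑ k ∈ Finset.range (r + 1),
    (-1 : ℚ) ^ k * r.choose k * (Q.eval (Polynomial.C (k : ℚ))).eval (a : ℚ) = 0) →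
  (∀ᶠ j in Filter.atTop, (f 0 j : ℚ) = P.eval (j : ℚ)) → P.eval 0 ≠ 0 →
  ∀ᶠ a in Filter.atTop, ∑ k ∈ Finset.range (r + 1),
    (-1 : ℤ) ^ k * r.choose k * (if k = 0 then 0 else f a k) ≠ 0

end Pool.Agent.Lib.NV2
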