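import Pool.Agent.Lib.NV2.Blue
import Pool.Agent.Lib.ZQ.HqO
import Pool.Agent.Lib.ZL.B_CX
import Pool.Agent.Lib.SV1.Hor1

/-! Project NV2: the theorem of Hörmander with constant one off the zeros of a function. -/

open scoped Classical Topology ContDiff ENNReal
open Set MeasureTheory Complex Metric Filter

noncomputable section

namespace Pool.Agent.Lib.NV2

open Pool.Agent.Lib.SV (E nsq)
open Pool.Agent.Lib.HS32 Pool.Agent.Lib.EX Pool.Agent.Lib.EXS Pool.Agent.Lib.ZL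
open Pool.Agent.Lib.ZQ (HqO offz)

variable {n : ℕ} {M : Mf n} [M.Cpt] {ι : Type} [Fintype ι] [DecidableEq ι] {D : Ad M ι}

/-- With an ample divisor. -/
theorem hqA (A : Am D) (X : Cx D)
    (wc : D.Ov fun b d x => X.w d (D.e d x) =
      X.w b (D.e b x) * D.um X.l b d x * (D.J b d x).det ^ X.m)
    {g : M.X → ℂ} (hg : HoO D g) (g0 : ∃ x ∈ off D, g x ≠ 0) :
    IsOpen (offz D g) ∧ (∀ᵐ x ∂X.μ, x ∈ offz D g) ∧ HqO 1 D X.μ (offz D g) :=
  ZQ.hqO SV.hor1 one_ne_zero ENNReal.one_ne_top X.m0 X.whol X.wne wc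
    (oa_iff.1 fun _ _ hz ho => ⟨CX.hol A hz ho, CX.imm A hz ho⟩) (CX.cpt A) X.eta (oa_iff.1 hg) g0

/-- With an immersion given by sections. -/
theorem hqX (hU : St_UPB) (X : Cx D) {r : ℕ} {e : ι → ℕ} {t : Fin r → M.X → ℂ}
    (e0 : ∀ i, 0 < e i) (ht : ∀ a, Mer D (fun i => e i) (t a)) (hi : Imm D (fun i => e i) t)
    (wc : D.Ov fun b d x => X.w d (D.e d x) =
      X.w b (D.e b x) * D.um X.l b d x * (D.J b d x).det ^ X.m)
    {g : M.X → ℂ} (hg : HoO D g) (g0 : ∃ x ∈ off D, g x ≠ 0) :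
    IsOpen (offz D g) ∧ (∀ᵐ x ∂X.μ, x ∈ offz D g) ∧ HqO 1 D X.μ (offz D g) := by
  have u := fun d a => (hU n M ι D (fun i => e i)).2.2.2.2.2.1 (D.c d) _ (ht a d)
  refine hqA ⟨r, e, fun x a => t a x, vv D (fun i => e i) t, e0, fun d z hz => ⟨?_, fun h => ?_,
    fun ho => funext fun a => ?_⟩, fun d z hz y c h => ?_⟩ X wc hg g0
  · filter_upwards [isOpen_ball.mem_nhds hz] with y hy
    exact differentiableAt_pi.2 fun a => (u d a).1.differentiableAt (isOpen_ball.mem_nhds hy)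
  · exact one_ne_zero (hi d z hz 1 0 (by rw [h, smul_zero, map_zero, add_zero])).1
  · have := MON.xm_neg (c := D.c d) (fun i => e i) z
    rw [Pi.smul_apply, vv, (u d a).2 z hz ho, smul_eq_mul,
      show xm (D.c d) (fun i => -(e i : ℤ)) z = _ from this, inv_mul_cancel_left₀ (MON.xm_ne _ ho)]
    rfl
  · exact (hi d z hz (-c) y (by rw [h, neg_smul, neg_add_cancel])).2

end Pool.Agent.Lib.NV2
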