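import Pool.Agent.Lib.ZL.SDefs

/-! Definitions used in the statements: sections of divisors, very ample divisors, Zariski
decompositions and multivector fields. -/

open scoped Topology

noncomputable section

namespace Pool.Agent.Lib.NV2

open Pool.Agent.Lib.SV Pool.Agent.Lib.KP Pool.Agent.Lib.EX

variable (n : ℕ) {Y I : Type} [TopologicalSpace Y] [ChartedSpace (E n) Y] [Fintype I]

/-- Near `y` and off the `D i`, `f` is a meromorphic function with poles at most `∑ P i D i`. -/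
def PolAt (D : I → Set Y) (P : I → ℤ) (f : Y → ℂ) (y : Y) : Prop :=
  ∃ h s, Eqs n D y h ∧
    ∀ᶠ x in 𝓝 y, HolAt n 0 s x ∧ ((∀ i, x ∉ D i) → f x = s x * ∏ i, h i x ^ (-P i))

/-- `f` is a section of the divisor `∑ P i D i`: a meromorphic function with poles at most this
divisor, with the value zero on the `D i`. -/
def Sec (D : I → Set Y) (P : I → ℤ) (f : Y → ℂ) : Prop :=
  (∀ i, ∀ x ∈ D i, f x = 0) ∧ ∀ y, PolAt n D P f y

/-- The dimension of the space of sections of `∑ P i D i`. -/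
def hz (D : I → Set Y) (P : I → ℤ) : ℕ :=
  Module.finrank ℂ (Submodule.span ℂ {f | Sec n D P f})

/-- All `e i` are positive, and `∑ e i D i` is the pull-back of a hyperplane class by an immersion
`[t]` of `Y` into a projective space; `τ = t / ∏ h i ^ e i` is globally defined. -/
def AmpBy (D : I → Set Y) (e : I → ℕ) : Prop :=
  (∀ i, 0 < e i) ∧ ∃ (r : ℕ) (τ : Y → E r), ∀ y, ∃ (h : I → Y → ℂ) (t : Y → E r),
    Eqs n D y h ∧ t y ≠ 0 ∧
      (∀ᶠ x in 𝓝 y, (∀ j, HolAt n 0 (t · j) x) ∧ τ x = (∏ i, h i x ^ (-e i : ℤ)) • t x) ∧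
      ∀ v (c : ℂ), dAt n t y v = c • t y → v = 0

/-- The divisor `p - ν` is effective and asymptotically fixed: the poles of the sections of
`j p + k e` exceed `j ν` by an amount that does not depend on `j`. -/
def Zar (D : I → Set Y) (p ν : I → ℤ) (e : I → ℕ) : Prop :=
  ν ≤ p ∧ ∀ k : ℕ, ∃ a : I → ℤ, ∀ (j : ℕ) f,
    Sec n D (fun i => j * p i + k * e i) f → Sec n D (fun i => j * ν i + a i) f

/-- `b` is a meromorphic field of `q`-vectors with poles at most `∑ P i D i`, not zero: `b x` is an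
alternating form on the cotangent space at `x`, and `b (d f₁, …, d f_q)` has poles at most
`∑ P i D i` for all local holomorphic functions `f₁, …, f_q`. -/
def MVec (q : ℕ) (D : I → Set Y) (P : I → ℤ) (b : Y → (E n →L[ℂ] ℂ) [⋀^Fin q]→ₗ[ℂ] ℂ) : Prop :=
  (∃ x, (∀ i, x ∉ D i) ∧ b x ≠ 0) ∧ ∀ y (f : Fin q → Y → ℂ),
    (∀ᶠ x in 𝓝 y, ∀ p, HolAt n 0 (f p) x) → PolAt n D P (fun x => b x fun p => dAt n (f p) x) y

end Pool.Agent.Lib.NV2
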